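import Pool.Agent.Run7.h55.RelEq

/-!
# Conjugates in a finite Galois extension of the rationals inside the complex numbers
-/

set_option autoImplicit false

open Polynomial Finset

namespace Run7.h55

lemma exists_galois (Q : ℚ[X]) (hQ : Q ≠ 0) : ∃ L : IntermediateField ℚ ℂ,
    FiniteDimensional ℚ L ∧ IsGalois ℚ L ∧ ∀ x : ℂ, aeval x Q = 0 → x ∈ L := by
  have hs : (Q.map (algebraMap ℚ ℂ)).Splits := IsAlgClosed.splits _
  have h1 : IsSplittingField ℚ (IntermediateField.adjoin ℚ (Q.rootSet ℂ)) Q :=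
    IntermediateField.adjoin_rootSet_isSplittingField hs
  refine ⟨IntermediateField.adjoin ℚ (Q.rootSet ℂ), ?_, ?_, ?_⟩
  · exact @Polynomial.IsSplittingField.finiteDimensional _ _ _ _ _ Q h1
  · have : Normal ℚ (IntermediateField.adjoin ℚ (Q.rootSet ℂ)) :=
      Normal.of_isSplittingField Q (hFEp := h1)
    exact {}
  · intro x hx
    apply IntermediateField.subset_adjoin
    rw [mem_rootSet]
    exact ⟨hQ, hx⟩

lemma sum_log_nonneg (L : IntermediateField ℚ ℂ) [FiniteDimensional ℚ L] [IsGalois ℚ L]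
    [Fintype Gal(L/ℚ)] {x : L} (hx : x ≠ 0) (hi : IsIntegral ℤ x) :
    0 ≤ ∑ g : Gal(L/ℚ), Real.log ‖((g x : L) : ℂ)‖ := by
  have h1 := Algebra.norm_eq_prod_automorphisms (K := ℚ) (L := L) x
  obtain ⟨n, hn⟩ : ∃ n : ℤ, (n : ℚ) = Algebra.norm ℚ x := by
    have := IsIntegrallyClosed.isIntegral_iff.mp (Algebra.isIntegral_norm ℚ hi)
    obtain ⟨y, hy⟩ := this
    exact ⟨y, hy⟩
  have hn0 : n ≠ 0 := by
    rintro rfl
    have : Algebra.norm ℚ x = 0 := by rw [← hn]; simp
    rw [Algebra.norm_eq_zero_iff] at this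
    exact hx this
  have hne : ∀ g : Gal(L/ℚ), ‖((g x : L) : ℂ)‖ ≠ 0 := by
    intro g
    rw [norm_ne_zero_iff]
    intro h
    apply hx
    have h3 : g x = 0 := Subtype.ext h
    rwa [map_eq_zero] at h3
  rw [← Real.log_prod (fun g _ => hne g)]
  have h2 : ∏ g : Gal(L/ℚ), ‖((g x : L) : ℂ)‖ = |(n : ℝ)| := by
    rw [← norm_prod]
    have h3 : ∏ g : Gal(L/ℚ), ((g x : L) : ℂ) = ((∏ g : Gal(L/ℚ), g x : L) : ℂ) := by
      push_cast
      rfl
    rw [h3]
    have h4 : (∏ g : Gal(L/ℚ), g x : L) = algebraMap ℚ L (Algebra.norm ℚ x) := by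
      rw [h1]
      exact prod_congr (by ext; simp) fun _ _ => rfl
    rw [h4, ← hn]
    simp
  rw [h2]
  apply Real.log_nonneg
  have : 1 ≤ |n| := Int.one_le_abs hn0
  exact_mod_cast this

/-- All complex roots are real and lie at distance at most `2 * l` from `c`. -/
def RealIn (P : ℤ[X]) (c l : ℝ) : Prop :=
  ∀ z : ℂ, aeval z P = 0 → ∃ x : ℝ, (x : ℂ) = z ∧ |x - c| ≤ 2 * l

lemma aeval_gal {L : IntermediateField ℚ ℂ} (P : ℤ[X]) (g : Gal(L/ℚ)) {β : L}
    (h : aeval (β : ℂ) P = 0) : aeval ((g β : L) : ℂ) P = 0 := by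
  have h1 : ∀ y : L, aeval (y : ℂ) P = ((aeval y P : L) : ℂ) := fun y =>
    (aeval_algebraMap_apply ℂ y P)
  rw [h1] at h ⊢
  have h2 : aeval β P = 0 := Subtype.ext h
  have h3 : aeval (g β) P = g (aeval β P) := by
    have := aeval_algHom_apply ((g : L →ₐ[ℚ] L).restrictScalars ℤ) β P
    exact this
  rw [h3, h2, map_zero]
  rfl

lemma minpoly_of_root {P : ℤ[X]} (hP : P.Monic) (hirr : Irreducible P) {L : Type*} [Field L]
    [Algebra ℚ L] {β : L} (hβ : aeval β P = 0) : minpoly ℚ β = P.map (Int.castRingHom ℚ) := by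
  have h1 : Irreducible (P.map (Int.castRingHom ℚ)) :=
    (Polynomial.Monic.irreducible_iff_irreducible_map_fraction_map (K := ℚ) hP).mp hirr
  refine (minpoly.eq_of_irreducible_of_monic h1 ?_ (hP.map _)).symm
  rw [← hβ]
  exact aeval_map_algebraMap ℚ β P

lemma fixing_iff {L : IntermediateField ℚ ℂ} (β : L) (g : Gal(L/ℚ)) :
    g ∈ (IntermediateField.adjoin ℚ {β}).fixingSubgroup ↔ g β = β := by
  rw [IntermediateField.mem_fixingSubgroup_iff]
  constructor
  · intro h
    exact h β (IntermediateField.mem_adjoin_simple_self ℚ β)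
  · intro h x hx
    have h1 : IntermediateField.adjoin ℚ {β} ≤
        IntermediateField.fixedField (Subgroup.zpowers g) := by
      rw [IntermediateField.adjoin_simple_le_iff, IntermediateField.mem_fixedField_iff]
      intro f hf
      obtain ⟨k, rfl⟩ := hf
      have : g ∈ MulAction.stabilizer Gal(L/ℚ) β := h
      exact (MulAction.stabilizer Gal(L/ℚ) β).zpow_mem this k
    have h2 := h1 hx
    rw [IntermediateField.mem_fixedField_iff] at h2
    exact h2 g (Subgroup.mem_zpowers g)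

lemma conj_of_root (L : IntermediateField ℚ ℂ) [FiniteDimensional ℚ L] [IsGalois ℚ L]
    [Fintype Gal(L/ℚ)] {P : ℤ[X]} (hP : P.Monic) {c l : ℝ} (hl : 1 ≤ l) (hr : RealIn P c l)
    {β : L} (hβ : aeval (β : ℂ) P = 0) :
    Conj Gal(L/ℚ) (IntermediateField.adjoin ℚ {β}).fixingSubgroup
      (fun g => (((g β : L) : ℂ).re - c) / l) (Real.log l) := by
  have hl0 : 0 < l := by linarith
  have hβi : IsIntegral ℤ β := by
    refine ⟨P, hP, ?_⟩
    have h1 : aeval (β : ℂ) P = ((aeval β P : L) : ℂ) := aeval_algebraMap_apply ℂ β P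
    rw [h1] at hβ
    exact Subtype.ext hβ
  have hre : ∀ g : Gal(L/ℚ), (((g β : L) : ℂ).re : ℂ) = ((g β : L) : ℂ) ∧
      |((g β : L) : ℂ).re - c| ≤ 2 * l := by
    intro g
    obtain ⟨x, hx, hxc⟩ := hr _ (aeval_gal P g hβ)
    rw [← hx]
    simpa using hxc
  have hmul : ∀ g h : Gal(L/ℚ), (g * h) β = g (h β) := fun g h => rfl
  refine ⟨Real.log_nonneg hl, fun g => ?_, ?_, ?_⟩
  · rw [abs_div, abs_of_pos hl0, div_le_iff₀ hl0]
    exact (hre g).2
  · intro g h hh
    rw [fixing_iff] at hh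
    simp only [hmul, hh]
  · intro h hh
    rw [fixing_iff] at hh
    have h2 : ∀ g : Gal(L/ℚ), ‖((g (β - h β) : L) : ℂ)‖ / l =
        |(((g β : L) : ℂ).re - c) / l - ((((g * h) β : L) : ℂ).re - c) / l| := by
      intro g
      have h3 : ((g (β - h β) : L) : ℂ) = (((((g β : L) : ℂ).re - c -
          ((((g * h) β : L) : ℂ).re - c) : ℝ)) : ℂ) := by
        rw [map_sub]
        push_cast
        rw [(hre g).1, (hre (g * h)).1, hmul]
        ring
      rw [h3, Complex.norm_real, Real.norm_eq_abs, ← sub_div, abs_div, abs_of_pos hl0]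
    have hne : β - h β ≠ 0 := fun h0 => hh (sub_eq_zero.mp h0).symm
    have hne' : ∀ g : Gal(L/ℚ), ‖((g (β - h β) : L) : ℂ)‖ ≠ 0 := by
      intro g h4
      rw [norm_eq_zero] at h4
      have h5 : g (β - h β) = 0 := Subtype.ext h4
      rw [map_eq_zero] at h5
      exact hne h5
    constructor
    · intro g heq
      have h4 := h2 g
      rw [sub_eq_zero.mpr heq, abs_zero, div_eq_zero_iff] at h4
      rcases h4 with h4 | h4
      · exact hne' g h4
      · exact hl0.ne' h4
    · have h6 := sum_log_nonneg L hne (hβi.sub (hβi.map ((h : L →ₐ[ℚ] L).restrictScalars ℤ)))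
      have h7 : ∑ g : Gal(L/ℚ), Real.log |(((g β : L) : ℂ).re - c) / l -
          ((((g * h) β : L) : ℂ).re - c) / l| =
          ∑ g : Gal(L/ℚ), Real.log ‖((g (β - h β) : L) : ℂ)‖ -
            Fintype.card Gal(L/ℚ) * Real.log l := by
        rw [← card_univ, ← nsmul_eq_mul, ← sum_const, ← sum_sub_distrib]
        refine sum_congr rfl fun g _ => ?_
        rw [← h2, Real.log_div (hne' g) hl0.ne']
      rw [h7]
      linarith

lemma card_gal (L : IntermediateField ℚ ℂ) [FiniteDimensional ℚ L] [IsGalois ℚ L]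
    {P : ℤ[X]} (hP : P.Monic) (hirr : Irreducible P) {β : L} (hβ : aeval (β : ℂ) P = 0) :
    Nat.card Gal(L/ℚ) =
      P.natDegree * Nat.card (IntermediateField.adjoin ℚ {β}).fixingSubgroup := by
  have hβ' : aeval β P = 0 := by
    have h1 : aeval (β : ℂ) P = ((aeval β P : L) : ℂ) := aeval_algebraMap_apply ℂ β P
    rw [h1] at hβ
    exact Subtype.ext hβ
  rw [IsGalois.card_aut_eq_finrank, IsGalois.card_fixingSubgroup_eq_finrank,
    ← Module.finrank_mul_finrank ℚ (IntermediateField.adjoin ℚ {β}) L]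
  congr 1
  rw [IntermediateField.adjoin.finrank (Algebra.IsIntegral.isIntegral β),
    minpoly_of_root hP hirr hβ', hP.natDegree_map]

end Run7.h55
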