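import Pool.Agent.Run7.h55.SeqMain
import Pool.Agent.Run7.h55.Galois

/-!
# The data attached to an algebraic number of bounded degree over a cyclotomic field
-/

set_option autoImplicit false

open Finset Polynomial
open Pool.Agent.Helper781.CycHouse

namespace Run7.h55

lemma exists_vector {r : ℕ} (s : Multiset ℂ) (hs : s.card = r) :
    ∃ β : Fin r → ℂ, (univ : Finset (Fin r)).val.map β = s := by
  obtain ⟨l, rfl⟩ : ∃ l : List ℂ, (l : Multiset ℂ) = s := ⟨_, s.coe_toList⟩
  rw [Multiset.coe_card] at hs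
  subst hs
  refine ⟨l.get, ?_⟩
  rw [Fin.univ_val_map, List.ofFn_get]

/-- The conjugates over a cyclotomic field. -/
lemma data_exists {P : ℤ[X]} (hP : P.Monic) {N : ℕ} (hN : 0 < N) {ζ : ℂ}
    (hζ : IsPrimitiveRoot ζ N) {α : ℂ} (hα : aeval α P = 0) :
    ∃ (β : Fin (minpoly (IntermediateField.adjoin ℚ {ζ}) α).natDegree → ℂ)
      (f : Fin (minpoly (IntermediateField.adjoin ℚ {ζ}) α).natDegree → ℤ[X]),
      (∀ i, aeval (β i) P = 0) ∧ (∃ i, β i = α) ∧ ∀ j, aeval ζ (f j) = es β j := by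
  set K := IntermediateField.adjoin ℚ {ζ} with hK
  have hαi : IsIntegral ℤ α := ⟨P, hP, hα⟩
  have hαK : IsIntegral K α := hαi.tower_top
  set p := minpoly K α with hp
  have hpm : p.Monic := minpoly.monic hαK
  set pC := p.map (algebraMap K ℂ) with hpC
  have hpCm : pC.Monic := hpm.map _
  have hsplit : pC.Splits := IsAlgClosed.splits _
  obtain ⟨β, hβ⟩ := exists_vector (r := p.natDegree) pC.roots (by
    rw [← hsplit.natDegree_eq_card_roots, hpC, hpm.natDegree_map])
  have hprod : pC = ∏ i, (X - C (β i)) := by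
    rw [hsplit.eq_prod_roots_of_monic hpCm, ← hβ, Multiset.map_map]
    rfl
  have hroot : ∀ i, aeval (β i) P = 0 := by
    intro i
    have h1 : p ∣ P.map (algebraMap ℤ K) := by
      apply minpoly.dvd
      rw [aeval_map_algebraMap]
      exact hα
    have h2 : pC ∣ P.map (algebraMap ℤ ℂ) := by
      have := Polynomial.map_dvd (algebraMap K ℂ) h1
      rwa [Polynomial.map_map, ← IsScalarTower.algebraMap_eq] at this
    have h3 : pC.eval (β i) = 0 := by
      rw [hprod, eval_prod]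
      exact prod_eq_zero (mem_univ i) (by simp)
    rw [aeval_def, eval₂_eq_eval_map]
    obtain ⟨q, hq⟩ := h2
    rw [hq, eval_mul, h3, zero_mul]
  have hαβ : ∃ i, β i = α := by
    have h1 : pC.eval α = 0 := by
      rw [hpC, eval_map_algebraMap]
      exact minpoly.aeval K α
    rw [hprod, eval_prod, prod_eq_zero_iff] at h1
    obtain ⟨i, _, hi⟩ := h1
    refine ⟨i, ?_⟩
    rw [eval_sub, eval_X, eval_C, sub_eq_zero] at hi
    exact hi.symm
  have hint : ∀ j, IsIntegral ℤ (es β j) := by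
    intro j
    unfold es
    exact IsIntegral.sum _ fun t _ => IsIntegral.prod _ fun i _ => ⟨P, hP, hroot i⟩
  have hmem : ∀ j, es β j ∈ K := by
    intro j
    rw [es_of_prod, ← hprod, hpC, coeff_map]
    have h1 : ((-1) ^ ((j : ℕ) + 1) : ℂ) = algebraMap K ℂ ((-1) ^ ((j : ℕ) + 1)) := by simp
    rw [h1, ← map_mul]
    exact ((-1) ^ ((j : ℕ) + 1) * p.coeff (p.natDegree - ((j : ℕ) + 1)) : K).2
  have hf : ∀ j, ∃ f : ℤ[X], aeval ζ f = es β j := fun j =>
    int_of_field hN hζ (es β j) (hint j) (hmem j)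
  choose f hf using hf
  exact ⟨β, f, hroot, hαβ, hf⟩

/-- The field containing the conjugates and the roots of unity. -/
lemma exists_field {P : ℤ[X]} (hP : P.Monic) {M : ℕ} (hM : 0 < M) :
    ∃ L : IntermediateField ℚ ℂ, FiniteDimensional ℚ L ∧ IsGalois ℚ L ∧
      (∀ x : ℂ, aeval x P = 0 → x ∈ L) ∧ ∀ x : ℂ, x ^ M = 1 → x ∈ L := by
  obtain ⟨L, h1, h2, h3⟩ := exists_galois (P.map (algebraMap ℤ ℚ) * (X ^ M - 1))
    (mul_ne_zero (hP.map _).ne_zero (X_pow_sub_C_ne_zero hM 1))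
  refine ⟨L, h1, h2, fun x hx => h3 x ?_, fun x hx => h3 x ?_⟩
  · rw [map_mul, aeval_map_algebraMap, hx, zero_mul]
  · rw [map_mul, map_sub, map_pow, aeval_X, hx, map_one, sub_self, mul_zero]

lemma exists_gal_root (L : IntermediateField ℚ ℂ) [FiniteDimensional ℚ L] [IsGalois ℚ L]
    {N : ℕ} (hN : 0 < N) {ζ z : L} (hζ : IsPrimitiveRoot (ζ : ℂ) N)
    (hz : IsPrimitiveRoot (z : ℂ) N) : ∃ g : Gal(L/ℚ), g ζ = z := by
  have hinj : Function.Injective (algebraMap L ℂ) := (algebraMap L ℂ).injective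
  have hζ' : IsPrimitiveRoot ζ N := (IsPrimitiveRoot.map_iff_of_injective
    (f := algebraMap L ℂ) hinj).mp hζ
  have hz' : IsPrimitiveRoot z N := (IsPrimitiveRoot.map_iff_of_injective
    (f := algebraMap L ℂ) hinj).mp hz
  refine minpoly.exists_algEquiv_of_root' (Algebra.IsAlgebraic.isAlgebraic ζ) ?_
  rw [← cyclotomic_eq_minpoly_rat hζ' hN, cyclotomic_eq_minpoly_rat hz' hN]
  exact minpoly.aeval ℚ z

lemma exists_gal_conj (L : IntermediateField ℚ ℂ) [FiniteDimensional ℚ L] [IsGalois ℚ L]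
    {P : ℤ[X]} (hP : P.Monic) (hirr : Irreducible P) {α β : L} (hα : aeval (α : ℂ) P = 0)
    (hβ : aeval (β : ℂ) P = 0) : ∃ g : Gal(L/ℚ), g α = β := by
  have h1 : ∀ y : L, aeval (y : ℂ) P = ((aeval y P : L) : ℂ) := fun y =>
    (aeval_algebraMap_apply ℂ y P)
  have hα' : aeval α P = 0 := by
    rw [h1] at hα
    exact Subtype.ext hα
  have hβ' : aeval β P = 0 := by
    rw [h1] at hβ
    exact Subtype.ext hβ
  refine minpoly.exists_algEquiv_of_root' (Algebra.IsAlgebraic.isAlgebraic α) ?_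
  rw [minpoly_of_root hP hirr hα', ← minpoly_of_root hP hirr hβ']
  exact minpoly.aeval ℚ β

/-- The action on the elementary symmetric functions. -/
lemma gal_es (L : IntermediateField ℚ ℂ) {r : ℕ} (β : Fin r → L) {ζ : L} (f : Fin r → ℤ[X])
    (hf : ∀ j, aeval (ζ : ℂ) (f j) = es (fun i => (β i : ℂ)) j) (g : Gal(L/ℚ)) (j : Fin r) :
    aeval ((g ζ : L) : ℂ) (f j) = es (fun i => ((g (β i) : L) : ℂ)) j := by
  have h1 : ∀ y : L, aeval (y : ℂ) (f j) = ((aeval y (f j) : L) : ℂ) := fun y =>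
    (aeval_algebraMap_apply ℂ y (f j))
  have h2 : es (fun i => (β i : ℂ)) j = ((es β j : L) : ℂ) := (map_es (algebraMap L ℂ) β j).symm
  have h3 : aeval ζ (f j) = es β j := by
    apply Subtype.ext
    rw [← h1, hf, h2]
  have h4 : aeval (g ζ) (f j) = g (aeval ζ (f j)) :=
    aeval_algHom_apply ((g : L →ₐ[ℚ] L).restrictScalars ℤ) ζ (f j)
  have h5 : g (es β j) = es (fun i => g (β i)) j := map_es (g : L →+* L) β j
  rw [h1, h4, h3, h5]
  exact map_es (algebraMap L ℂ) (fun i => g (β i)) j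

/-- Sums over a coset of the kernel of a composite homomorphism. -/
lemma sum_coset {G H H' : Type} [Group G] [Fintype G] [Group H] [Fintype H] [DecidableEq H]
    [Group H'] [DecidableEq H'] (χ : G →* H) (hχ : Function.Surjective χ) (T : H →* H')
    [Fintype (T.comp χ).ker] (g₀ : G) :
    ∃ κ : ℕ, 0 < κ ∧ ∀ F : H → ℂ, ∑ v : (T.comp χ).ker, F (χ (g₀ * v)) =
      κ * ∑ h ∈ univ.filter (fun h => T h = T (χ g₀)), F h := by
  refine ⟨(univ.filter fun g : G => χ g = 1).card,
    card_pos.mpr ⟨1, by simp⟩, fun F => ?_⟩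
  have h1 : ∑ v : (T.comp χ).ker, F (χ (g₀ * v)) =
      ∑ g ∈ univ.filter (fun g : G => T (χ g) = T (χ g₀)), F (χ g) := by
    refine sum_bij (fun v _ => g₀ * (v : G)) ?_ ?_ ?_ ?_
    · intro v _
      rw [mem_filter]
      refine ⟨mem_univ _, ?_⟩
      rw [map_mul, map_mul]
      have : T (χ (v : G)) = 1 := v.2
      rw [this, mul_one]
    · intro a _ b _ hab
      exact Subtype.ext (mul_left_cancel hab)
    · intro g hg
      rw [mem_filter] at hg
      refine ⟨⟨g₀⁻¹ * g, ?_⟩, mem_univ _, by simp⟩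
      rw [MonoidHom.mem_ker, MonoidHom.comp_apply, map_mul, map_mul, map_inv, map_inv, hg.2,
        inv_mul_cancel]
    · intro v _
      rfl
  rw [h1]
  have h2 : ∀ g ∈ univ.filter (fun g : G => T (χ g) = T (χ g₀)),
      χ g ∈ univ.filter (fun h => T h = T (χ g₀)) := by
    intro g hg
    rw [mem_filter] at hg ⊢
    exact ⟨mem_univ _, hg.2⟩
  rw [← sum_fiberwise_of_maps_to h2, mul_sum]
  refine sum_congr rfl fun h hh => ?_
  rw [mem_filter] at hh
  have h3 : (univ.filter (fun g : G => T (χ g) = T (χ g₀))).filter (fun g => χ g = h) =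
      univ.filter fun g : G => χ g = h := by
    ext g
    simp only [mem_filter, mem_univ, true_and, and_iff_right_iff_imp]
    rintro rfl
    exact hh.2
  rw [h3, sum_congr rfl (g := fun _ => F h) (fun g hg => by rw [(mem_filter.mp hg).2]),
    sum_const, nsmul_eq_mul, MonoidHom.card_fiber_eq_of_mem_range χ (x := h) (y := 1)
      (hχ h) (hχ 1)]

end Run7.h55
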