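import Mathlib

/-!
# The logarithmic energy inequality on an interval of length four

For points `2 cos θ_i` of `[-2, 2]` the logarithmic kernel has the expansion
`-log |x - y| = ∑ (1 / 2k) T_k(x) T_k(y)`. We use the truncated (Abel summed) version.
-/

set_option autoImplicit false

open Finset

namespace Run7.h55

/-- The Abel-summed kernel. -/
noncomputable def ker (r θ φ : ℝ) : ℝ :=
  -Real.log ‖1 - (r : ℂ) * Complex.exp ((θ + φ : ℝ) * Complex.I)‖ -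
    Real.log ‖1 - (r : ℂ) * Complex.exp ((θ - φ : ℝ) * Complex.I)‖

lemma hasSum_log {r : ℝ} (hr0 : 0 ≤ r) (hr1 : r < 1) (u : ℝ) :
    HasSum (fun n : ℕ => r ^ (n + 1) * Real.cos (((n + 1 : ℕ) : ℝ) * u) / ((n + 1 : ℕ) : ℝ))
      (-Real.log ‖1 - (r : ℂ) * Complex.exp ((u : ℝ) * Complex.I)‖) := by
  set z : ℂ := (r : ℂ) * Complex.exp ((u : ℝ) * Complex.I) with hz
  have hzn : ‖z‖ < 1 := by
    rw [hz, norm_mul, Complex.norm_exp_ofReal_mul_I, mul_one, Complex.norm_real,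
      Real.norm_of_nonneg hr0]
    exact hr1
  have h1 := Complex.hasSum_re (Complex.hasSum_taylorSeries_neg_log hzn)
  rw [Complex.neg_re, Complex.log_re] at h1
  have h2 : ∀ n : ℕ, (z ^ n / n).re = r ^ n * Real.cos ((n : ℝ) * u) / n := by
    intro n
    have : z ^ n / n = ((r ^ n / n : ℝ) : ℂ) * Complex.exp (((n : ℝ) * u : ℝ) * Complex.I) := by
      rw [hz, mul_pow, ← Complex.exp_nat_mul]
      push_cast
      rw [mul_assoc (n : ℂ)]
      ring
    rw [this, Complex.re_ofReal_mul, Complex.exp_ofReal_mul_I_re]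
    ring
  simp_rw [h2] at h1
  have h3 := (hasSum_nat_add_iff' 1).mpr h1
  simpa using h3

lemma ker_hasSum {r : ℝ} (hr0 : 0 ≤ r) (hr1 : r < 1) (θ φ : ℝ) :
    HasSum (fun n : ℕ => r ^ (n + 1) / (2 * ((n + 1 : ℕ) : ℝ)) *
      ((2 * Real.cos (((n + 1 : ℕ) : ℝ) * θ)) * (2 * Real.cos (((n + 1 : ℕ) : ℝ) * φ))))
      (ker r θ φ) := by
  have h1 := (hasSum_log hr0 hr1 (θ + φ)).add (hasSum_log hr0 hr1 (θ - φ))
  have h2 : (-Real.log ‖1 - (r : ℂ) * Complex.exp ((θ + φ : ℝ) * Complex.I)‖ +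
      -Real.log ‖1 - (r : ℂ) * Complex.exp ((θ - φ : ℝ) * Complex.I)‖) = ker r θ φ := by
    unfold ker; ring
  rw [h2] at h1
  convert h1 using 1
  funext n
  set m : ℝ := ((n + 1 : ℕ) : ℝ) with hm
  have hm0 : m ≠ 0 := by rw [hm]; positivity
  have h3 : Real.cos (m * (θ + φ)) + Real.cos (m * (θ - φ)) =
      2 * Real.cos (m * θ) * Real.cos (m * φ) := by
    rw [mul_add, mul_sub, Real.cos_add, Real.cos_sub]; ring
  have h4 : r ^ (n + 1) * Real.cos (m * (θ + φ)) / m + r ^ (n + 1) * Real.cos (m * (θ - φ)) / m =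
      r ^ (n + 1) / m * (Real.cos (m * (θ + φ)) + Real.cos (m * (θ - φ))) := by ring
  rw [h4, h3]
  field_simp

lemma normSq_one_sub (r u : ℝ) :
    ‖1 - (r : ℂ) * Complex.exp ((u : ℝ) * Complex.I)‖ ^ 2 = (1 - r) ^ 2 + 2 * r * (1 - Real.cos u) := by
  rw [← Complex.normSq_eq_norm_sq, Complex.normSq_apply]
  have h1 : (1 - (r : ℂ) * Complex.exp ((u : ℝ) * Complex.I)).re = 1 - r * Real.cos u := by
    rw [Complex.sub_re, Complex.one_re, Complex.re_ofReal_mul, Complex.exp_ofReal_mul_I_re]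
  have h2 : (1 - (r : ℂ) * Complex.exp ((u : ℝ) * Complex.I)).im = - (r * Real.sin u) := by
    rw [Complex.sub_im, Complex.one_im, Complex.im_ofReal_mul, Complex.exp_ofReal_mul_I_im]
    ring
  rw [h1, h2]
  have h3 : Real.sin u ^ 2 = 1 - Real.cos u ^ 2 := by linarith [Real.sin_sq_add_cos_sq u]
  calc (1 - r * Real.cos u) * (1 - r * Real.cos u) + -(r * Real.sin u) * -(r * Real.sin u)
      = 1 - 2 * r * Real.cos u + r ^ 2 * Real.cos u ^ 2 + r ^ 2 * Real.sin u ^ 2 := by ring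
    _ = _ := by rw [h3]; ring

/-- Off-diagonal bound. -/
lemma ker_le_of_ne {r : ℝ} (hr0 : 0 < r) (hr1 : r < 1) {θ φ : ℝ}
    (hne : 2 * Real.cos θ ≠ 2 * Real.cos φ) :
    ker r θ φ ≤ -Real.log r - Real.log |2 * Real.cos θ - 2 * Real.cos φ| := by
  unfold ker
  set A := ‖1 - (r : ℂ) * Complex.exp ((θ + φ : ℝ) * Complex.I)‖ with hA
  set B := ‖1 - (r : ℂ) * Complex.exp ((θ - φ : ℝ) * Complex.I)‖ with hB
  have hA2 : A ^ 2 = (1 - r) ^ 2 + 2 * r * (1 - Real.cos (θ + φ)) := normSq_one_sub r _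
  have hB2 : B ^ 2 = (1 - r) ^ 2 + 2 * r * (1 - Real.cos (θ - φ)) := normSq_one_sub r _
  have hc1 := Real.cos_le_one (θ + φ)
  have hc2 := Real.cos_le_one (θ - φ)
  have hApos : 0 < A := by
    have : 0 < A ^ 2 := by rw [hA2]; nlinarith [sq_nonneg (1 - r), mul_pos hr0 hr0]
    have h0 : 0 ≤ A := norm_nonneg _
    nlinarith
  have hBpos : 0 < B := by
    have : 0 < B ^ 2 := by rw [hB2]; nlinarith [sq_nonneg (1 - r), mul_pos hr0 hr0]
    have h0 : 0 ≤ B := norm_nonneg _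
    nlinarith
  have hd : 0 < |2 * Real.cos θ - 2 * Real.cos φ| := abs_pos.mpr (sub_ne_zero.mpr hne)
  have hprod : (r * |2 * Real.cos θ - 2 * Real.cos φ|) ^ 2 ≤ (A * B) ^ 2 := by
    rw [mul_pow, mul_pow, hA2, hB2, sq_abs]
    have h1 : (1 - Real.cos (θ + φ)) * (1 - Real.cos (θ - φ)) = (Real.cos θ - Real.cos φ) ^ 2 := by
      rw [Real.cos_add, Real.cos_sub]
      have h1 := Real.sin_sq_add_cos_sq θ
      have h2 := Real.sin_sq_add_cos_sq φ
      have h3 : Real.sin θ ^ 2 = 1 - Real.cos θ ^ 2 := by linarith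
      have h4 : Real.sin φ ^ 2 = 1 - Real.cos φ ^ 2 := by linarith
      calc (1 - (Real.cos θ * Real.cos φ - Real.sin θ * Real.sin φ)) *
            (1 - (Real.cos θ * Real.cos φ + Real.sin θ * Real.sin φ))
          = (1 - Real.cos θ * Real.cos φ) ^ 2 - Real.sin θ ^ 2 * Real.sin φ ^ 2 := by ring
        _ = _ := by rw [h3, h4]; ring
    have h2 : r ^ 2 * (2 * Real.cos θ - 2 * Real.cos φ) ^ 2 =
        (2 * r * (1 - Real.cos (θ + φ))) * (2 * r * (1 - Real.cos (θ - φ))) := by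
      calc r ^ 2 * (2 * Real.cos θ - 2 * Real.cos φ) ^ 2 =
            4 * r ^ 2 * (Real.cos θ - Real.cos φ) ^ 2 := by ring
        _ = _ := by rw [← h1]; ring
    rw [h2]
    have e1 : 0 ≤ 2 * r * (1 - Real.cos (θ + φ)) := by
      apply mul_nonneg <;> nlinarith
    have e2 : 0 ≤ 2 * r * (1 - Real.cos (θ - φ)) := by
      apply mul_nonneg <;> nlinarith
    nlinarith [sq_nonneg (1 - r), mul_nonneg (sq_nonneg (1 - r)) e1,
      mul_nonneg (sq_nonneg (1 - r)) e2, mul_nonneg (sq_nonneg (1 - r)) (sq_nonneg (1 - r))]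
  have hle : r * |2 * Real.cos θ - 2 * Real.cos φ| ≤ A * B :=
    (pow_le_pow_iff_left₀ (by positivity) (by positivity) two_ne_zero).mp hprod
  have h5 : Real.log (r * |2 * Real.cos θ - 2 * Real.cos φ|) ≤ Real.log (A * B) :=
    Real.log_le_log (by positivity) hle
  rw [Real.log_mul hr0.ne' hd.ne', Real.log_mul hApos.ne' hBpos.ne'] at h5
  linarith

/-- Diagonal bound. -/
lemma ker_le {r : ℝ} (hr0 : 0 < r) (hr1 : r < 1) (θ φ : ℝ) :
    ker r θ φ ≤ -(2 * Real.log (1 - r)) := by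
  unfold ker
  have h : ∀ u : ℝ, Real.log (1 - r) ≤ Real.log ‖1 - (r : ℂ) * Complex.exp ((u : ℝ) * Complex.I)‖ := by
    intro u
    apply Real.log_le_log (by linarith)
    have h1 := normSq_one_sub r u
    have h2 := Real.cos_le_one u
    have h3 : (1 - r) ^ 2 ≤ ‖1 - (r : ℂ) * Complex.exp ((u : ℝ) * Complex.I)‖ ^ 2 := by
      rw [h1]; nlinarith
    exact (pow_le_pow_iff_left₀ (by linarith) (norm_nonneg _) two_ne_zero).mp h3
  have := h (θ + φ)
  have := h (θ - φ)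
  linarith

/-- The quadratic form of the kernel dominates each term. -/
lemma sum_ker_ge {U : Type*} [Fintype U] {r : ℝ} (hr0 : 0 ≤ r) (hr1 : r < 1) (θ : U → ℝ) (k : ℕ) :
    r ^ (k + 1) / (2 * ((k + 1 : ℕ) : ℝ)) * (∑ u, 2 * Real.cos (((k + 1 : ℕ) : ℝ) * θ u)) ^ 2 ≤
      ∑ u, ∑ u', ker r (θ u) (θ u') := by
  have h1 : HasSum (fun n : ℕ => r ^ (n + 1) / (2 * ((n + 1 : ℕ) : ℝ)) *
      (∑ u, 2 * Real.cos (((n + 1 : ℕ) : ℝ) * θ u)) ^ 2) (∑ u, ∑ u', ker r (θ u) (θ u')) := by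
    have h2 : HasSum (fun n : ℕ => ∑ u, ∑ u', r ^ (n + 1) / (2 * ((n + 1 : ℕ) : ℝ)) *
      ((2 * Real.cos (((n + 1 : ℕ) : ℝ) * θ u)) * (2 * Real.cos (((n + 1 : ℕ) : ℝ) * θ u'))))
      (∑ u, ∑ u', ker r (θ u) (θ u')) :=
      hasSum_sum fun u _ => hasSum_sum fun u' _ => ker_hasSum hr0 hr1 _ _
    convert h2 using 1
    funext n
    rw [sq, sum_mul_sum, mul_sum]
    refine sum_congr rfl fun u _ => ?_
    rw [mul_sum]
  refine le_hasSum h1 k fun n _ => ?_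
  positivity

end Run7.h55
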