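import Pool.Agent.Run7.h55.Data

/-!
# Relative equidistribution of the data
-/

set_option autoImplicit false

open Finset Polynomial
open Pool.Agent.Helper781.CycHouse

namespace Run7.h55

lemma abs_pow_sub_pow_le' (k : ℕ) {W x y : ℝ} (hW : 1 ≤ W) (hx : |x| ≤ W) (hy : |y| ≤ W) :
    |x ^ k - y ^ k| ≤ k * W ^ k * |x - y| := by
  induction k with
  | zero => simp
  | succ k ih =>
    have h1 : x ^ (k + 1) - y ^ (k + 1) = x * (x ^ k - y ^ k) + (x - y) * y ^ k := by ring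
    have h2 : |x * (x ^ k - y ^ k)| ≤ W * (k * W ^ k * |x - y|) := by
      rw [abs_mul]
      exact mul_le_mul hx ih (abs_nonneg _) (by linarith)
    have h3 : |(x - y) * y ^ k| ≤ |x - y| * W ^ k := by
      rw [abs_mul, abs_pow]
      exact mul_le_mul_of_nonneg_left (pow_le_pow_left₀ (abs_nonneg _) hy k) (abs_nonneg _)
    have h4 : |x - y| * W ^ k ≤ |x - y| * W ^ (k + 1) := by
      refine mul_le_mul_of_nonneg_left ?_ (abs_nonneg _)
      exact pow_le_pow_right₀ hW (Nat.le_succ k)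
    rw [h1]
    refine (abs_add_le _ _).trans ?_
    push_cast
    have h5 : W * (k * W ^ k * |x - y|) = k * W ^ (k + 1) * |x - y| := by ring
    nlinarith

lemma data_equi (r k Q : ℕ) (hQ : 0 < Q) (A : ℝ) (hA : 0 ≤ A) {ε : ℝ} (hε : 0 < ε) :
    ∃ l₀ : ℝ, 1 < l₀ ∧ ∃ D : ℕ, ∀ (P : ℤ[X]), P.Monic → Irreducible P → D ≤ P.natDegree →
      ∀ c : ℝ, |c| ≤ A → ∀ l : ℝ, 1 ≤ l → l ≤ l₀ → RealIn P c l → ∀ (N : ℕ), 0 < N → ∀ (ζ : ℂ), IsPrimitiveRoot ζ N →
      ∀ (β : Fin r → ℂ) (f : Fin r → ℤ[X]), (∀ i, aeval (β i) P = 0) →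
      (∀ j, aeval ζ (f j) = es β j) → ∀ (M : ℕ) [NeZero M], N ∣ M →
      ∀ (hQM : Q ∣ M) (a : (ZMod Q)ˣ),
      ‖∑ u ∈ unitsOver hQM a, MvPolynomial.aeval
          (fun j => aeval (ζ ^ (u : ZMod M).val) (f j)) (psumQ r k) -
        (unitsOver hQM a).card * ((r * mom k c : ℝ) : ℂ)‖ ≤ ε * (unitsOver hQM a).card := by
  classical
  have hε' : 0 < ε / (r + 1) / 2 := by positivity
  obtain ⟨η₀, hη₀, D, hD⟩ := rel_mom k Q A hA hε'
  set δ : ℝ := min (min 1 η₀) (ε / (r + 1) / 2 / (2 * (k + 1) * (A + 4) ^ k)) with hδ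
  have hδ0 : 0 < δ := by
    rw [hδ]
    refine lt_min (lt_min one_pos hη₀) (by positivity)
  have hδ1 : δ ≤ 1 := (min_le_left _ _).trans (min_le_left _ _)
  have hδ2 : δ ≤ η₀ := (min_le_left _ _).trans (min_le_right _ _)
  have hδ3 : 2 * (k + 1) * (A + 4) ^ k * δ ≤ ε / (r + 1) / 2 := by
    have h1 : δ ≤ ε / (r + 1) / 2 / (2 * (k + 1) * (A + 4) ^ k) := min_le_right _ _
    rwa [le_div_iff₀ (by positivity), mul_comm] at h1
  refine ⟨1 + δ, by linarith, D,
    fun P hP hirr hdeg c hc l hl1 hl2 hr N hN ζ hζ β f hβ hf M hMne hNM hQM a => ?_⟩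
  have hl0 : 0 < l := by linarith
  have hlog : Real.log l ≤ η₀ := by
    have := Real.log_le_sub_one_of_pos hl0
    linarith
  have hM : 0 < M := Nat.pos_of_ne_zero hMne.out
  have : NeZero Q := ⟨hQ.ne'⟩
  obtain ⟨L, hL1, hL2, hL3, hL4⟩ := exists_field hP hM
  have : Fintype Gal(L/ℚ) := Fintype.ofFinite _
  -- a primitive root in `L`
  have hθ := Complex.isPrimitiveRoot_exp M hM.ne'
  set θC := Complex.exp (2 * Real.pi * Complex.I / M) with hθC
  obtain ⟨θ, hθθ⟩ : ∃ θ : L, (θ : ℂ) = θC := ⟨⟨θC, hL4 _ hθ.pow_eq_one⟩, rfl⟩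
  have hθC' : IsPrimitiveRoot (θ : ℂ) M := by rw [hθθ]; exact hθ
  have hθL : IsPrimitiveRoot θ M := (IsPrimitiveRoot.map_iff_of_injective
    (f := algebraMap L ℂ) (algebraMap L ℂ).injective).mp hθC'
  set χ : Gal(L/ℚ) →* (ZMod M)ˣ := hθL.autToPow ℚ with hχ
  have hχs : ∀ g : Gal(L/ℚ), θ ^ (χ g : ZMod M).val = g θ := fun g => hθL.autToPow_spec ℚ g
  have hχsurj : Function.Surjective χ := by
    intro u
    obtain ⟨g, hg⟩ := exists_gal_root L hM (ζ := θ) (z := θ ^ (u : ZMod M).val) hθC' (by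
      have := hθC'.pow_of_coprime _ (ZMod.val_coe_unit_coprime u)
      push_cast
      exact this)
    refine ⟨g, ?_⟩
    apply Units.ext
    apply ZMod.val_injective M
    refine hθL.pow_inj (ZMod.val_lt _) (ZMod.val_lt _) ?_
    rw [hχs, hg]
  -- the other elements of `L`
  have hζM : ζ ^ M = 1 := by
    obtain ⟨d, rfl⟩ := hNM
    rw [pow_mul, hζ.pow_eq_one, one_pow]
  obtain ⟨ζL, hζL⟩ : ∃ z : L, (z : ℂ) = ζ := ⟨⟨ζ, hL4 _ hζM⟩, rfl⟩
  obtain ⟨e, he⟩ : ∃ e, θ ^ e = ζL := by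
    obtain ⟨e, _, he⟩ := hθ.eq_pow_of_pow_eq_one hζM
    refine ⟨e, Subtype.ext ?_⟩
    push_cast
    rw [hθθ, he, hζL]
  have hβL : ∀ i, ∃ b : L, (b : ℂ) = β i := fun i => ⟨⟨β i, hL3 _ (hβ i)⟩, rfl⟩
  choose b hb using hβL
  have hb' : ∀ i, aeval (b i : ℂ) P = 0 := fun i => by rw [hb]; exact hβ i
  have hgζ : ∀ g : Gal(L/ℚ), ((g ζL : L) : ℂ) = ζ ^ (χ g : ZMod M).val := by
    intro g
    have h1 : g ζL = ζL ^ (χ g : ZMod M).val := by
      rw [← he, map_pow, ← hχs, pow_right_comm]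
    rw [h1]
    push_cast
    rw [hζL]
  have hfL : ∀ j, aeval (ζL : ℂ) (f j) = es (fun i => (b i : ℂ)) j := by
    intro j
    rw [hζL, hf]
    congr 1
    funext i
    exact (hb i).symm
  -- the subgroup
  set T : (ZMod M)ˣ →* (ZMod Q)ˣ := ZMod.unitsMap hQM with hT
  set U := (T.comp χ).ker with hU
  have hcardU : Nat.card Gal(L/ℚ) ≤ Q * Nat.card U := by
    rw [← Subgroup.card_mul_index U, mul_comm]
    refine Nat.mul_le_mul_right _ ?_
    rw [hU, Subgroup.index_ker]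
    calc Nat.card (T.comp χ).range ≤ Nat.card (ZMod Q)ˣ := Subgroup.card_le_card_group _
      _ ≤ Nat.card (ZMod Q) := Nat.card_le_card_of_injective _ Units.val_injective
      _ = Q := Nat.card_zmod Q
  obtain ⟨h₀, hh₀⟩ := ZMod.unitsMap_surjective hQM a
  obtain ⟨g₀, rfl⟩ := hχsurj h₀
  -- the moments
  have hmom : ∀ i, |∑ u : U, (((g₀ * (u : Gal(L/ℚ))) (b i) : L) : ℂ).re ^ k -
      mom k c * Nat.card U| ≤ ε / (r + 1) * Nat.card U := by
    intro i
    have h1 := hD Gal(L/ℚ) (IntermediateField.adjoin ℚ {b i}).fixingSubgroup U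
      (fun g => (((g (b i) : L) : ℂ).re - c) / l) (Real.log l) hlog
      (conj_of_root L hP hl1 hr (hb' i)) hcardU
      (by
        rw [card_gal L hP hirr (hb' i)]
        exact Nat.mul_le_mul_right _ hdeg) c hc g₀
    have hpert : ∀ g : Gal(L/ℚ), |((g (b i) : L) : ℂ).re ^ k -
        (c + (((g (b i) : L) : ℂ).re - c) / l) ^ k| ≤ ε / (r + 1) / 2 := by
      intro g
      obtain ⟨x, hx, hxc⟩ := hr _ (aeval_gal P g (hb' i))
      rw [← hx, Complex.ofReal_re]
      have h2 : |x| ≤ A + 4 := by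
        have h3 : |x| ≤ |x - c| + |c| := by
          have := abs_add_le (x - c) c
          rwa [sub_add_cancel] at this
        linarith
      have h3 : |(x - c) / l| ≤ 2 := by
        rw [abs_div, abs_of_pos hl0, div_le_iff₀ hl0]
        exact hxc
      have h4 : |c + (x - c) / l| ≤ A + 4 := by
        have := abs_add_le c ((x - c) / l)
        linarith
      have h5 : |x - (c + (x - c) / l)| ≤ 2 * δ := by
        have h6 : x - (c + (x - c) / l) = (x - c) / l * (l - 1) := by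
          field_simp
          ring
        rw [h6, abs_mul, abs_of_nonneg (by linarith : 0 ≤ l - 1)]
        calc |(x - c) / l| * (l - 1) ≤ 2 * (l - 1) := by
              gcongr
          _ ≤ 2 * δ := by linarith
      refine (abs_pow_sub_pow_le' k (by linarith) h2 h4).trans ?_
      calc (k : ℝ) * (A + 4) ^ k * |x - (c + (x - c) / l)| ≤ k * (A + 4) ^ k * (2 * δ) := by
            gcongr
        _ ≤ (k + 1) * (A + 4) ^ k * (2 * δ) := by
            gcongr
            linarith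
        _ = 2 * (k + 1) * (A + 4) ^ k * δ := by ring
        _ ≤ _ := hδ3
    have h2 : |∑ u : U, (((g₀ * (u : Gal(L/ℚ))) (b i) : L) : ℂ).re ^ k -
        ∑ u : U, (c + ((((g₀ * (u : Gal(L/ℚ))) (b i) : L) : ℂ).re - c) / l) ^ k| ≤
        ε / (r + 1) / 2 * Nat.card U := by
      rw [← sum_sub_distrib]
      refine (abs_sum_le_sum_abs _ _).trans ((sum_le_sum fun u _ => hpert _).trans ?_)
      rw [sum_const, card_univ, nsmul_eq_mul, Nat.card_eq_fintype_card, mul_comm]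
    have h3 := abs_sub_le (∑ u : U, (((g₀ * (u : Gal(L/ℚ))) (b i) : L) : ℂ).re ^ k)
      (∑ u : U, (c + ((((g₀ * (u : Gal(L/ℚ))) (b i) : L) : ℂ).re - c) / l) ^ k)
      (mom k c * Nat.card U)
    have h4 : |∑ u : U, (c + ((((g₀ * (u : Gal(L/ℚ))) (b i) : L) : ℂ).re - c) / l) ^ k -
        mom k c * Nat.card U| ≤ ε / (r + 1) / 2 * Nat.card U := by
      exact h1
    linarith
  have hreal : ∀ g : Gal(L/ℚ), ∀ i, ((((g (b i) : L) : ℂ).re : ℝ) : ℂ) = ((g (b i) : L) : ℂ) := by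
    intro g i
    obtain ⟨x, hx, _⟩ := hr _ (aeval_gal P g (hb' i))
    rw [← hx]
    simp
  set Ψ : (ZMod M)ˣ → ℂ := fun u => MvPolynomial.aeval
          (fun j => aeval (ζ ^ (u : ZMod M).val) (f j)) (psumQ r k) with hΨ
  have hΨg : ∀ g : Gal(L/ℚ), Ψ (χ g) = ∑ i, (((((g (b i) : L) : ℂ).re ^ k : ℝ)) : ℂ) := by
    intro g
    rw [hΨ]
    simp only
    have h1 : (fun j => aeval (ζ ^ (χ g : ZMod M).val) (f j)) =
        es (fun i => ((g (b i) : L) : ℂ)) := by
      funext j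
      rw [← hgζ]
      exact gal_es L b f hfL g j
    rw [h1, ← psumQ_spec]
    refine sum_congr rfl fun i _ => ?_
    rw [Complex.ofReal_pow, hreal]
  have hsum : ‖∑ u : U, Ψ (χ (g₀ * u)) - (Nat.card U : ℂ) * ((r * mom k c : ℝ) : ℂ)‖ ≤
      ε * Nat.card U := by
    have h1 : ∑ u : U, Ψ (χ (g₀ * u)) - (Nat.card U : ℂ) * ((r * mom k c : ℝ) : ℂ) =
        ((∑ i : Fin r, (∑ u : U, (((g₀ * (u : Gal(L/ℚ))) (b i) : L) : ℂ).re ^ k -
          mom k c * Nat.card U) : ℝ) : ℂ) := by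
      rw [sum_congr rfl fun u _ => hΨg _, sum_comm]
      push_cast
      rw [sum_sub_distrib, sum_const, card_univ, Fintype.card_fin, nsmul_eq_mul]
      ring
    rw [h1, Complex.norm_real]
    refine (norm_sum_le _ _).trans ((sum_le_sum fun i _ => hmom i).trans ?_)
    rw [sum_const, card_univ, Fintype.card_fin, nsmul_eq_mul]
    have h2 : (r : ℝ) * (ε / (r + 1) * Nat.card U) = (r / (r + 1)) * (ε * Nat.card U) := by
      field_simp
    rw [h2]
    have h3 : (r : ℝ) / (r + 1) ≤ 1 := by rw [div_le_one (by positivity)]; linarith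
    calc (r : ℝ) / (r + 1) * (ε * Nat.card U) ≤ 1 * (ε * Nat.card U) := by gcongr
      _ = _ := one_mul _
  obtain ⟨κ, hκ, hκs⟩ := sum_coset χ hχsurj T g₀
  have h1 := hκs Ψ
  have h2 := hκs (fun _ => 1)
  simp only [sum_const, nsmul_eq_mul, mul_one, card_univ] at h2
  have hA : univ.filter (fun h => T h = T (χ g₀)) = unitsOver hQM a := by
    ext u
    rw [mem_filter, mem_unitsOver, ← hh₀]
    simp [hT]
  rw [hA] at h1 h2
  rw [← Nat.card_eq_fintype_card] at h2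
  rw [h1, h2] at hsum
  have h3 : (Nat.card U : ℝ) = κ * (unitsOver hQM a).card := by exact_mod_cast h2
  rw [h3, mul_assoc, ← mul_sub, norm_mul, Complex.norm_natCast] at hsum
  have h4 : (κ : ℝ) * ‖∑ u ∈ unitsOver hQM a, Ψ u -
      (unitsOver hQM a).card * ((r * mom k c : ℝ) : ℂ)‖ ≤
      κ * (ε * (unitsOver hQM a).card) := by linarith
  exact le_of_mul_le_mul_left h4 (by exact_mod_cast hκ)

end Run7.h55
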