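import Pool.Agent.Run7.h55.Main

/-!
# The final statements
-/

set_option autoImplicit false

open Finset Polynomial Filter Topology
open Pool.Agent.Helper781.CycHouse

namespace Run7.h55

lemma choose_seq {α : Type*} (S : ℝ → Set α) (h : ∀ ε, 0 < ε → (S ε).Infinite) :
    ∃ C : ℕ → α, Function.Injective C ∧ ∃ e : ℕ → ℝ, (∀ n, 0 < e n) ∧
      Tendsto e atTop (𝓝 0) ∧ ∀ n, C n ∈ S (e n) := by
  obtain ⟨f, hf1, hf2⟩ := exists_seq_of_forall_finset_exists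
    (fun x : ℕ × α => x.2 ∈ S (1 / ((x.1 : ℝ) + 1))) (fun x y => x.1 < y.1 ∧ x.2 ≠ y.2) (by
      classical
      intro s _
      obtain ⟨n, hn⟩ : ∃ n, ∀ x ∈ s, x.1 < n := by
        refine ⟨s.sup (fun x => x.1) + 1, fun x hx => ?_⟩
        exact Nat.lt_succ_of_le (Finset.le_sup (f := fun x : ℕ × α => x.1) hx)
      obtain ⟨y, hy, hys⟩ := (h (1 / ((n : ℝ) + 1)) (by positivity)).exists_notMem_finset
        (s.image fun x => x.2)
      refine ⟨(n, y), hy, fun x hx => ⟨hn x hx, ?_⟩⟩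
      rintro rfl
      exact hys (mem_image_of_mem _ hx))
  refine ⟨fun n => (f n).2, ?_, fun n => 1 / (((f n).1 : ℝ) + 1), fun n => by positivity, ?_,
    fun n => hf1 n⟩
  · intro m n hmn
    rcases lt_trichotomy m n with h1 | h1 | h1
    · exact absurd hmn (hf2 m n h1).2
    · exact h1
    · exact absurd hmn.symm (hf2 n m h1).2
  · have hmono : StrictMono fun n => (f n).1 := fun m n hmn => (hf2 m n hmn).1
    exact tendsto_one_div_add_atTop_nhds_zero_nat.comp hmono.tendsto_atTop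

/-- Gap theorem. -/
theorem gap (b : ℕ) : ∃ ε : ℝ, 0 < ε ∧ {C : Set ℝ | IsConjSet C ∧ AbDeg b C ∧
    (∃ a ∈ Set.Icc (0 : ℝ) 1, C ⊆ Set.Icc a (a + 4 + ε)) ∧
    ¬ ∃ n : ℤ, C ⊆ Set.Icc ((n : ℝ) - 2) (n + 2)}.Finite := by
  by_contra hcon
  push Not at hcon
  obtain ⟨C, hinj, e, he0, he, hC⟩ := choose_seq (fun ε => {C : Set ℝ | IsConjSet C ∧ AbDeg b C ∧
    (∃ a ∈ Set.Icc (0 : ℝ) 1, C ⊆ Set.Icc a (a + 4 + ε)) ∧
    ∀ n : ℤ, ¬ C ⊆ Set.Icc ((n : ℝ) - 2) (n + 2)}) (fun ε hε => hcon ε hε)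
  choose h1 h2 h3 h4 using hC
  choose a ha hCa using h3
  obtain ⟨a₀, _, φ, hφ, hlim⟩ := isCompact_Icc.tendsto_subseq ha
  have heφ : Tendsto (fun n => e (φ n)) atTop (𝓝 0) := he.comp hφ.tendsto_atTop
  obtain ⟨⟨m, hm⟩, n, hn⟩ := seq_thm b (fun n => C (φ n)) (hinj.comp hφ.injective)
    (fun n => h1 _) (fun n => a (φ n) + 2 + e (φ n) / 2) (a₀ + 2) (by
      have := (hlim.add_const 2).add (heφ.div_const 2)
      simpa using this)
    (fun n => 1 + e (φ n) / 4) (fun n => by have := he0 (φ n); linarith) (by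
      have := (heφ.div_const 4).const_add 1
      simpa using this)
    (fun n x hx => by
      have := hCa (φ n) hx
      rw [Set.mem_Icc] at this
      rw [abs_le]
      constructor <;> linarith [this.1, this.2]) (fun n => h2 _)
  apply h4 (φ n) m
  intro x hx
  have := hn x hx
  rw [hm, abs_le] at this
  exact ⟨by linarith [this.1], by linarith [this.2]⟩

/-- The local form of the gap theorem. -/
theorem local_gap (b : ℕ) (a : ℝ) : ∃ ε : ℝ, 0 < ε ∧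
    {C : Set ℝ | IsConjSet C ∧ AbDeg b C ∧ C ⊆ Set.Icc (a - ε) (a + 4 + ε) ∧
      ¬ ((∃ n : ℤ, a = n) ∧ C ⊆ Set.Icc a (a + 4))}.Finite := by
  by_contra hcon
  push Not at hcon
  obtain ⟨C, hinj, e, he0, he, hC⟩ := choose_seq (fun ε => {C : Set ℝ | IsConjSet C ∧ AbDeg b C ∧
    C ⊆ Set.Icc (a - ε) (a + 4 + ε) ∧ ((∃ n : ℤ, a = n) → ¬ C ⊆ Set.Icc a (a + 4))})
    (fun ε hε => hcon ε hε)
  choose h1 h2 h3 h4 using hC
  obtain ⟨⟨m, hm⟩, n, hn⟩ := seq_thm b C hinj h1 (fun _ => a + 2) (a + 2) tendsto_const_nhds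
    (fun n => 1 + e n / 2) (fun n => by have := he0 n; linarith) (by
      have := (he.div_const 2).const_add 1
      simpa using this)
    (fun n x hx => by
      have := h3 n hx
      rw [Set.mem_Icc] at this
      rw [abs_le]
      constructor <;> linarith [this.1, this.2]) (fun n => h2 _)
  refine h4 n ⟨m - 2, by push_cast; linarith⟩ fun x hx => ?_
  have := hn x hx
  rw [abs_le] at this
  exact ⟨by linarith [this.1], by linarith [this.2]⟩

/-- Non-integral end points. -/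
theorem nonint (b : ℕ) (a : ℝ) (ha : ∀ n : ℤ, a ≠ n) : ∃ ε : ℝ, 0 < ε ∧
    {C : Set ℝ | IsConjSet C ∧ AbDeg b C ∧ C ⊆ Set.Icc (a - ε) (a + 4 + ε)}.Finite := by
  by_contra hcon
  push Not at hcon
  obtain ⟨C, hinj, e, he0, he, hC⟩ := choose_seq (fun ε => {C : Set ℝ | IsConjSet C ∧ AbDeg b C ∧
    C ⊆ Set.Icc (a - ε) (a + 4 + ε)}) (fun ε hε => hcon ε hε)
  choose h1 h2 h3 using hC
  obtain ⟨⟨m, hm⟩, -⟩ := seq_thm b C hinj h1 (fun _ => a + 2) (a + 2) tendsto_const_nhds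
    (fun n => 1 + e n / 2) (fun n => by have := he0 n; linarith) (by
      have := (he.div_const 2).const_add 1
      simpa using this)
    (fun n x hx => by
      have := h3 n hx
      rw [Set.mem_Icc] at this
      rw [abs_le]
      constructor <;> linarith [this.1, this.2]) (fun n => h2 _)
  apply ha (m - 2)
  push_cast
  linarith

lemma cos_conj {m : ℕ} (hm : 0 < m) (n : ℤ) : ∃ C : Set ℝ, IsConjSet C ∧ AbDeg 1 C ∧
    C ⊆ Set.Icc (n : ℝ) (n + 4) ∧ (n + 2 + 2 * Real.cos (2 * Real.pi / m) : ℝ) ∈ C := by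
  have hθ := Complex.isPrimitiveRoot_exp m hm.ne'
  set θ := Complex.exp (2 * Real.pi * Complex.I / m) with hθdef
  have hθi : IsIntegral ℤ θ := hθ.isIntegral hm
  have hθ0 : θ ≠ 0 := ne_zero_of_pow hm hθ.pow_eq_one
  have hinvi : IsIntegral ℤ θ⁻¹ := (hθ.inv).isIntegral hm
  set y : ℝ := n + 2 + 2 * Real.cos (2 * Real.pi / m) with hy
  have hreal : ∀ w : ℂ, w ^ m = 1 → w + w⁻¹ = ((2 * w.re : ℝ) : ℂ) := by
    intro w hw
    rw [← conj_root hm hw, Complex.add_conj]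
  have hyθ : (y : ℂ) = ((n + 2 : ℤ) : ℂ) + (θ + θ⁻¹) := by
    rw [hreal θ hθ.pow_eq_one]
    have : θ.re = Real.cos (2 * Real.pi / m) := by
      have h1 : (2 * Real.pi * Complex.I / m : ℂ) = ((2 * Real.pi / m : ℝ) : ℂ) * Complex.I := by
        push_cast
        ring
      rw [hθdef, h1, Complex.exp_ofReal_mul_I_re]
    rw [this, hy]
    push_cast
    ring
  have hyi : IsIntegral ℤ (y : ℂ) := by
    rw [hyθ]
    exact (isIntegral_algebraMap (R := ℤ) (x := n + 2)).add (hθi.add hinvi)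
  set P := minpoly ℤ (y : ℂ) with hP
  have hPm : P.Monic := minpoly.monic hyi
  have hPi : Irreducible P := minpoly.irreducible hyi
  have hPy : aeval (y : ℂ) P = 0 := minpoly.aeval ℤ _
  have hroots : ∀ z : ℂ, aeval z P = 0 → ∃ x : ℝ, (x : ℂ) = z ∧ x ∈ Set.Icc (n : ℝ) (n + 4) := by
    intro z hz
    obtain ⟨L, hL1, hL2, hL3, hL4⟩ := exists_field hPm hm
    obtain ⟨yL, hyL⟩ : ∃ w : L, (w : ℂ) = y := ⟨⟨_, hL3 _ hPy⟩, rfl⟩
    obtain ⟨zL, hzL⟩ : ∃ w : L, (w : ℂ) = z := ⟨⟨_, hL3 _ hz⟩, rfl⟩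
    obtain ⟨θL, hθL⟩ : ∃ w : L, (w : ℂ) = θ := ⟨⟨_, hL4 _ hθ.pow_eq_one⟩, rfl⟩
    obtain ⟨g, hg⟩ := exists_gal_conj L hPm hPi (α := yL) (β := zL) (by rw [hyL]; exact hPy)
      (by rw [hzL]; exact hz)
    obtain ⟨k, hk⟩ : ∃ k : ℤ, k = n + 2 := ⟨_, rfl⟩
    have h1 : yL = (k : L) + (θL + θL⁻¹) := by
      apply Subtype.ext
      push_cast
      rw [hyL, hθL, hyθ, ← hk]
    have h2 : θL ^ m = 1 := by
      apply Subtype.ext
      push_cast
      rw [hθL, hθ.pow_eq_one]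
    have h3 : ((g θL : L) : ℂ) ^ m = 1 := by
      have : (g θL) ^ m = 1 := by rw [← map_pow, h2, map_one]
      exact_mod_cast congrArg (fun w : L => (w : ℂ)) this
    have h4 : z = ((n + 2 + 2 * ((g θL : L) : ℂ).re : ℝ) : ℂ) := by
      rw [← hzL, ← hg, h1, map_add, map_add, map_inv₀, map_intCast]
      push_cast
      have := hreal _ h3
      push_cast at this
      rw [← this, hk]
      push_cast
      ring
    refine ⟨_, h4.symm, ?_⟩
    have h5 : ‖((g θL : L) : ℂ)‖ = 1 := Complex.norm_eq_one_of_pow_eq_one h3 hm.ne'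
    have h6 := Complex.abs_re_le_norm ((g θL : L) : ℂ)
    rw [h5, abs_le] at h6
    exact ⟨by linarith [h6.1], by linarith [h6.2]⟩
  refine ⟨{x : ℝ | aeval x P = 0}, ⟨P, hPm, hPi, fun z hz => ?_, rfl⟩, ⟨y, ?_, m, hm, ?_⟩, ?_, ?_⟩
  · obtain ⟨x, hx, _⟩ := hroots z hz
    exact ⟨x, hx⟩
  · rw [Set.mem_ofPred_eq]
    rw [aeval_ofReal] at hPy
    exact_mod_cast hPy
  · have h1 : (y : ℂ) ∈ IntermediateField.adjoin ℚ {θ} := by
      rw [hyθ]
      have h2 := IntermediateField.mem_adjoin_simple_self ℚ θ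
      exact add_mem (intCast_mem _ _) (add_mem h2 (inv_mem h2))
    have h2 : (minpoly (IntermediateField.adjoin ℚ {θ}) (y : ℂ)).natDegree = 1 := by
      rw [minpoly.natDegree_eq_one_iff]
      exact ⟨⟨_, h1⟩, rfl⟩
    rw [h2]
  · intro x hx
    rw [Set.mem_ofPred_eq] at hx
    obtain ⟨x', hx', hx2⟩ := hroots x (by rw [aeval_ofReal, hx, Complex.ofReal_zero])
    have : x' = x := by exact_mod_cast hx'
    rwa [this] at hx2
  · rw [Set.mem_ofPred_eq]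
    rw [aeval_ofReal] at hPy
    exact_mod_cast hPy

lemma AbDeg.mono {b b' : ℕ} (h : b ≤ b') {C : Set ℝ} (hC : AbDeg b C) : AbDeg b' C := by
  obtain ⟨x, hx, N, hN, h1⟩ := hC
  exact ⟨x, hx, N, hN, h1.trans h⟩

lemma IsConjSet.finite {C : Set ℝ} (hC : IsConjSet C) : C.Finite := by
  obtain ⟨P, hP, _, _, rfl⟩ := hC
  refine ((P.map (Int.castRingHom ℝ)).roots.toFinset.finite_toSet).subset ?_
  intro x hx
  rw [Set.mem_ofPred_eq, aeval_def, eval₂_eq_eval_map] at hx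
  rw [mem_coe, Multiset.mem_toFinset, mem_roots (hP.map _).ne_zero, IsRoot.def]
  exact hx

theorem integer_infinite (b : ℕ) (hb : 1 ≤ b) (n : ℤ) :
    {C : Set ℝ | IsConjSet C ∧ AbDeg b C ∧ C ⊆ Set.Icc (n : ℝ) (n + 4)}.Infinite := by
  intro hfin
  have h1 : (⋃₀ {C : Set ℝ | IsConjSet C ∧ AbDeg b C ∧ C ⊆ Set.Icc (n : ℝ) (n + 4)}).Finite :=
    hfin.sUnion fun C hC => hC.1.finite
  have h2 : ∀ m : ℕ, (n + 2 + 2 * Real.cos (2 * Real.pi / ((m + 2 : ℕ) : ℝ)) : ℝ) ∈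
      ⋃₀ {C : Set ℝ | IsConjSet C ∧ AbDeg b C ∧ C ⊆ Set.Icc (n : ℝ) (n + 4)} := by
    intro m
    obtain ⟨C, hC1, hC2, hC3, hC4⟩ := cos_conj (m := m + 2) (by omega) n
    exact ⟨C, ⟨hC1, hC2.mono hb, hC3⟩, hC4⟩
  refine Set.infinite_of_injective_forall_mem (f := fun m : ℕ =>
    (n + 2 + 2 * Real.cos (2 * Real.pi / ((m + 2 : ℕ) : ℝ)) : ℝ)) ?_ h2 h1
  intro m m' hmm
  have h3 : Real.cos (2 * Real.pi / ((m + 2 : ℕ) : ℝ)) =
      Real.cos (2 * Real.pi / ((m' + 2 : ℕ) : ℝ)) := by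
    simp only at hmm
    linarith
  have hmem : ∀ k : ℕ, 2 * Real.pi / ((k + 2 : ℕ) : ℝ) ∈ Set.Icc 0 Real.pi := by
    intro k
    have hk : (0 : ℝ) < ((k + 2 : ℕ) : ℝ) := by positivity
    refine ⟨by positivity, ?_⟩
    rw [div_le_iff₀ hk]
    push_cast
    nlinarith [Real.pi_pos, (Nat.cast_nonneg k : (0 : ℝ) ≤ k)]
  have h4 := Real.injOn_cos (hmem m) (hmem m') h3
  have hk : (0 : ℝ) < ((m + 2 : ℕ) : ℝ) := by positivity
  have hk' : (0 : ℝ) < ((m' + 2 : ℕ) : ℝ) := by positivity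
  rw [div_eq_div_iff hk.ne' hk'.ne'] at h4
  have h5 := mul_left_cancel₀ (by positivity) h4
  have h6 : m' + 2 = m + 2 := by exact_mod_cast h5
  omega

end Run7.h55
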