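import Pool.Agent.Run7.h55.Trace3

/-!
# Frobenius congruences modulo two
-/

set_option autoImplicit false

open Finset Polynomial Filter Topology

namespace Run7.h55

lemma mean_ge3 (L : IntermediateField ℚ ℂ) [FiniteDimensional ℚ L] [IsGalois ℚ L]
    [Fintype Gal(L/ℚ)] {γ : L} (hγ : γ ≠ 0) (hγ1 : γ ^ 2 - 1 ≠ 0)
    (hγ2 : γ ^ 4 - 3 * γ ^ 2 + 1 ≠ 0) (hi : IsIntegral ℤ γ)
    (hreal : ∀ g : Gal(L/ℚ), ((g γ : L) : ℂ) = ((((g γ : L) : ℂ).re : ℝ) : ℂ)) :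
    1.585 * (Fintype.card Gal(L/ℚ) : ℝ) ≤ ∑ g : Gal(L/ℚ), (((g γ : L) : ℂ).re) ^ 2 := by
  have h1 := sum_log_nonneg L hγ hi
  have h2 := sum_log_nonneg L hγ1 ((hi.pow 2).sub isIntegral_one)
  have hi3 : IsIntegral ℤ (γ ^ 4 - 3 * γ ^ 2 + 1) := by
    have h3 : IsIntegral ℤ (3 : L) := by
      have := isIntegral_algebraMap (R := ℤ) (A := L) (x := 3)
      simpa using this
    exact ((hi.pow 4).sub (h3.mul (hi.pow 2))).add isIntegral_one
  have h2' := sum_log_nonneg L hγ2 hi3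
  have h3 : ∀ g : Gal(L/ℚ), 1.585 + 7 / 6 * Real.log ‖((g γ : L) : ℂ)‖ +
      11 / 12 * Real.log ‖((g (γ ^ 2 - 1) : L) : ℂ)‖ +
      1 / 3 * Real.log ‖((g (γ ^ 4 - 3 * γ ^ 2 + 1) : L) : ℂ)‖ ≤ (((g γ : L) : ℂ).re) ^ 2 := by
    intro g
    have h4 : g γ ≠ 0 := by simpa using hγ
    have h5 : g (γ ^ 2 - 1) ≠ 0 := by
      rw [Ne, map_eq_zero]
      exact hγ1
    have h5' : g (γ ^ 4 - 3 * γ ^ 2 + 1) ≠ 0 := by
      rw [Ne, map_eq_zero]
      exact hγ2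
    set r := ((g γ : L) : ℂ).re with hr
    have h3c : ((3 : L) : ℂ) = 3 := map_ofNat (algebraMap L ℂ) 3
    have h6 : ((g (γ ^ 2 - 1) : L) : ℂ) = ((r ^ 2 - 1 : ℝ) : ℂ) := by
      rw [map_sub, map_pow, map_one]
      push_cast
      rw [hreal g]
    have h6' : ((g (γ ^ 4 - 3 * γ ^ 2 + 1) : L) : ℂ) =
        (((r ^ 2) ^ 2 - 3 * r ^ 2 + 1 : ℝ) : ℂ) := by
      rw [map_add, map_sub, map_mul, map_pow, map_pow, map_one, map_ofNat]
      push_cast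
      rw [hreal g, h3c, ← hr]
      ring
    have hr0 : r ≠ 0 := by
      intro h0
      apply h4
      apply Subtype.ext
      rw [hreal g, ← hr, h0]
      simp
    have hr1 : r ^ 2 ≠ 1 := by
      intro h0
      apply h5
      apply Subtype.ext
      rw [h6, h0]
      simp
    have hr2 : (r ^ 2) ^ 2 - 3 * r ^ 2 + 1 ≠ 0 := by
      intro h0
      apply h5'
      apply Subtype.ext
      rw [h6', h0]
      simp
    have h7 := aux_bound (y := r ^ 2) (by positivity) hr1 hr2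
    have h8 : ‖((g γ : L) : ℂ)‖ = |r| := by
      rw [hreal g, Complex.norm_real, Real.norm_eq_abs]
    have h9 : ‖((g (γ ^ 2 - 1) : L) : ℂ)‖ = |r ^ 2 - 1| := by
      rw [h6, Complex.norm_real, Real.norm_eq_abs]
    have h10 : ‖((g (γ ^ 4 - 3 * γ ^ 2 + 1) : L) : ℂ)‖ = |(r ^ 2) ^ 2 - 3 * r ^ 2 + 1| := by
      rw [h6', Complex.norm_real, Real.norm_eq_abs]
    rw [h8, h9, h10, Real.log_abs]
    rw [Real.log_pow] at h7
    push_cast at h7
    linarith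
  have h4 := sum_le_sum fun g (_ : g ∈ (univ : Finset Gal(L/ℚ))) => h3 g
  rw [sum_add_distrib, sum_add_distrib, sum_add_distrib, ← mul_sum, ← mul_sum, ← mul_sum,
    sum_const, card_univ, nsmul_eq_mul] at h4
  nlinarith

lemma golden_sum (L : IntermediateField ℚ ℂ) [FiniteDimensional ℚ L] [IsGalois ℚ L]
    [Fintype Gal(L/ℚ)] {γ : L} {s : ℤ} (hs : s ^ 2 = 1) (h : γ ^ 2 = 1 + s * γ) :
    2 * ∑ g : Gal(L/ℚ), ((g γ : L) : ℂ).re = s * (Fintype.card Gal(L/ℚ) : ℝ) := by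
  set η : L := 2 * γ - s with hη
  have hs' : (s : L) ^ 2 = 1 := by exact_mod_cast congrArg (Int.cast : ℤ → L) hs
  have hη2 : η ^ 2 = 5 := by
    rw [hη]
    linear_combination 4 * h + hs'
  obtain ⟨σ, hσ⟩ : ∃ σ : Gal(L/ℚ), σ η = -η := by
    by_contra hcon
    push Not at hcon
    have h1 : ∀ g : Gal(L/ℚ), g η = η := by
      intro g
      have h2 : (g η) ^ 2 = η ^ 2 := by
        rw [← map_pow, hη2, map_ofNat]
      rcases sq_eq_sq_iff_eq_or_eq_neg.mp h2 with h3 | h3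
      · exact h3
      · exact absurd h3 (hcon g)
    have h2 := (IsGalois.mem_bot_iff_fixed (F := ℚ) (E := L) η).mpr h1
    rw [IntermediateField.mem_bot] at h2
    obtain ⟨q, hq⟩ := h2
    have h3 : q ^ 2 = 5 := by
      apply (algebraMap ℚ L).injective
      rw [map_pow, hq, hη2, map_ofNat]
    have h4 : ((q : ℝ)) ^ 2 = 5 := by exact_mod_cast congrArg (Rat.cast : ℚ → ℝ) h3
    have h5 : Irrational (Real.sqrt (5 : ℕ)) := Nat.Prime.irrational_sqrt (by norm_num)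
    apply h5
    refine ⟨|q|, ?_⟩
    rw [Rat.cast_abs, ← Real.sqrt_sq_eq_abs, h4]
    norm_num
  have h1 : ∑ g : Gal(L/ℚ), ((g η : L) : ℂ).re = -∑ g : Gal(L/ℚ), ((g η : L) : ℂ).re := by
    rw [← sum_neg_distrib]
    refine Fintype.sum_equiv (Equiv.mulRight σ⁻¹) _ _ fun g => ?_
    have h2 : (Equiv.mulRight σ⁻¹ g) η = -(g η) := by
      have h3 : σ⁻¹ η = -η := by
        have h4 : σ⁻¹ (σ η) = η := by
          rw [← AlgEquiv.mul_apply, inv_mul_cancel, AlgEquiv.one_apply]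
        rw [hσ, map_neg] at h4
        linear_combination -h4
      rw [Equiv.coe_mulRight, AlgEquiv.mul_apply, h3, map_neg]
    rw [h2]
    simp
  have h2 : ∀ g : Gal(L/ℚ), ((g η : L) : ℂ).re = 2 * ((g γ : L) : ℂ).re - s := by
    intro g
    have h2c : ((2 : L) : ℂ) = 2 := map_ofNat (algebraMap L ℂ) 2
    rw [hη, map_sub, map_mul, map_ofNat, map_intCast]
    push_cast
    rw [h2c]
    simp
  simp only [h2, sum_sub_distrib, ← mul_sum, sum_const, card_univ, nsmul_eq_mul] at h1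
  linarith

lemma not_exc (L : IntermediateField ℚ ℂ) [FiniteDimensional ℚ L] [IsGalois ℚ L]
    [Fintype Gal(L/ℚ)] {γ : L}
    (hs : |∑ g : Gal(L/ℚ), ((g γ : L) : ℂ).re| ≤ 0.4 * (Fintype.card Gal(L/ℚ) : ℝ)) :
    γ ^ 2 - 1 ≠ 0 ∧ γ ^ 4 - 3 * γ ^ 2 + 1 ≠ 0 := by
  have hN0 : (0 : ℝ) < (Fintype.card Gal(L/ℚ) : ℝ) := by exact_mod_cast Fintype.card_pos
  rw [abs_le] at hs
  constructor
  · intro h
    have h1 : (γ - 1) * (γ + 1) = 0 := by linear_combination h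
    rcases mul_eq_zero.mp h1 with h2 | h2
    · have h3 : γ = 1 := sub_eq_zero.mp h2
      have h4 : ∑ g : Gal(L/ℚ), ((g γ : L) : ℂ).re = (Fintype.card Gal(L/ℚ) : ℝ) := by
        rw [h3]
        simp
      rw [h4] at hs
      linarith
    · have h3 : γ = -1 := by linear_combination h2
      have h4 : ∑ g : Gal(L/ℚ), ((g γ : L) : ℂ).re = -(Fintype.card Gal(L/ℚ) : ℝ) := by
        rw [h3]
        simp
      rw [h4] at hs
      linarith
  · intro h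
    have h1 : (γ ^ 2 - (1 + ((1 : ℤ) : L) * γ)) * (γ ^ 2 - (1 + ((-1 : ℤ) : L) * γ)) = 0 := by
      push_cast
      linear_combination h
    rcases mul_eq_zero.mp h1 with h2 | h2
    · have h3 := golden_sum L (s := 1) (by norm_num) (sub_eq_zero.mp h2)
      push_cast at h3
      linarith
    · have h3 := golden_sum L (s := -1) (by norm_num) (sub_eq_zero.mp h2)
      push_cast at h3
      linarith

/-- The first four moments of the conjugates. -/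
lemma cheb4 {δ : ℝ} (hδ : 0 < δ) : ∃ l₀ : ℝ, 1 < l₀ ∧ ∃ D : ℕ,
    ∀ (P : ℤ[X]), P.Monic → Irreducible P → D ≤ P.natDegree → ∀ c l : ℝ, 1 ≤ l → l ≤ l₀ →
    RealIn P c l → ∀ (L : IntermediateField ℚ ℂ) [FiniteDimensional ℚ L] [IsGalois ℚ L]
      [Fintype Gal(L/ℚ)] (β : L), aeval (β : ℂ) P = 0 →
      |∑ g : Gal(L/ℚ), (((g β : L) : ℂ).re - c)| ≤ δ * (Fintype.card Gal(L/ℚ) : ℝ) ∧
      |∑ g : Gal(L/ℚ), ((((g β : L) : ℂ).re - c) ^ 2 - 2)| ≤
        δ * (Fintype.card Gal(L/ℚ) : ℝ) ∧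
      |∑ g : Gal(L/ℚ), ((((g β : L) : ℂ).re - c) ^ 3 - 3 * (((g β : L) : ℂ).re - c))| ≤
        δ * (Fintype.card Gal(L/ℚ) : ℝ) ∧
      |∑ g : Gal(L/ℚ), ((((g β : L) : ℂ).re - c) ^ 4 - 4 * (((g β : L) : ℂ).re - c) ^ 2 + 2)| ≤
        δ * (Fintype.card Gal(L/ℚ) : ℝ) := by
  set κ : ℝ := min δ 1 / 100 with hκ
  have hκ0 : 0 < κ := by
    rw [hκ]
    have : 0 < min δ 1 := lt_min hδ one_pos
    positivity
  have hκ1 : κ ≤ 1 / 100 := by
    rw [hκ]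
    have := min_le_right δ 1
    linarith
  have hκδ : 100 * κ ≤ δ := by
    rw [hκ]
    have := min_le_left δ 1
    linarith
  obtain ⟨l₁, hl₁, D, hD⟩ := cheb_small 4 hκ0
  refine ⟨min l₁ (1 + κ), lt_min hl₁ (by linarith), D,
    fun P hP hirr hdeg c l hl1 hl2 hr L _ _ _ β hβ => ?_⟩
  have hl3 : l ≤ 1 + κ := hl2.trans (min_le_right _ _)
  have hl0 : 0 < l := by linarith
  have h := hD P hP hirr hdeg c l hl1 (hl2.trans (min_le_left _ _)) hr L β hβ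
  have h1 := h 0 (by simp)
  have h2 := h 1 (by simp)
  have h3 := h 2 (by simp)
  have h4 := h 3 (by simp)
  simp only [c1, c2, c3, c4] at h1 h2 h3 h4
  set N : ℝ := (Fintype.card Gal(L/ℚ) : ℝ) with hN
  have hN0 : 0 ≤ N := by positivity
  have ht : ∀ g : Gal(L/ℚ), ∃ t : ℝ, t = 2 * Real.cos (ang ((((g β : L) : ℂ).re - c) / l)) ∧
      ((g β : L) : ℂ).re - c = l * t := by
    intro g
    refine ⟨_, rfl, ?_⟩
    rw [two_cos_ang]
    · field_simp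
    · exact (conj_of_root L hP hl1 hr hβ).le g
  choose t ht1 ht2 using ht
  simp only [← ht1] at h1 h2 h3 h4
  simp only [ht2]
  have hconst : ∀ a : ℝ, ∑ _g : Gal(L/ℚ), a = a * N := by
    intro a
    rw [sum_const, card_univ, nsmul_eq_mul, hN]
    ring
  have e1 : ∑ g : Gal(L/ℚ), l * t g = l * ∑ g : Gal(L/ℚ), t g := by rw [mul_sum]
  have e2 : ∑ g : Gal(L/ℚ), ((l * t g) ^ 2 - 2) =
      l ^ 2 * ∑ g : Gal(L/ℚ), (t g ^ 2 - 2) + 2 * (l ^ 2 - 1) * N := by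
    rw [mul_sum, ← hconst, ← sum_add_distrib]
    exact sum_congr rfl fun g _ => by ring
  have e3 : ∑ g : Gal(L/ℚ), ((l * t g) ^ 3 - 3 * (l * t g)) =
      l ^ 3 * ∑ g : Gal(L/ℚ), (t g ^ 3 - 3 * t g) +
        3 * (l ^ 3 - l) * ∑ g : Gal(L/ℚ), t g := by
    rw [mul_sum, mul_sum, ← sum_add_distrib]
    exact sum_congr rfl fun g _ => by ring
  have e4 : ∑ g : Gal(L/ℚ), ((l * t g) ^ 4 - 4 * (l * t g) ^ 2 + 2) =
      l ^ 4 * ∑ g : Gal(L/ℚ), (t g ^ 4 - 4 * t g ^ 2 + 2) +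
        4 * (l ^ 4 - l ^ 2) * ∑ g : Gal(L/ℚ), (t g ^ 2 - 2) +
        (8 * (l ^ 4 - l ^ 2) - 2 * (l ^ 4 - 1)) * N := by
    rw [mul_sum, mul_sum, ← hconst, ← sum_add_distrib, ← sum_add_distrib]
    exact sum_congr rfl fun g _ => by ring
  rw [e1, e2, e3, e4]
  have a2 : 0 ≤ l ^ 2 - 1 ∧ l ^ 2 - 1 ≤ 3 * κ := by constructor <;> nlinarith
  have a3 : 0 ≤ l ^ 3 - l ∧ l ^ 3 - l ≤ 6 * κ := by
    have : l ^ 3 - l = l * (l ^ 2 - 1) := by ring
    rw [this]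
    constructor
    · exact mul_nonneg hl0.le a2.1
    · calc l * (l ^ 2 - 1) ≤ 2 * (3 * κ) :=
          mul_le_mul (by linarith) a2.2 a2.1 (by norm_num)
        _ = 6 * κ := by ring
  have a4 : 0 ≤ l ^ 4 - l ^ 2 ∧ l ^ 4 - l ^ 2 ≤ 6 * κ := by
    have : l ^ 4 - l ^ 2 = l ^ 2 * (l ^ 2 - 1) := by ring
    rw [this]
    constructor
    · exact mul_nonneg (sq_nonneg l) a2.1
    · calc l ^ 2 * (l ^ 2 - 1) ≤ 2 * (3 * κ) :=
          mul_le_mul (by linarith) a2.2 a2.1 (by norm_num)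
        _ = 6 * κ := by ring
  have b2 : l ^ 2 ≤ 2 := by linarith
  have b3 : l ^ 3 ≤ 2 := by linarith
  have b4 : l ^ 4 ≤ 2 := by linarith
  have hmul : ∀ a s A : ℝ, 0 ≤ a → a ≤ A → |s| ≤ κ * N → |a * s| ≤ A * (κ * N) := by
    intro a s A ha haA hs
    rw [abs_mul, abs_of_nonneg ha]
    exact mul_le_mul haA hs (abs_nonneg _) (ha.trans haA)
  have hκN : 0 ≤ κ * N := by positivity
  have hfin : 100 * (κ * N) ≤ δ * N := by
    have := mul_le_mul_of_nonneg_right hκδ hN0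
    linarith
  refine ⟨?_, ?_, ?_, ?_⟩
  · have := hmul l _ 2 hl0.le (by linarith) h1
    linarith
  · have f1 := hmul (l ^ 2) _ 2 (by positivity) b2 h2
    have f2 : |2 * (l ^ 2 - 1) * N| ≤ 6 * (κ * N) := by
      rw [abs_of_nonneg (by have := a2.1; positivity)]
      nlinarith [a2.2]
    refine (abs_add_le _ _).trans ?_
    linarith
  · have f1 := hmul (l ^ 3) _ 2 (by positivity) b3 h3
    have f2 := hmul (3 * (l ^ 3 - l)) _ 1 (by linarith [a3.1]) (by linarith [a3.2]) h1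
    refine (abs_add_le _ _).trans ?_
    linarith
  · have f1 := hmul (l ^ 4) _ 2 (by positivity) b4 h4
    have f2 := hmul (4 * (l ^ 4 - l ^ 2)) _ 1 (by linarith [a4.1]) (by linarith [a4.2]) h2
    have f3 : |(8 * (l ^ 4 - l ^ 2) - 2 * (l ^ 4 - 1)) * N| ≤ 66 * (κ * N) := by
      rw [abs_mul, abs_of_nonneg hN0, ← mul_assoc]
      refine mul_le_mul_of_nonneg_right ?_ hN0
      rw [abs_le]
      constructor <;> linarith [a4.1, a4.2, a2.1, a2.2]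
    refine (abs_add_three _ _ _).trans ?_
    linarith

/-- If two conjugates `x`, `y` satisfy `y ≡ x ^ 2` modulo two, then all conjugates lie within two
of the nearest integer to the centre. -/
theorem frob_main : ∃ l₀ : ℝ, 1 < l₀ ∧ ∃ D : ℕ,
    ∀ (P : ℤ[X]), P.Monic → Irreducible P → D ≤ P.natDegree → ∀ c l : ℝ, 1 ≤ l → l ≤ l₀ →
    RealIn P c l → ∀ n : ℤ, |c - n| ≤ 1 / 2 → ∀ x y : ℂ,
    aeval x P = 0 → aeval y P = 0 → IsIntegral ℤ ((y - x ^ 2) / 2) → RealIn P n 1 := by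
  obtain ⟨l₀, hl₀, D, hD⟩ := cheb4 (δ := 1 / 2000) (by norm_num)
  refine ⟨l₀, hl₀, D, fun P hP hirr hdeg c l hl1 hl2 hr n hn x y hx hy hi => ?_⟩
  obtain ⟨L, hL1, hL2, hL3, hL4⟩ := exists_field hP (M := 1) one_pos
  have : Fintype Gal(L/ℚ) := Fintype.ofFinite _
  obtain ⟨xL, rfl⟩ : ∃ w : L, (w : ℂ) = x := ⟨⟨_, hL3 _ hx⟩, rfl⟩
  obtain ⟨yL, rfl⟩ : ∃ w : L, (w : ℂ) = y := ⟨⟨_, hL3 _ hy⟩, rfl⟩
  obtain ⟨hx1, hx2, hx3, hx4⟩ := hD P hP hirr hdeg c l hl1 hl2 hr L xL hx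
  obtain ⟨hy1, hy2, hy3, hy4⟩ := hD P hP hirr hdeg c l hl1 hl2 hr L yL hy
  set N : ℝ := (Fintype.card Gal(L/ℚ) : ℝ) with hN
  have hN0 : 0 < N := by
    rw [hN]
    exact_mod_cast Fintype.card_pos
  have hrx : ∀ g : Gal(L/ℚ), ((((g xL : L) : ℂ).re : ℝ) : ℂ) = ((g xL : L) : ℂ) := by
    intro g
    obtain ⟨w, hw, _⟩ := hr _ (aeval_gal P g hx)
    rw [← hw]
    simp
  have hry : ∀ g : Gal(L/ℚ), ((((g yL : L) : ℂ).re : ℝ) : ℂ) = ((g yL : L) : ℂ) := by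
    intro g
    obtain ⟨w, hw, _⟩ := hr _ (aeval_gal P g hy)
    rw [← hw]
    simp
  have hval : ∀ w : L, IsIntegral ℤ ((w : L) : ℂ) → IsIntegral ℤ w := fun w hw =>
    (isIntegral_algHom_iff ((IsScalarTower.toAlgHom ℚ L ℂ).restrictScalars ℤ)
      (algebraMap L ℂ).injective).mp hw
  have hxi : IsIntegral ℤ xL := hval _ ⟨P, hP, hx⟩
  have hyi : IsIntegral ℤ yL := hval _ ⟨P, hP, hy⟩
  have hdi : IsIntegral ℤ ((yL - xL ^ 2) / 2) := by
    apply hval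
    have h2c : ((2 : L) : ℂ) = 2 := map_ofNat (algebraMap L ℂ) 2
    push_cast
    rw [h2c]
    exact hi
  have hint : ∀ k : ℤ, IsIntegral ℤ ((k : ℤ) : L) := fun k => isIntegral_algebraMap (R := ℤ)
  set Γ₁ : L := ((xL - n) ^ 2 - 2 - (yL - n)) / 2 with hΓ₁
  set Γ₂ : L := ((xL - n) ^ 2 - 2 + (yL - n)) / 2 with hΓ₂
  obtain ⟨k, hk⟩ : ∃ k : ℤ, n * (n + 1) = 2 * k := by
    obtain ⟨k, hk⟩ := Int.even_mul_succ_self n
    exact ⟨k, by rw [hk]; ring⟩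
  have hkL : (n : L) * (n + 1) = 2 * k := by exact_mod_cast congrArg (Int.cast : ℤ → L) hk
  have hi1 : IsIntegral ℤ Γ₁ := by
    have h1 : Γ₁ = ((k - 1 : ℤ) : L) - n * xL - (yL - xL ^ 2) / 2 := by
      rw [hΓ₁]
      push_cast
      linear_combination hkL / 2
    rw [h1]
    exact ((hint _).sub ((hint _).mul hxi)).sub hdi
  have hi2 : IsIntegral ℤ Γ₂ := by
    have h1 : Γ₂ = Γ₁ + (yL - n) := by
      rw [hΓ₁, hΓ₂]
      ring
    rw [h1]
    exact hi1.add (hyi.sub (hint _))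
  have h2c : ((2 : L) : ℂ) = 2 := map_ofNat (algebraMap L ℂ) 2
  have hg1 : ∀ g : Gal(L/ℚ), ((g Γ₁ : L) : ℂ) =
      (((((g xL : L) : ℂ).re - n) ^ 2 - 2 - (((g yL : L) : ℂ).re - n)) / 2 : ℝ) := by
    intro g
    rw [hΓ₁, map_div₀, map_sub, map_sub, map_pow, map_sub, map_sub, map_intCast, map_ofNat]
    push_cast
    rw [hrx g, hry g, h2c]
  have hg2 : ∀ g : Gal(L/ℚ), ((g Γ₂ : L) : ℂ) =
      (((((g xL : L) : ℂ).re - n) ^ 2 - 2 + (((g yL : L) : ℂ).re - n)) / 2 : ℝ) := by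
    intro g
    rw [hΓ₂, map_div₀, map_add, map_sub, map_pow, map_sub, map_sub, map_intCast, map_ofNat]
    push_cast
    rw [hrx g, hry g, h2c]
  set e : ℝ := c - n with he
  have hconst : ∀ a : ℝ, ∑ _g : Gal(L/ℚ), a = a * N := by
    intro a
    rw [sum_const, card_univ, nsmul_eq_mul, hN]
    ring
  rw [abs_le] at hx1 hx2 hx3 hx4 hy1 hy2 hn
  have he2 : 0 ≤ e ^ 2 := sq_nonneg e
  have he2' : e ^ 2 ≤ 1 / 4 := by nlinarith
  -- the first moments of the two integers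
  have m1 : ∑ g : Gal(L/ℚ), ((g Γ₁ : L) : ℂ).re = (e ^ 2 - e) / 2 * N +
      1 / 2 * ∑ g : Gal(L/ℚ), ((((g xL : L) : ℂ).re - c) ^ 2 - 2) +
      e * ∑ g : Gal(L/ℚ), (((g xL : L) : ℂ).re - c) -
      1 / 2 * ∑ g : Gal(L/ℚ), (((g yL : L) : ℂ).re - c) := by
    rw [mul_sum, mul_sum, mul_sum, ← hconst, ← sum_add_distrib, ← sum_add_distrib,
      ← sum_sub_distrib]
    refine sum_congr rfl fun g _ => ?_
    rw [hg1 g, Complex.ofReal_re, he]
    ring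
  have m2 : ∑ g : Gal(L/ℚ), ((g Γ₂ : L) : ℂ).re = (e ^ 2 + e) / 2 * N +
      1 / 2 * ∑ g : Gal(L/ℚ), ((((g xL : L) : ℂ).re - c) ^ 2 - 2) +
      e * ∑ g : Gal(L/ℚ), (((g xL : L) : ℂ).re - c) +
      1 / 2 * ∑ g : Gal(L/ℚ), (((g yL : L) : ℂ).re - c) := by
    rw [mul_sum, mul_sum, mul_sum, ← hconst, ← sum_add_distrib, ← sum_add_distrib,
      ← sum_add_distrib]
    refine sum_congr rfl fun g _ => ?_
    rw [hg2 g, Complex.ofReal_re, he]
    ring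
  have q1 : ∑ g : Gal(L/ℚ), (((g Γ₁ : L) : ℂ).re ^ 2 + ((g Γ₂ : L) : ℂ).re ^ 2) =
      (4 + 9 * e ^ 2 + e ^ 4) / 2 * N +
      1 / 2 * ∑ g : Gal(L/ℚ), ((((g xL : L) : ℂ).re - c) ^ 4 -
        4 * (((g xL : L) : ℂ).re - c) ^ 2 + 2) +
      2 * e * ∑ g : Gal(L/ℚ), ((((g xL : L) : ℂ).re - c) ^ 3 -
        3 * (((g xL : L) : ℂ).re - c)) +
      3 * e ^ 2 * ∑ g : Gal(L/ℚ), ((((g xL : L) : ℂ).re - c) ^ 2 - 2) +
      (2 * e + 2 * e ^ 3) * ∑ g : Gal(L/ℚ), (((g xL : L) : ℂ).re - c) +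
      1 / 2 * ∑ g : Gal(L/ℚ), ((((g yL : L) : ℂ).re - c) ^ 2 - 2) +
      e * ∑ g : Gal(L/ℚ), (((g yL : L) : ℂ).re - c) := by
    rw [mul_sum, mul_sum, mul_sum, mul_sum, mul_sum, mul_sum, ← hconst, ← sum_add_distrib,
      ← sum_add_distrib, ← sum_add_distrib, ← sum_add_distrib, ← sum_add_distrib,
      ← sum_add_distrib]
    refine sum_congr rfl fun g _ => ?_
    rw [hg1 g, hg2 g, Complex.ofReal_re, Complex.ofReal_re, he]
    ring
  have hes : ∀ s : ℝ, -(1 / 2000 * N) ≤ s → s ≤ 1 / 2000 * N → ∀ a A : ℝ, |a| ≤ A →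
      |a * s| ≤ A * (1 / 2000 * N) := by
    intro s hs1 hs2 a A haA
    rw [abs_mul]
    exact mul_le_mul haA (abs_le.mpr ⟨hs1, hs2⟩) (abs_nonneg _) ((abs_nonneg a).trans haA)
  have hea : |e| ≤ 1 / 2 := abs_le.mpr hn
  have hhalf : |(1 / 2 : ℝ)| ≤ 1 / 2 := by rw [abs_of_pos (by norm_num)]
  have s1 := abs_le.mp (hes _ hx2.1 hx2.2 (1 / 2) (1 / 2) hhalf)
  have s2 := abs_le.mp (hes _ hx1.1 hx1.2 e (1 / 2) hea)
  have s3 := abs_le.mp (hes _ hy1.1 hy1.2 (1 / 2) (1 / 2) hhalf)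
  have v0 : ∀ e : ℝ, -(1 / 2) ≤ e → e ≤ 1 / 2 →
      -(1 / 8) ≤ (e ^ 2 - e) / 2 ∧ (e ^ 2 - e) / 2 ≤ 3 / 8 := by
    intro e h1 h2
    constructor
    · nlinarith [sq_nonneg (e - 1 / 2)]
    · nlinarith
  have n1 : |∑ g : Gal(L/ℚ), ((g Γ₁ : L) : ℂ).re| ≤ 0.4 * N := by
    have u1 := mul_le_mul_of_nonneg_right (v0 e hn.1 hn.2).1 hN0.le
    have u2 := mul_le_mul_of_nonneg_right (v0 e hn.1 hn.2).2 hN0.le
    rw [m1, abs_le]
    constructor <;> linarith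
  have n2 : |∑ g : Gal(L/ℚ), ((g Γ₂ : L) : ℂ).re| ≤ 0.4 * N := by
    have u1 := mul_le_mul_of_nonneg_right (v0 (-e) (by linarith) (by linarith)).1 hN0.le
    have u2 := mul_le_mul_of_nonneg_right (v0 (-e) (by linarith) (by linarith)).2 hN0.le
    have u3 : ((-e) ^ 2 - -e) / 2 = (e ^ 2 + e) / 2 := by ring
    rw [u3] at u1 u2
    rw [m2, abs_le]
    constructor <;> linarith
  have hzero : Γ₁ = 0 ∨ Γ₂ = 0 := by
    by_contra hcon
    rw [not_or] at hcon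
    obtain ⟨x1, x2⟩ := not_exc L n1
    obtain ⟨y1, y2⟩ := not_exc L n2
    have l1 := mean_ge3 L hcon.1 x1 x2 hi1 (fun g => by rw [hg1 g, Complex.ofReal_re])
    have l2 := mean_ge3 L hcon.2 y1 y2 hi2 (fun g => by rw [hg2 g, Complex.ofReal_re])
    rw [sum_add_distrib] at q1
    have t1 := abs_le.mp (hes _ hx4.1 hx4.2 (1 / 2) (1 / 2) hhalf)
    have t2 := abs_le.mp (hes _ hx3.1 hx3.2 (2 * e) 1 (by
      rw [abs_mul, abs_two]; linarith))
    have t3 := abs_le.mp (hes _ hx2.1 hx2.2 (3 * e ^ 2) 1 (by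
      rw [abs_of_nonneg (by positivity)]; linarith))
    have t4 := abs_le.mp (hes _ hx1.1 hx1.2 (2 * e + 2 * e ^ 3) 2 (by
      have h1 : 2 * e + 2 * e ^ 3 = e * (2 + 2 * e ^ 2) := by ring
      rw [h1, abs_mul, abs_of_nonneg (show 0 ≤ 2 + 2 * e ^ 2 by positivity)]
      calc |e| * (2 + 2 * e ^ 2) ≤ 1 / 2 * 4 :=
            mul_le_mul hea (by linarith) (by positivity) (by norm_num)
        _ = 2 := by norm_num))
    have t5 := abs_le.mp (hes _ hy2.1 hy2.2 (1 / 2) (1 / 2) hhalf)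
    have t6 := abs_le.mp (hes _ hy1.1 hy1.2 e (1 / 2) hea)
    have t7 : (4 + 9 * e ^ 2 + e ^ 4) / 2 * N ≤ 3.15625 * N := by
      refine mul_le_mul_of_nonneg_right ?_ hN0.le
      have : e ^ 4 = e ^ 2 * e ^ 2 := by ring
      nlinarith
    linarith
  -- a polynomial relation
  have hrel : ∀ g : Gal(L/ℚ), |((g xL : L) : ℂ).re - n| ^ 2 - 2 ≤ |((g yL : L) : ℂ).re - n| := by
    intro g
    rw [sq_abs]
    rcases hzero with h0 | h0
    · have h1 := hg1 g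
      rw [h0, map_zero] at h1
      have h2 : (((((g xL : L) : ℂ).re - n) ^ 2 - 2 - (((g yL : L) : ℂ).re - n)) / 2 : ℝ) = 0 := by
        apply Complex.ofReal_injective
        rw [← h1]
        simp
      have h3 := le_abs_self (((g yL : L) : ℂ).re - n)
      linarith
    · have h1 := hg2 g
      rw [h0, map_zero] at h1
      have h2 : (((((g xL : L) : ℂ).re - n) ^ 2 - 2 + (((g yL : L) : ℂ).re - n)) / 2 : ℝ) = 0 := by
        apply Complex.ofReal_injective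
        rw [← h1]
        simp
      have h3 := neg_le_abs (((g yL : L) : ℂ).re - n)
      linarith
  obtain ⟨σ, hσ⟩ := exists_gal_conj L hP hirr hx hy
  obtain ⟨g₀, _, hg₀⟩ := exists_max_image univ
    (fun g : Gal(L/ℚ) => |((g xL : L) : ℂ).re - n|) univ_nonempty
  have hM : |((g₀ xL : L) : ℂ).re - n| ≤ 2 := by
    have h1 := hrel g₀
    have h2 := hg₀ (g₀ * σ) (mem_univ _)
    have h3 : (g₀ * σ) xL = g₀ yL := by rw [AlgEquiv.mul_apply, hσ]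
    simp only [h3] at h2
    have h4 := abs_nonneg (((g₀ xL : L) : ℂ).re - n)
    by_contra h5
    rw [not_le] at h5
    nlinarith
  intro z hz
  obtain ⟨zL, rfl⟩ : ∃ w : L, (w : ℂ) = z := ⟨⟨_, hL3 _ hz⟩, rfl⟩
  obtain ⟨g, hg⟩ := exists_gal_conj L hP hirr hx hz
  refine ⟨((g xL : L) : ℂ).re, by rw [hrx g, hg], ?_⟩
  have h1 := hg₀ g (mem_univ _)
  linarith

/-- If all conjugates lie in `[n - 2, n + 2]` and in an interval of length about four centred at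
`c`, then `c` is close to `n`. -/
lemma center_close {δ : ℝ} (hδ : 0 < δ) : ∃ l₀ : ℝ, 1 < l₀ ∧ ∃ D : ℕ,
    ∀ (P : ℤ[X]), P.Monic → Irreducible P → D ≤ P.natDegree → ∀ c l : ℝ, 1 ≤ l → l ≤ l₀ →
    RealIn P c l → ∀ n : ℤ, RealIn P n 1 → ∀ x : ℂ, aeval x P = 0 → |c - n| ≤ 2 * δ := by
  obtain ⟨l₀, hl₀, D, hD⟩ := cheb4 hδ
  refine ⟨l₀, hl₀, D, fun P hP hirr hdeg c l hl1 hl2 hr n hrn x hx => ?_⟩
  obtain ⟨L, hL1, hL2, hL3, hL4⟩ := exists_field hP (M := 1) one_pos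
  have : Fintype Gal(L/ℚ) := Fintype.ofFinite _
  obtain ⟨xL, rfl⟩ : ∃ w : L, (w : ℂ) = x := ⟨⟨_, hL3 _ hx⟩, rfl⟩
  obtain ⟨h1, _⟩ := hD P hP hirr hdeg c l hl1 hl2 hr L xL hx
  obtain ⟨h2, _⟩ := hD P hP hirr hdeg n 1 le_rfl hl₀.le hrn L xL hx
  have hN0 : (0 : ℝ) < (Fintype.card Gal(L/ℚ) : ℝ) := by exact_mod_cast Fintype.card_pos
  simp only [sum_sub_distrib, sum_const, card_univ, nsmul_eq_mul] at h1 h2
  set N : ℝ := (Fintype.card Gal(L/ℚ) : ℝ) with hN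
  have h3 : |N * (c - n)| ≤ 2 * δ * N := by
    have h4 : N * (c - n) = (∑ g : Gal(L/ℚ), ((g xL : L) : ℂ).re - N * n) -
        (∑ g : Gal(L/ℚ), ((g xL : L) : ℂ).re - N * c) := by ring
    rw [h4]
    refine (abs_sub _ _).trans ?_
    linarith
  rw [abs_mul, abs_of_pos hN0, mul_comm] at h3
  exact le_of_mul_le_mul_right h3 hN0

/-- All but finitely many conjugate sets in an interval of length about four with two members
satisfying `y ≡ x ^ 2` modulo two lie in an interval of length four with integral ends. -/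
theorem frob_local (a : ℝ) : ∃ ε : ℝ, 0 < ε ∧
    {C : Set ℝ | IsConjSet C ∧ C ⊆ Set.Icc (a - ε) (a + 4 + ε) ∧
      (∃ x ∈ C, ∃ y ∈ C, IsIntegral ℤ ((y - x ^ 2) / 2)) ∧
      ¬ ((∃ n : ℤ, a = n) ∧ C ⊆ Set.Icc a (a + 4))}.Finite := by
  set c : ℝ := a + 2 with hc
  set n : ℤ := round c with hn
  have hcn : |c - n| ≤ 1 / 2 := abs_sub_round c
  obtain ⟨l₀, hl₀, D, hD⟩ := frob_main
  obtain ⟨l₁, hl₁, D₁, hD₁⟩ : ∃ l₁ : ℝ, 1 < l₁ ∧ ∃ D₁ : ℕ,
      ∀ (P : ℤ[X]), P.Monic → Irreducible P → D₁ ≤ P.natDegree → ∀ l : ℝ, 1 ≤ l → l ≤ l₁ →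
      RealIn P c l → RealIn P n 1 → ∀ x : ℂ, aeval x P = 0 → c = n := by
    by_cases h : c = n
    · exact ⟨2, by norm_num, 0, fun _ _ _ _ _ _ _ _ _ _ _ => h⟩
    · have hpos : 0 < |c - n| := abs_pos.mpr (sub_ne_zero.mpr h)
      obtain ⟨l₁, hl₁, D₁, hD₁⟩ := center_close (δ := |c - n| / 4) (by positivity)
      refine ⟨l₁, hl₁, D₁, fun P hP hirr hdeg l h1 h2 hr hrn x hx => ?_⟩
      have := hD₁ P hP hirr hdeg c l h1 h2 hr n hrn x hx
      linarith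
  set ε : ℝ := min (min l₀ l₁) 2 - 1 with hε
  have hε0 : 0 < ε := by
    rw [hε]
    have : 1 < min (min l₀ l₁) 2 := lt_min (lt_min hl₀ hl₁) (by norm_num)
    linarith
  have hε1 : ε ≤ 1 := by
    rw [hε]
    have := min_le_right (min l₀ l₁) (2 : ℝ)
    linarith
  have hl0' : 1 + ε / 2 ≤ l₀ := by
    have : min (min l₀ l₁) 2 ≤ l₀ := (min_le_left _ _).trans (min_le_left _ _)
    rw [hε] at hε0 ⊢
    linarith
  have hl1' : 1 + ε / 2 ≤ l₁ := by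
    have : min (min l₀ l₁) 2 ≤ l₁ := (min_le_left _ _).trans (min_le_right _ _)
    rw [hε] at hε0 ⊢
    linarith
  refine ⟨ε, hε0, ?_⟩
  have hW := finite_low (max D D₁) (|c| + 4)
  refine hW.finite_subsets.subset ?_
  rintro C ⟨⟨P, hP, hirr, hreal, hCP⟩, hC, ⟨x, hx, y, hy, hi⟩, hcon⟩
  have hr : RealIn P c (1 + ε / 2) := by
    intro z hz
    obtain ⟨w, rfl⟩ := hreal z hz
    refine ⟨w, rfl, ?_⟩
    have h1 : w ∈ C := by
      rw [hCP, Set.mem_ofPred_eq]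
      rw [aeval_ofReal] at hz
      exact_mod_cast hz
    have h2 := hC h1
    rw [Set.mem_Icc] at h2
    rw [abs_le]
    constructor <;> linarith [h2.1, h2.2]
  rcases Nat.lt_or_ge P.natDegree (max D D₁) with hdeg | hdeg
  · intro w hw
    rw [hCP, Set.mem_ofPred_eq] at hw
    refine ⟨P, hP, hdeg.le, fun z hz => ?_, hw⟩
    obtain ⟨v, rfl, hv⟩ := hr z hz
    rw [Complex.norm_real, Real.norm_eq_abs]
    have h3 : |v| ≤ |v - c| + |c| := by
      have := abs_add_le (v - c) c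
      rwa [sub_add_cancel] at this
    linarith
  · exfalso
    have hroot : ∀ w ∈ C, aeval (w : ℂ) P = 0 := by
      intro w hw
      rw [hCP, Set.mem_ofPred_eq] at hw
      rw [aeval_ofReal, hw, Complex.ofReal_zero]
    have hi' : IsIntegral ℤ (((y : ℂ) - (x : ℂ) ^ 2) / 2) := by
      have h1 : IsIntegral ℤ (algebraMap ℝ ℂ ((y - x ^ 2) / 2)) := hi.algebraMap
      have h2 : algebraMap ℝ ℂ ((y - x ^ 2) / 2) = ((y : ℂ) - (x : ℂ) ^ 2) / 2 := by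
        simp
      rwa [h2] at h1
    have hrn := hD P hP hirr ((le_max_left _ _).trans hdeg) c (1 + ε / 2) (by linarith) hl0' hr
      n hcn x y (hroot x hx) (hroot y hy) hi'
    have hcn' : c = n := hD₁ P hP hirr ((le_max_right _ _).trans hdeg) (1 + ε / 2)
      (by linarith) hl1' hr hrn x (hroot x hx)
    apply hcon
    refine ⟨⟨n - 2, by push_cast; linarith⟩, fun w hw => ?_⟩
    obtain ⟨v, hv, hv'⟩ := hrn w (hroot w hw)
    have h1 : v = w := by exact_mod_cast hv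
    rw [h1, ← hcn', hc, abs_le] at hv'
    rw [Set.mem_Icc]
    constructor <;> linarith [hv'.1, hv'.2]

end Run7.h55
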