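import Pool.Agent.Run7.h55.Equi

/-!
# Conjugate sets of bounded degree over cyclotomic fields in intervals of length four
-/

set_option autoImplicit false

open Finset Polynomial Filter Topology
open Pool.Agent.Helper781.CycHouse

namespace Run7.h55

lemma finite_low (D : ℕ) (A : ℝ) : {x : ℝ | ∃ P : ℤ[X], P.Monic ∧ P.natDegree ≤ D ∧
    (∀ z : ℂ, aeval z P = 0 → ‖z‖ ≤ A) ∧ aeval x P = 0}.Finite := by
  set B : ℝ := max A 1 ^ D * D.choose (D / 2) with hB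
  have hU : (Set.Icc (-⌈B⌉) ⌈B⌉).Finite := Set.finite_Icc _ _
  refine (bUnion_roots_finite (Int.castRingHom ℝ) D hU).subset ?_
  rintro x ⟨P, hP, hdeg, hroot, hx⟩
  rw [Set.mem_iUnion₂]
  refine ⟨P, ⟨hdeg, fun i => ?_⟩, ?_⟩
  · have h1 := coeff_bdd_of_roots_le (B := A) (d := D) (Int.castRingHom ℂ) hP
      (IsAlgClosed.splits _) hdeg (by
        intro z hz
        apply hroot z
        rw [mem_roots (hP.map _).ne_zero, IsRoot.def] at hz
        rw [aeval_def, eval₂_eq_eval_map]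
        exact hz) i
    rw [coeff_map, eq_intCast, Complex.norm_intCast] at h1
    have h2 : |(P.coeff i : ℝ)| ≤ ⌈B⌉ := h1.trans (Int.le_ceil B)
    have h3 : |P.coeff i| ≤ ⌈B⌉ := by exact_mod_cast h2
    exact abs_le.mp h3
  · rw [mem_coe, Multiset.mem_toFinset, mem_roots (hP.map _).ne_zero, IsRoot.def]
    rw [aeval_def, eval₂_eq_eval_map] at hx
    exact hx

lemma data_full {P : ℤ[X]} (hP : P.Monic) (hirr : Irreducible P) {c l : ℝ} (hr : RealIn P c l)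
    {N : ℕ} (hN : 0 < N) {ζ α : ℂ} (hζ : IsPrimitiveRoot ζ N) (hα : aeval α P = 0) {r : ℕ}
    (hdeg : (minpoly (IntermediateField.adjoin ℚ {ζ}) α).natDegree = r) :
    ∃ (β : Fin r → ℂ) (f : Fin r → ℤ[X]), (∀ i, aeval (β i) P = 0) ∧
      (∀ j, aeval ζ (f j) = es β j) ∧
      (∀ z : ℂ, IsPrimitiveRoot z N → ∃ x : Fin r → ℝ, (∀ i, |x i - c| ≤ 2 * l) ∧
        ∀ j, aeval z (f j) = es (fun i => (x i : ℂ)) j) ∧
      ∀ y : ℂ, aeval y P = 0 → ∃ z, IsPrimitiveRoot z N ∧ ∃ x : Fin r → ℝ,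
        (∀ j, aeval z (f j) = es (fun i => (x i : ℂ)) j) ∧ ∃ i, (x i : ℂ) = y := by
  subst hdeg
  obtain ⟨β, f, hβ, ⟨i₀, hi₀⟩, hf⟩ := data_exists hP hN hζ hα
  obtain ⟨L, hL1, hL2, hL3, hL4⟩ := exists_field hP hN
  obtain ⟨ζL, hζL⟩ : ∃ z : L, (z : ℂ) = ζ := ⟨⟨ζ, hL4 _ hζ.pow_eq_one⟩, rfl⟩
  have hβL : ∀ i, ∃ b : L, (b : ℂ) = β i := fun i => ⟨⟨β i, hL3 _ (hβ i)⟩, rfl⟩
  choose b hb using hβL
  have hb' : ∀ i, aeval (b i : ℂ) P = 0 := fun i => by rw [hb]; exact hβ i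
  have hfL : ∀ j, aeval (ζL : ℂ) (f j) = es (fun i => (b i : ℂ)) j := by
    intro j
    rw [hζL, hf]
    congr 1
    funext i
    exact (hb i).symm
  have hx : ∀ (g : Gal(L/ℚ)) i, ∃ x : ℝ, (x : ℂ) = ((g (b i) : L) : ℂ) ∧
      |x - c| ≤ 2 * l :=
    fun g i => hr _ (aeval_gal P g (hb' i))
  choose x hx1 hx2 using hx
  have hes : ∀ g : Gal(L/ℚ), ∀ j, aeval ((g ζL : L) : ℂ) (f j) =
      es (fun i => (x g i : ℂ)) j := by
    intro g j
    rw [gal_es L b f hfL g j]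
    congr 1
    funext i
    exact (hx1 g i).symm
  refine ⟨β, f, hβ, hf, ?_, ?_⟩
  · intro z hz
    obtain ⟨zL, hzL⟩ : ∃ w : L, (w : ℂ) = z := ⟨⟨z, hL4 _ hz.pow_eq_one⟩, rfl⟩
    obtain ⟨g, hg⟩ := exists_gal_root L hN (ζ := ζL) (z := zL) (by rw [hζL]; exact hζ)
      (by rw [hzL]; exact hz)
    refine ⟨x g, hx2 g, fun j => ?_⟩
    rw [← hes g j, hg, hzL]
  · intro y hy
    obtain ⟨yL, hyL⟩ : ∃ w : L, (w : ℂ) = y := ⟨⟨y, hL3 _ hy⟩, rfl⟩
    obtain ⟨g, hg⟩ := exists_gal_conj L hP hirr (α := b i₀) (β := yL) (hb' i₀)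
      (by rw [hyL]; exact hy)
    refine ⟨((g ζL : L) : ℂ), ?_, x g, hes g, i₀, ?_⟩
    · have h1 : IsPrimitiveRoot ζL N := (IsPrimitiveRoot.map_iff_of_injective
        (f := algebraMap L ℂ) (algebraMap L ℂ).injective).mp
        (by rw [← hζL] at hζ; exact hζ)
      have h2 : IsPrimitiveRoot (g ζL) N := h1.map_of_injective g.injective
      exact h2.map_of_injective (f := algebraMap L ℂ) (algebraMap L ℂ).injective
    · rw [hx1, hg, hyL]

/-- The set `C` is the full set of conjugates of a totally real algebraic integer. -/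
def IsConjSet (C : Set ℝ) : Prop :=
  ∃ P : ℤ[X], P.Monic ∧ Irreducible P ∧ (∀ z : ℂ, aeval z P = 0 → ∃ x : ℝ, (x : ℂ) = z) ∧
    C = {x : ℝ | aeval x P = 0}

/-- Some member of `C` has degree at most `b` over a cyclotomic field. -/
def AbDeg (b : ℕ) (C : Set ℝ) : Prop :=
  ∃ x ∈ C, ∃ N : ℕ, 0 < N ∧ (minpoly (IntermediateField.adjoin ℚ
    {Complex.exp (2 * Real.pi * Complex.I / N)}) (x : ℂ)).natDegree ≤ b

lemma aeval_ofReal (P : ℤ[X]) (x : ℝ) : aeval (x : ℂ) P = ((aeval x P : ℝ) : ℂ) :=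
  aeval_algebraMap_apply ℂ x P

theorem seq_thm (b : ℕ) (C : ℕ → Set ℝ) (hinj : Function.Injective C)
    (hconj : ∀ n, IsConjSet (C n)) (c : ℕ → ℝ) (c₀ : ℝ) (hc : Tendsto c atTop (𝓝 c₀))
    (l : ℕ → ℝ) (hl1 : ∀ n, 1 ≤ l n) (hl : Tendsto l atTop (𝓝 1))
    (hC : ∀ n, ∀ x ∈ C n, |x - c n| ≤ 2 * l n) (hab : ∀ n, AbDeg b (C n)) :
    (∃ m : ℤ, c₀ = m) ∧ ∃ n, ∀ x ∈ C n, |x - c₀| ≤ 2 := by
  choose P hPm hPi hPr hPC using hconj
  choose x hxC N hN hdeg using hab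
  obtain ⟨A, hA⟩ : ∃ A : ℝ, ∀ n, |c n| ≤ A := by
    obtain ⟨A, hA⟩ := (Metric.isBounded_range_of_tendsto c hc).exists_norm_le
    exact ⟨A, fun n => hA _ ⟨n, rfl⟩⟩
  have hA0 : 0 ≤ A := (abs_nonneg _).trans (hA 0)
  obtain ⟨B, hlB⟩ : ∃ B : ℝ, ∀ n, |l n| ≤ B := by
    obtain ⟨B, hlB⟩ := (Metric.isBounded_range_of_tendsto l hl).exists_norm_le
    exact ⟨B, fun n => hlB _ ⟨n, rfl⟩⟩
  have hreal : ∀ n, RealIn (P n) (c n) (l n) := by
    intro n z hz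
    obtain ⟨y, rfl⟩ := hPr n z hz
    refine ⟨y, rfl, hC n y ?_⟩
    rw [hPC, Set.mem_ofPred_eq]
    rw [aeval_ofReal] at hz
    exact_mod_cast hz
  -- degrees tend to infinity
  have hdegs : ∀ D, ∀ᶠ n in atTop, D ≤ (P n).natDegree := by
    intro D
    have h1 : {n | ¬ D ≤ (P n).natDegree}.Finite := by
      have hW := finite_low D (A + 2 * B)
      refine Set.Finite.of_injOn (f := C) (t := 𝒫 {x : ℝ | ∃ P : ℤ[X], P.Monic ∧
        P.natDegree ≤ D ∧ (∀ z : ℂ, aeval z P = 0 → ‖z‖ ≤ A + 2 * B) ∧ aeval x P = 0}) ?_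
        (hinj.injOn) hW.finite_subsets
      intro n hn
      rw [Set.mem_ofPred_eq, not_le] at hn
      intro y hy
      rw [hPC, Set.mem_ofPred_eq] at hy
      refine ⟨P n, hPm n, hn.le, ?_, hy⟩
      intro z hz
      obtain ⟨w, rfl, hw⟩ := hreal n z hz
      rw [Complex.norm_real, Real.norm_eq_abs]
      have h2 := hA n
      have h2' := (le_abs_self (l n)).trans (hlB n)
      have h3 : |w| ≤ |w - c n| + |c n| := by
        have := abs_add_le (w - c n) (c n)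
        rwa [sub_add_cancel] at this
      linarith
    have h2 := h1.eventually_cofinite_notMem
    rw [Nat.cofinite_eq_atTop] at h2
    filter_upwards [h2] with n hn
    by_contra h3
    exact hn h3
  -- constant relative degree
  have hα : ∀ n, aeval ((x n : ℝ) : ℂ) (P n) = 0 := by
    intro n
    have h1 := hxC n
    rw [hPC, Set.mem_ofPred_eq] at h1
    rw [aeval_ofReal, h1, Complex.ofReal_zero]
  obtain ⟨φ, hφ, hcard⟩ := pigeon (fun n => (minpoly (IntermediateField.adjoin ℚ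
    {Complex.exp (2 * Real.pi * Complex.I / N n)}) ((x n : ℝ) : ℂ)).natDegree)
    ((Set.finite_Icc 0 b).subset (by
      rintro _ ⟨n, rfl⟩
      exact ⟨Nat.zero_le _, hdeg n⟩))
  obtain ⟨r, hr⟩ : ∃ r, (minpoly (IntermediateField.adjoin ℚ
    {Complex.exp (2 * Real.pi * Complex.I / N (φ 0))}) ((x (φ 0) : ℝ) : ℂ)).natDegree = r :=
    ⟨_, rfl⟩
  have hr0 : 0 < r := by
    rw [← hr]
    apply minpoly.natDegree_pos
    have h1 : IsIntegral ℤ ((x (φ 0) : ℝ) : ℂ) := ⟨P (φ 0), hPm _, hα _⟩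
    exact h1.tower_top
  have hdat := fun n => data_full (hPm (φ n)) (hPi (φ n)) (hreal (φ n)) (hN (φ n))
    (Complex.isPrimitiveRoot_exp (N (φ n)) (hN (φ n)).ne') (hα (φ n)) ((hcard n).trans hr)
  choose β f hβ hf h1 h3 using hdat
  obtain ⟨hint, n, hn⟩ := seq_main hr0 (fun n => c (φ n)) c₀ (hc.comp hφ.tendsto_atTop)
    (fun n => l (φ n)) (hl.comp hφ.tendsto_atTop) (fun n => N (φ n)) (fun n => hN _) (fun n => Complex.exp (2 * Real.pi * Complex.I / N (φ n)))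
    (fun n => Complex.isPrimitiveRoot_exp (N (φ n)) (hN (φ n)).ne') f h1 (by
      intro k Q hQ ε hε
      obtain ⟨l₀, hl₀, D, hD⟩ := data_equi r k Q hQ A hA0 hε
      filter_upwards [hφ.tendsto_atTop.eventually (hdegs D),
        hφ.tendsto_atTop.eventually (hl.eventually (gt_mem_nhds hl₀))] with n hn hn2 M _ hNM hQM a
      exact hD (P (φ n)) (hPm _) (hPi _) hn (c (φ n)) (hA _) (l (φ n)) (hl1 _) hn2.le (hreal _) (N (φ n)) (hN _) _
        (Complex.isPrimitiveRoot_exp (N (φ n)) (hN (φ n)).ne') (β n) (f n) (hβ n) (hf n) M hNM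
        hQM a)
  refine ⟨hint, φ n, fun y hy => ?_⟩
  rw [hPC, Set.mem_ofPred_eq] at hy
  obtain ⟨z, hz, x', hx', i, hi⟩ := h3 n ((y : ℝ) : ℂ) (by
    rw [aeval_ofReal, hy, Complex.ofReal_zero])
  have h4 := hn z hz x' hx' i
  have h5 : x' i = y := by exact_mod_cast hi
  rwa [h5] at h4

end Run7.h55
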