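import Pool.Agent.Run7.h55.Main

/-!
# Conjugates congruent modulo a rational integer
-/

set_option autoImplicit false

open Finset Polynomial Filter Topology

namespace Run7.h55

/-- Chebyshev sums over all conjugates. -/
lemma cheb_small (K : ℕ) {δ : ℝ} (hδ : 0 < δ) : ∃ l₀ : ℝ, 1 < l₀ ∧ ∃ D : ℕ,
    ∀ (P : ℤ[X]), P.Monic → Irreducible P → D ≤ P.natDegree → ∀ c l : ℝ, 1 ≤ l → l ≤ l₀ →
    RealIn P c l → ∀ (L : IntermediateField ℚ ℂ) [FiniteDimensional ℚ L] [IsGalois ℚ L]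
      [Fintype Gal(L/ℚ)] (β : L), aeval (β : ℂ) P = 0 → ∀ k ∈ range K,
      |∑ g : Gal(L/ℚ), 2 * Real.cos (((k + 1 : ℕ) : ℝ) *
        ang ((((g β : L) : ℂ).re - c) / l))| ≤ δ * Fintype.card Gal(L/ℚ) := by
  classical
  choose e he D hD using fun i : ℕ => rel_small i 1 hδ
  obtain ⟨η₀, hη₀, hη₀'⟩ := exists_pos_le e he K
  refine ⟨1 + η₀, by linarith, ∑ i ∈ range K, D i,
    fun P hP hirr hdeg c l hl1 hl2 hr L _ _ _ β hβ k hk => ?_⟩
  have hl0 : 0 < l := by linarith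
  have hlog : Real.log l ≤ e k := by
    have h1 := Real.log_le_sub_one_of_pos hl0
    have h2 := hη₀' k hk
    linarith
  have hdeg' : D k ≤ P.natDegree :=
    (single_le_sum (f := D) (fun _ _ => Nat.zero_le _) hk).trans hdeg
  have h1 := hD k Gal(L/ℚ) (IntermediateField.adjoin ℚ {β}).fixingSubgroup ⊤
    (fun g => (((g β : L) : ℂ).re - c) / l) (Real.log l) hlog (conj_of_root L hP hl1 hr hβ)
    (by rw [one_mul, Subgroup.card_top]) (by
      rw [card_gal L hP hirr hβ]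
      exact Nat.mul_le_mul_right _ hdeg') 1
  rw [Subgroup.card_top, Nat.card_eq_fintype_card] at h1
  have h2 : ∑ u : (⊤ : Subgroup Gal(L/ℚ)), 2 * Real.cos (((k + 1 : ℕ) : ℝ) *
      ang ((((((1 : Gal(L/ℚ)) * (u : Gal(L/ℚ))) β : L) : ℂ).re - c) / l)) =
      ∑ g : Gal(L/ℚ), 2 * Real.cos (((k + 1 : ℕ) : ℝ) *
        ang ((((g β : L) : ℂ).re - c) / l)) := by
    refine Fintype.sum_equiv Subgroup.topEquiv.toEquiv _ _ fun u => ?_
    rw [one_mul]
    rfl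
  rw [← h2]
  exact h1

/-- A totally real algebraic integer other than `0`, `1`, `-1` has mean square at least `1.19`. -/
lemma f_bound {y : ℝ} (hy : 0 < y) (hy1 : y ≠ 1) :
    1.19 ≤ y - 3 / 4 * Real.log y - 1 / 4 * Real.log |y - 1| := by
  have hlog2 : 0.6931471803 < Real.log 2 := Real.log_two_gt_d9
  rcases lt_or_gt_of_ne hy1 with h | h
  · have h1 : Real.log y ≤ 2 * y - 1 - Real.log 2 := by
      have h2 := Real.log_le_sub_one_of_pos (show 0 < 2 * y by positivity)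
      rw [Real.log_mul (by norm_num) hy.ne'] at h2
      linarith
    have h2 : Real.log |y - 1| ≤ 1 - 2 * y - Real.log 2 := by
      rw [abs_of_neg (by linarith)]
      have h3 := Real.log_le_sub_one_of_pos (show 0 < 2 * (-(y - 1)) by linarith)
      rw [Real.log_mul (by norm_num) (by linarith)] at h3
      linarith
    linarith
  · have h1 : Real.log y ≤ 2 / 3 * y - 1 / 2 := by
      have h2 := Real.log_le_sub_one_of_pos (show 0 < 2 / 3 * y by positivity)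
      rw [Real.log_mul (by norm_num) hy.ne'] at h2
      have h3 := Real.log_le_sub_one_of_pos (show (0 : ℝ) < 3 / 2 by norm_num)
      have h4 : Real.log (2 / 3 : ℝ) = -Real.log (3 / 2) := by
        rw [← Real.log_inv]; norm_num
      rw [h4] at h2
      linarith
    have h2 : Real.log |y - 1| ≤ 2 * y - 3 - Real.log 2 := by
      rw [abs_of_pos (by linarith)]
      have h3 := Real.log_le_sub_one_of_pos (show 0 < 2 * (y - 1) by linarith)
      rw [Real.log_mul (by norm_num) (by linarith)] at h3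
      linarith
    linarith

lemma mean_ge (L : IntermediateField ℚ ℂ) [FiniteDimensional ℚ L] [IsGalois ℚ L]
    [Fintype Gal(L/ℚ)] {γ : L} (hγ : γ ≠ 0) (hi : IsIntegral ℤ γ) :
    (Fintype.card Gal(L/ℚ) : ℝ) ≤ ∑ g : Gal(L/ℚ), ‖((g γ : L) : ℂ)‖ ^ 2 := by
  have h1 := sum_log_nonneg L hγ hi
  have hpos : ∀ g : Gal(L/ℚ), 0 < ‖((g γ : L) : ℂ)‖ := by
    intro g
    rw [norm_pos_iff]
    intro h
    apply hγ
    have h3 : g γ = 0 := Subtype.ext h
    rwa [map_eq_zero] at h3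
  have h2 : ∀ g : Gal(L/ℚ), 1 + 2 * Real.log ‖((g γ : L) : ℂ)‖ ≤ ‖((g γ : L) : ℂ)‖ ^ 2 := by
    intro g
    have h3 := Real.log_le_sub_one_of_pos (pow_pos (hpos g) 2)
    rw [Real.log_pow] at h3
    push_cast at h3
    linarith
  have h3 := sum_le_sum fun g (_ : g ∈ (univ : Finset Gal(L/ℚ))) => h2 g
  rw [sum_add_distrib, ← mul_sum, sum_const, card_univ, nsmul_eq_mul, mul_one] at h3
  linarith

lemma mean_ge' (L : IntermediateField ℚ ℂ) [FiniteDimensional ℚ L] [IsGalois ℚ L]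
    [Fintype Gal(L/ℚ)] {γ : L} (hγ : γ ≠ 0) (hγ1 : γ ^ 2 ≠ 1) (hi : IsIntegral ℤ γ)
    (hreal : ∀ g : Gal(L/ℚ), ((g γ : L) : ℂ) = ((((g γ : L) : ℂ).re : ℝ) : ℂ)) :
    1.19 * (Fintype.card Gal(L/ℚ) : ℝ) ≤ ∑ g : Gal(L/ℚ), (((g γ : L) : ℂ).re) ^ 2 := by
  have h1 := sum_log_nonneg L hγ hi
  have hγ2 : γ ^ 2 - 1 ≠ 0 := sub_ne_zero.mpr hγ1
  have h2 := sum_log_nonneg L hγ2 ((hi.pow 2).sub isIntegral_one)
  have h3 : ∀ g : Gal(L/ℚ), 1.19 + 3 / 2 * Real.log ‖((g γ : L) : ℂ)‖ +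
      1 / 4 * Real.log ‖((g (γ ^ 2 - 1) : L) : ℂ)‖ ≤ (((g γ : L) : ℂ).re) ^ 2 := by
    intro g
    have h4 : g γ ≠ 0 := by simpa using hγ
    have h5 : g (γ ^ 2 - 1) ≠ 0 := by
      rw [Ne, map_eq_zero]
      exact hγ2
    set r := ((g γ : L) : ℂ).re with hr
    have h6 : ((g (γ ^ 2 - 1) : L) : ℂ) = ((r ^ 2 - 1 : ℝ) : ℂ) := by
      rw [map_sub, map_pow, map_one]
      push_cast
      rw [hreal g]
    have hr0 : r ≠ 0 := by
      intro h0
      apply h4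
      apply Subtype.ext
      rw [hreal g, ← hr, h0]
      simp
    have hr1 : r ^ 2 ≠ 1 := by
      intro h0
      apply h5
      apply Subtype.ext
      rw [h6, h0]
      simp
    have h7 := f_bound (pow_pos (abs_pos.mpr hr0) 2) (by rwa [sq_abs])
    rw [Real.log_pow, sq_abs] at h7
    have h8 : ‖((g γ : L) : ℂ)‖ = |r| := by
      rw [hreal g, Complex.norm_real, Real.norm_eq_abs]
    have h9 : ‖((g (γ ^ 2 - 1) : L) : ℂ)‖ = |r ^ 2 - 1| := by
      rw [h6, Complex.norm_real, Real.norm_eq_abs]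
    rw [h8, h9]
    push_cast at h7
    linarith
  have h4 := sum_le_sum fun g (_ : g ∈ (univ : Finset Gal(L/ℚ))) => h3 g
  rw [sum_add_distrib, sum_add_distrib, ← mul_sum, ← mul_sum, sum_const, card_univ,
    nsmul_eq_mul] at h4
  nlinarith

lemma c1 (θ : ℝ) : 2 * Real.cos (((0 + 1 : ℕ) : ℝ) * θ) = 2 * Real.cos θ := by norm_num

lemma c2 (θ : ℝ) : 2 * Real.cos (((1 + 1 : ℕ) : ℝ) * θ) = (2 * Real.cos θ) ^ 2 - 2 := by
  have : ((1 + 1 : ℕ) : ℝ) * θ = 2 * θ := by norm_num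
  rw [this, Real.cos_two_mul]
  ring

lemma c3 (θ : ℝ) : 2 * Real.cos (((2 + 1 : ℕ) : ℝ) * θ) =
    (2 * Real.cos θ) ^ 3 - 3 * (2 * Real.cos θ) := by
  have : ((2 + 1 : ℕ) : ℝ) * θ = 3 * θ := by norm_num
  rw [this, Real.cos_three_mul]
  ring

lemma c4 (θ : ℝ) : 2 * Real.cos (((3 + 1 : ℕ) : ℝ) * θ) =
    (2 * Real.cos θ) ^ 4 - 4 * (2 * Real.cos θ) ^ 2 + 2 := by
  have : ((3 + 1 : ℕ) : ℝ) * θ = 2 * (2 * θ) := by push_cast; ring
  rw [this, Real.cos_two_mul, Real.cos_two_mul]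
  ring

/-- Moments of the conjugates. -/
lemma moments : ∃ l₀ : ℝ, 1 < l₀ ∧ ∃ D : ℕ,
    ∀ (P : ℤ[X]), P.Monic → Irreducible P → D ≤ P.natDegree → ∀ c l : ℝ, 1 ≤ l → l ≤ l₀ →
    RealIn P c l → ∀ (L : IntermediateField ℚ ℂ) [FiniteDimensional ℚ L] [IsGalois ℚ L]
      [Fintype Gal(L/ℚ)] (β : L), aeval (β : ℂ) P = 0 →
      ∑ g : Gal(L/ℚ), (((g β : L) : ℂ).re - c) ^ 2 ≤ 2.1 * (Fintype.card Gal(L/ℚ) : ℝ) ∧
      ∀ ε : ℝ, |ε| ≤ 1 / 2 → ∑ g : Gal(L/ℚ), ((((g β : L) : ℂ).re - (c - ε)) ^ 2 -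
        ε ^ 2 - 2 * l ^ 2) ^ 2 ≤ 4.3 * (Fintype.card Gal(L/ℚ) : ℝ) := by
  obtain ⟨l₁, hl₁, D, hD⟩ := cheb_small 4 (δ := 1 / 1000) (by norm_num)
  refine ⟨min l₁ (1 + 1 / 1000), lt_min hl₁ (by norm_num), D,
    fun P hP hirr hdeg c l hl1 hl2 hr L _ _ _ β hβ => ?_⟩
  have hl3 : l ≤ 1 + 1 / 1000 := hl2.trans (min_le_right _ _)
  have hl0 : 0 < l := by linarith
  have h := hD P hP hirr hdeg c l hl1 (hl2.trans (min_le_left _ _)) hr L β hβ
  have h1 := h 0 (by simp)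
  have h2 := h 1 (by simp)
  have h3 := h 2 (by simp)
  have h4 := h 3 (by simp)
  simp only [c1, c2, c3, c4] at h1 h2 h3 h4
  set N : ℝ := (Fintype.card Gal(L/ℚ) : ℝ) with hN
  have hN0 : 0 ≤ N := by positivity
  have ht : ∀ g : Gal(L/ℚ), ∃ t : ℝ, t = 2 * Real.cos (ang ((((g β : L) : ℂ).re - c) / l)) ∧
      ((g β : L) : ℂ).re - c = l * t := by
    intro g
    refine ⟨_, rfl, ?_⟩
    rw [two_cos_ang]
    · field_simp
    · exact (conj_of_root L hP hl1 hr hβ).le g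
  choose t ht1 ht2 using ht
  simp only [← ht1] at h1 h2 h3 h4
  simp only [ht2]
  have hs2 : ∑ g : Gal(L/ℚ), t g ^ 2 = 2 * N + ∑ g : Gal(L/ℚ), (t g ^ 2 - 2) := by
    rw [sum_sub_distrib, sum_const, card_univ, nsmul_eq_mul]
    ring
  rw [abs_le] at h1 h2 h3 h4
  have hl2' : l ^ 2 ≤ 1.003 := by nlinarith
  have hl2'' : 1 ≤ l ^ 2 := by nlinarith
  constructor
  · have h5 : ∑ g : Gal(L/ℚ), (l * t g) ^ 2 = l ^ 2 * ∑ g : Gal(L/ℚ), t g ^ 2 := by
      rw [mul_sum]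
      exact sum_congr rfl fun g _ => by ring
    rw [h5, hs2]
    calc l ^ 2 * (2 * N + ∑ g : Gal(L/ℚ), (t g ^ 2 - 2)) ≤ 1.003 * (2 * N + 1 / 1000 * N) :=
          mul_le_mul hl2' (by linarith [h2.2]) (by linarith [h2.1]) (by norm_num)
      _ ≤ 2.1 * N := by linarith
  · intro ε hε
    have h5 : ∑ g : Gal(L/ℚ), ((((g β : L) : ℂ).re - (c - ε)) ^ 2 - ε ^ 2 - 2 * l ^ 2) ^ 2 =
        (2 * l ^ 4 + 8 * ε ^ 2 * l ^ 2) * N +
        l ^ 4 * ∑ g : Gal(L/ℚ), (t g ^ 4 - 4 * t g ^ 2 + 2) +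
        4 * ε * l ^ 3 * ∑ g : Gal(L/ℚ), (t g ^ 3 - 3 * t g) +
        4 * ε * l ^ 3 * ∑ g : Gal(L/ℚ), t g +
        4 * ε ^ 2 * l ^ 2 * ∑ g : Gal(L/ℚ), (t g ^ 2 - 2) := by
      rw [mul_sum, mul_sum, mul_sum, mul_sum]
      have h6 : (2 * l ^ 4 + 8 * ε ^ 2 * l ^ 2) * N =
          ∑ _g : Gal(L/ℚ), (2 * l ^ 4 + 8 * ε ^ 2 * l ^ 2) := by
        rw [sum_const, card_univ, nsmul_eq_mul, hN]
        ring
      rw [h6, ← sum_add_distrib, ← sum_add_distrib, ← sum_add_distrib, ← sum_add_distrib]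
      refine sum_congr rfl fun g _ => ?_
      have h7 : ((g β : L) : ℂ).re - (c - ε) = l * t g + ε := by rw [← ht2 g]; ring
      rw [h7]
      ring
    rw [h5]
    rw [abs_le] at hε
    have he2 : ε ^ 2 ≤ 1 / 4 := by nlinarith
    have he0 : 0 ≤ ε ^ 2 := sq_nonneg ε
    have hl3' : l ^ 3 ≤ 1.005 := by
      calc l ^ 3 = l * l ^ 2 := by ring
        _ ≤ (1 + 1 / 1000) * 1.003 := mul_le_mul hl3 hl2' (by positivity) (by norm_num)
        _ ≤ 1.005 := by norm_num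
    have hl3'' : 0 ≤ l ^ 3 := by positivity
    have hl4' : l ^ 4 ≤ 1.007 := by
      calc l ^ 4 = l ^ 2 * l ^ 2 := by ring
        _ ≤ 1.003 * 1.003 := mul_le_mul hl2' hl2' (by positivity) (by norm_num)
        _ ≤ 1.007 := by norm_num
    have hl4'' : 0 ≤ l ^ 4 := by positivity
    have hδ : 0 ≤ 1 / 1000 * N := by positivity
    -- each term
    have e1 : (2 * l ^ 4 + 8 * ε ^ 2 * l ^ 2) * N ≤ 4.1 * N := by
      refine mul_le_mul_of_nonneg_right ?_ hN0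
      have h8 : ε ^ 2 * l ^ 2 ≤ 1 / 4 * 1.003 :=
        mul_le_mul he2 hl2' (by positivity) (by norm_num)
      linarith
    have e2 : l ^ 4 * ∑ g : Gal(L/ℚ), (t g ^ 4 - 4 * t g ^ 2 + 2) ≤ 0.01 * N := by
      calc _ ≤ l ^ 4 * (1 / 1000 * N) := mul_le_mul_of_nonneg_left h4.2 hl4''
        _ ≤ 1.007 * (1 / 1000 * N) := mul_le_mul_of_nonneg_right hl4' hδ
        _ ≤ _ := by linarith
    have habs : ∀ s : ℝ, -(1 / 1000 * N) ≤ s → s ≤ 1 / 1000 * N →
        4 * ε * l ^ 3 * s ≤ 0.01 * N := by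
      intro s hs1 hs2
      have h8 : |s| ≤ 1 / 1000 * N := abs_le.mpr ⟨hs1, hs2⟩
      have h9 : |4 * ε * l ^ 3| ≤ 3 := by
        rw [abs_mul, abs_of_nonneg hl3'']
        have h10 : |4 * ε| ≤ 2 := by rw [abs_le]; constructor <;> linarith
        calc |4 * ε| * l ^ 3 ≤ 2 * 1.005 :=
              mul_le_mul h10 hl3' hl3'' (by norm_num)
          _ ≤ 3 := by norm_num
      calc 4 * ε * l ^ 3 * s ≤ |4 * ε * l ^ 3 * s| := le_abs_self _
        _ = |4 * ε * l ^ 3| * |s| := abs_mul _ _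
        _ ≤ 3 * (1 / 1000 * N) := mul_le_mul h9 h8 (abs_nonneg _) (by norm_num)
        _ ≤ _ := by linarith
    have e3 := habs _ h3.1 h3.2
    have e4 := habs _ h1.1 h1.2
    have e5 : 4 * ε ^ 2 * l ^ 2 * ∑ g : Gal(L/ℚ), (t g ^ 2 - 2) ≤ 0.01 * N := by
      have h8 : 4 * ε ^ 2 * l ^ 2 ≤ 1.003 := by
        have h9 : ε ^ 2 * l ^ 2 ≤ 1 / 4 * 1.003 :=
          mul_le_mul he2 hl2' (by positivity) (by norm_num)
        linarith
      calc _ ≤ 4 * ε ^ 2 * l ^ 2 * (1 / 1000 * N) :=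
            mul_le_mul_of_nonneg_left h2.2 (by positivity)
        _ ≤ 1.003 * (1 / 1000 * N) := mul_le_mul_of_nonneg_right h8 hδ
        _ ≤ _ := by linarith
    linarith

/-- The sum over the group in terms of a polynomial in the conjugates. -/
lemma telescope (L : IntermediateField ℚ ℂ) [FiniteDimensional ℚ L] (F : L → L) (x : L)
    (σ : Gal(L/ℚ)) (e : L) (h : ∀ k : ℕ, F ((σ ^ k) x) - F ((σ ^ (k + 1)) x) = e) :
    e = 0 := by
  have : Finite Gal(L/ℚ) := inferInstance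
  have h1 : 0 < orderOf σ := orderOf_pos σ
  have h2 := sum_range_sub' (fun k : ℕ => F ((σ ^ k) x)) (orderOf σ)
  rw [sum_congr rfl fun k _ => h k, sum_const, card_range, pow_orderOf_eq_one, pow_zero,
    sub_self, nsmul_eq_mul, mul_eq_zero] at h2
  rcases h2 with h2 | h2
  · exact absurd (Nat.cast_eq_zero.mp h2) h1.ne'
  · exact h2

/-- Conjugates congruent modulo an integer at least two are symmetric about an integer. -/
theorem cong_symm : ∃ l₀ : ℝ, 1 < l₀ ∧ ∃ D : ℕ,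
    ∀ (P : ℤ[X]), P.Monic → Irreducible P → D ≤ P.natDegree → ∀ c l : ℝ, 1 ≤ l → l ≤ l₀ →
    RealIn P c l → ∀ n : ℤ, |c - n| ≤ 1 / 2 → ∀ m : ℕ, 2 ≤ m → ∀ x y : ℂ, x ≠ y →
    aeval x P = 0 → aeval y P = 0 → IsIntegral ℤ ((x - y) / m) →
    ∀ z : ℂ, aeval z P = 0 → aeval (2 * n - z) P = 0 := by
  obtain ⟨l₀, hl₀, D, hD⟩ := moments
  refine ⟨l₀, hl₀, D, fun P hP hirr hdeg c l hl1 hl2 hr n hn m hm x y hxy hx hy hi z hz => ?_⟩
  obtain ⟨L, hL1, hL2, hL3, hL4⟩ := exists_field hP (M := 1) one_pos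
  have : Fintype Gal(L/ℚ) := Fintype.ofFinite _
  obtain ⟨xL, rfl⟩ : ∃ w : L, (w : ℂ) = x := ⟨⟨_, hL3 _ hx⟩, rfl⟩
  obtain ⟨yL, rfl⟩ : ∃ w : L, (w : ℂ) = y := ⟨⟨_, hL3 _ hy⟩, rfl⟩
  obtain ⟨zL, rfl⟩ : ∃ w : L, (w : ℂ) = z := ⟨⟨_, hL3 _ hz⟩, rfl⟩
  have hxy' : xL ≠ yL := fun h => hxy (by rw [h])
  have hm0 : (m : ℂ) ≠ 0 := by
    have : m ≠ 0 := by omega
    exact_mod_cast this
  have hm0' : (m : L) ≠ 0 := by
    have : m ≠ 0 := by omega
    exact_mod_cast this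
  obtain ⟨hMx, hMx'⟩ := hD P hP hirr hdeg c l hl1 hl2 hr L xL hx
  obtain ⟨hMy, hMy'⟩ := hD P hP hirr hdeg c l hl1 hl2 hr L yL hy
  set N : ℝ := (Fintype.card Gal(L/ℚ) : ℝ) with hN
  have hN0 : 0 < N := by
    rw [hN]
    exact_mod_cast Fintype.card_pos
  have hrx : ∀ g : Gal(L/ℚ), ((((g xL : L) : ℂ).re : ℝ) : ℂ) = ((g xL : L) : ℂ) := by
    intro g
    obtain ⟨w, hw, _⟩ := hr _ (aeval_gal P g hx)
    rw [← hw]
    simp
  have hry : ∀ g : Gal(L/ℚ), ((((g yL : L) : ℂ).re : ℝ) : ℂ) = ((g yL : L) : ℂ) := by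
    intro g
    obtain ⟨w, hw, _⟩ := hr _ (aeval_gal P g hy)
    rw [← hw]
    simp
  -- integrality inside `L`
  have hval : ∀ w : L, IsIntegral ℤ ((w : L) : ℂ) → IsIntegral ℤ w := fun w hw =>
    (isIntegral_algHom_iff ((IsScalarTower.toAlgHom ℚ L ℂ).restrictScalars ℤ)
      (algebraMap L ℂ).injective).mp hw
  have hxi : IsIntegral ℤ xL := hval _ ⟨P, hP, hx⟩
  have hyi : IsIntegral ℤ yL := hval _ ⟨P, hP, hy⟩
  have hdi : IsIntegral ℤ ((xL - yL) / m) := by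
    apply hval
    push_cast
    exact hi
  have hdne : (xL - yL) / m ≠ 0 := div_ne_zero (sub_ne_zero.mpr hxy') hm0'
  rcases Nat.lt_or_ge m 3 with hm3 | hm3
  · -- the case `m = 2`
    have hm2 : m = 2 := by omega
    subst hm2
    set γ : L := ((xL - n) ^ 2 - (yL - n) ^ 2) / 4 with hγ
    have hγi : IsIntegral ℤ γ := by
      have h1 : γ = ((xL - yL) / (2 : ℕ)) * ((xL - yL) / (2 : ℕ) + (yL - n)) := by
        rw [hγ]
        push_cast
        ring
      rw [h1]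
      exact hdi.mul (hdi.add (hyi.sub (isIntegral_algebraMap (R := ℤ) (x := n))))
    have hγval : ∀ g : Gal(L/ℚ), ((g γ : L) : ℂ) =
        (((((g xL : L) : ℂ).re - n) ^ 2 - (((g yL : L) : ℂ).re - n) ^ 2) / 4 : ℝ) := by
      intro g
      have h4c : ((4 : L) : ℂ) = 4 := map_ofNat (algebraMap L ℂ) 4
      rw [hγ, map_div₀, map_sub, map_pow, map_pow, map_sub, map_sub, map_intCast, map_ofNat]
      push_cast
      rw [hrx g, hry g, h4c]
    by_cases h0 : γ = 0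
    · -- symmetry
      have h1 : (xL - n) ^ 2 = (yL - n) ^ 2 := by
        rw [hγ, div_eq_zero_iff] at h0
        rcases h0 with h0 | h0
        · exact sub_eq_zero.mp h0
        · exact absurd h0 (by norm_num)
      have h2 : yL = 2 * n - xL := by
        rcases sq_eq_sq_iff_eq_or_eq_neg.mp h1 with h2 | h2
        · exact absurd (sub_left_injective h2) hxy'
        · linear_combination h2
      obtain ⟨g, hg⟩ := exists_gal_conj L hP hirr hx hz
      have h3 : (2 * n - (zL : ℂ)) = ((g yL : L) : ℂ) := by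
        have h2c : ((2 : L) : ℂ) = 2 := map_ofNat (algebraMap L ℂ) 2
        rw [h2, map_sub, map_mul, map_intCast, map_ofNat, hg]
        push_cast
        rw [h2c]
      rw [h3]
      exact aeval_gal P g hy
    · exfalso
      by_cases h1 : γ ^ 2 = 1
      · -- telescoping
        obtain ⟨σ, hσ⟩ := exists_gal_conj L hP hirr hx hy
        have h2 : ∀ g : Gal(L/ℚ), g γ = γ := by
          intro g
          rcases sq_eq_sq_iff_eq_or_eq_neg.mp (h1.trans (one_pow 2).symm) with h3 | h3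
          · rw [h3, map_one]
          · rw [h3, map_neg, map_one]
        have h3 : (4 * γ : L) = 0 := by
          refine telescope L (fun w => (w - n) ^ 2) xL σ _ fun k => ?_
          have h4 : (σ ^ (k + 1)) xL = (σ ^ k) yL := by
            rw [pow_succ, ← hσ]
            rfl
          have h5 : (σ ^ k) (4 * γ) = 4 * γ := by
            rw [map_mul, h2, map_ofNat]
          rw [h4, ← h5, hγ]
          simp only [map_mul, map_div₀, map_sub, map_pow, map_intCast, map_ofNat]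
          ring
        apply h0
        rcases mul_eq_zero.mp h3 with h4 | h4
        · exact absurd h4 (by norm_num)
        · exact h4
      · have h2 := mean_ge' L h0 h1 hγi (fun g => by rw [hγval g, Complex.ofReal_re])
        have h3 := hMx' (c - n) hn
        have h4 := hMy' (c - n) hn
        have h5 : ∀ g : Gal(L/ℚ), (((g γ : L) : ℂ).re) ^ 2 ≤ 1 / 8 *
            (((((g xL : L) : ℂ).re - (c - (c - n))) ^ 2 - (c - n) ^ 2 - 2 * l ^ 2) ^ 2 +
            ((((g yL : L) : ℂ).re - (c - (c - n))) ^ 2 - (c - n) ^ 2 - 2 * l ^ 2) ^ 2) := by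
          intro g
          rw [hγval g, Complex.ofReal_re]
          have h6 : ((g xL : L) : ℂ).re - (c - (c - n)) = ((g xL : L) : ℂ).re - n := by ring
          have h7 : ((g yL : L) : ℂ).re - (c - (c - n)) = ((g yL : L) : ℂ).re - n := by ring
          rw [h6, h7]
          nlinarith [sq_nonneg ((((g xL : L) : ℂ).re - n) ^ 2 - (c - n) ^ 2 - 2 * l ^ 2 +
            ((((g yL : L) : ℂ).re - n) ^ 2 - (c - n) ^ 2 - 2 * l ^ 2))]
        have h6 := sum_le_sum fun g (_ : g ∈ (univ : Finset Gal(L/ℚ))) => h5 g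
        rw [← mul_sum, sum_add_distrib] at h6
        linarith
  · -- the case `m ≥ 3`
    exfalso
    have hm3' : (3 : ℝ) ≤ m := by exact_mod_cast hm3
    have h2 := mean_ge L hdne hdi
    have h5 : ∀ g : Gal(L/ℚ), ‖((g ((xL - yL) / m) : L) : ℂ)‖ ^ 2 ≤ 2 / 9 *
        ((((g xL : L) : ℂ).re - c) ^ 2 + (((g yL : L) : ℂ).re - c) ^ 2) := by
      intro g
      have h6 : ((g ((xL - yL) / m) : L) : ℂ) =
          (((((g xL : L) : ℂ).re - ((g yL : L) : ℂ).re) / m : ℝ) : ℂ) := by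
        rw [map_div₀, map_sub, map_natCast]
        push_cast
        rw [hrx g, hry g]
      rw [h6, Complex.norm_real, Real.norm_eq_abs, sq_abs, div_pow,
        div_le_iff₀ (by positivity)]
      have h7 : (9 : ℝ) ≤ (m : ℝ) ^ 2 := by nlinarith
      have h8 : (((g xL : L) : ℂ).re - ((g yL : L) : ℂ).re) ^ 2 ≤
          2 * ((((g xL : L) : ℂ).re - c) ^ 2 + (((g yL : L) : ℂ).re - c) ^ 2) := by
        nlinarith [sq_nonneg ((((g xL : L) : ℂ).re - c) + (((g yL : L) : ℂ).re - c))]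
      have h9 : 0 ≤ (((g xL : L) : ℂ).re - c) ^ 2 + (((g yL : L) : ℂ).re - c) ^ 2 := by
        positivity
      nlinarith
    have h6 := sum_le_sum fun g (_ : g ∈ (univ : Finset Gal(L/ℚ))) => h5 g
    rw [← mul_sum, sum_add_distrib] at h6
    linarith

/-- A conjugate set symmetric about `n` has its arcsine centre close to `n`. -/
lemma symm_center {δ : ℝ} (hδ : 0 < δ) : ∃ l₀ : ℝ, 1 < l₀ ∧ ∃ D : ℕ,
    ∀ (P : ℤ[X]), P.Monic → Irreducible P → D ≤ P.natDegree → ∀ c l : ℝ, 1 ≤ l → l ≤ l₀ →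
    RealIn P c l → ∀ n : ℤ, ∀ x : ℂ, aeval x P = 0 → aeval (2 * n - x) P = 0 →
    |c - n| ≤ 2 * δ := by
  obtain ⟨l₁, hl₁, D, hD⟩ := cheb_small 1 hδ
  refine ⟨min l₁ 2, lt_min hl₁ (by norm_num), D,
    fun P hP hirr hdeg c l hl1 hl2 hr n x hx hx' => ?_⟩
  have hl3 : l ≤ 2 := hl2.trans (min_le_right _ _)
  have hl0 : 0 < l := by linarith
  obtain ⟨L, hL1, hL2, hL3, hL4⟩ := exists_field hP (M := 1) one_pos
  have : Fintype Gal(L/ℚ) := Fintype.ofFinite _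
  obtain ⟨xL, rfl⟩ : ∃ w : L, (w : ℂ) = x := ⟨⟨_, hL3 _ hx⟩, rfl⟩
  obtain ⟨yL, hyL⟩ : ∃ w : L, (w : ℂ) = 2 * n - xL := ⟨⟨_, hL3 _ hx'⟩, rfl⟩
  have hy : aeval (yL : ℂ) P = 0 := by rw [hyL]; exact hx'
  have h1 := hD P hP hirr hdeg c l hl1 (hl2.trans (min_le_left _ _)) hr L xL hx 0 (by simp)
  have h2 := hD P hP hirr hdeg c l hl1 (hl2.trans (min_le_left _ _)) hr L yL hy 0 (by simp)
  simp only [c1] at h1 h2
  have hval : ∀ (β : L), aeval (β : ℂ) P = 0 → ∀ g : Gal(L/ℚ),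
      2 * Real.cos (ang ((((g β : L) : ℂ).re - c) / l)) = (((g β : L) : ℂ).re - c) / l :=
    fun β hβ g => two_cos_ang ((conj_of_root L hP hl1 hr hβ).le g)
  simp only [hval xL hx] at h1
  simp only [hval yL hy] at h2
  have hsum : ∑ g : Gal(L/ℚ), (((g xL : L) : ℂ).re - c) / l +
      ∑ g : Gal(L/ℚ), (((g yL : L) : ℂ).re - c) / l =
      (Fintype.card Gal(L/ℚ) : ℝ) * (2 * (n - c) / l) := by
    rw [← sum_add_distrib, ← nsmul_eq_mul, ← card_univ, ← sum_const]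
    refine sum_congr rfl fun g _ => ?_
    have h3 : yL = 2 * n - xL := by
      apply Subtype.ext
      have h2c : ((2 : L) : ℂ) = 2 := map_ofNat (algebraMap L ℂ) 2
      rw [hyL]
      push_cast
      rw [h2c]
    have h4 : ((g yL : L) : ℂ).re = 2 * n - ((g xL : L) : ℂ).re := by
      have h2c : ((2 : L) : ℂ) = 2 := map_ofNat (algebraMap L ℂ) 2
      rw [h3, map_sub, map_mul, map_intCast, map_ofNat]
      push_cast
      rw [h2c]
      simp
    rw [h4]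
    field_simp
    ring
  have hN0 : (0 : ℝ) < Fintype.card Gal(L/ℚ) := by exact_mod_cast Fintype.card_pos
  have h3 : |(Fintype.card Gal(L/ℚ) : ℝ) * (2 * (n - c) / l)| ≤
      2 * δ * Fintype.card Gal(L/ℚ) := by
    rw [← hsum]
    refine (abs_add_le _ _).trans ?_
    linarith
  rw [abs_mul, abs_of_pos hN0, mul_comm] at h3
  have h4 := le_of_mul_le_mul_right h3 hN0
  rw [abs_div, abs_of_pos hl0, div_le_iff₀ hl0, abs_mul, abs_sub_comm, abs_two] at h4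
  nlinarith

/-- All but finitely many conjugate sets in an interval of length about four with two members
congruent modulo an integer at least two are symmetric about an integral centre. -/
theorem cong_local (a : ℝ) : ∃ ε : ℝ, 0 < ε ∧
    {C : Set ℝ | IsConjSet C ∧ C ⊆ Set.Icc (a - ε) (a + 4 + ε) ∧
      (∃ m : ℕ, 2 ≤ m ∧ ∃ x ∈ C, ∃ y ∈ C, x ≠ y ∧ IsIntegral ℤ ((x - y) / m)) ∧
      ¬ ((∃ n : ℤ, a = n) ∧ ∀ x ∈ C, 2 * (a + 2) - x ∈ C)}.Finite := by
  set c : ℝ := a + 2 with hc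
  set n : ℤ := round c with hn
  have hcn : |c - n| ≤ 1 / 2 := abs_sub_round c
  obtain ⟨l₀, hl₀, D, hD⟩ := cong_symm
  obtain ⟨l₁, hl₁, D₁, hD₁⟩ : ∃ l₁ : ℝ, 1 < l₁ ∧ ∃ D₁ : ℕ,
      ∀ (P : ℤ[X]), P.Monic → Irreducible P → D₁ ≤ P.natDegree → ∀ l : ℝ, 1 ≤ l → l ≤ l₁ →
      RealIn P c l → ∀ x : ℂ, aeval x P = 0 → aeval (2 * n - x) P = 0 → c = n := by
    by_cases h : c = n
    · exact ⟨2, by norm_num, 0, fun _ _ _ _ _ _ _ _ _ _ _ => h⟩
    · have hpos : 0 < |c - n| := abs_pos.mpr (sub_ne_zero.mpr h)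
      obtain ⟨l₁, hl₁, D₁, hD₁⟩ := symm_center (δ := |c - n| / 4) (by positivity)
      refine ⟨l₁, hl₁, D₁, fun P hP hirr hdeg l h1 h2 hr x hx hx' => ?_⟩
      have := hD₁ P hP hirr hdeg c l h1 h2 hr n x hx hx'
      linarith
  set ε : ℝ := min (min l₀ l₁) 2 - 1 with hε
  have hε0 : 0 < ε := by
    rw [hε]
    have : 1 < min (min l₀ l₁) 2 := lt_min (lt_min hl₀ hl₁) (by norm_num)
    linarith
  have hε1 : ε ≤ 1 := by
    rw [hε]
    have := min_le_right (min l₀ l₁) (2 : ℝ)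
    linarith
  have hl0' : 1 + ε / 2 ≤ l₀ := by
    have : min (min l₀ l₁) 2 ≤ l₀ := (min_le_left _ _).trans (min_le_left _ _)
    rw [hε] at hε0 ⊢
    linarith
  have hl1' : 1 + ε / 2 ≤ l₁ := by
    have : min (min l₀ l₁) 2 ≤ l₁ := (min_le_left _ _).trans (min_le_right _ _)
    rw [hε] at hε0 ⊢
    linarith
  refine ⟨ε, hε0, ?_⟩
  have hW := finite_low (max D D₁) (|c| + 4)
  refine hW.finite_subsets.subset ?_
  rintro C ⟨⟨P, hP, hirr, hreal, hCP⟩, hC, ⟨m, hm, x, hx, y, hy, hxy, hi⟩, hcon⟩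
  have hr : RealIn P c (1 + ε / 2) := by
    intro z hz
    obtain ⟨w, rfl⟩ := hreal z hz
    refine ⟨w, rfl, ?_⟩
    have h1 : w ∈ C := by
      rw [hCP, Set.mem_ofPred_eq]
      rw [aeval_ofReal] at hz
      exact_mod_cast hz
    have h2 := hC h1
    rw [Set.mem_Icc] at h2
    rw [abs_le]
    constructor <;> linarith [h2.1, h2.2]
  rcases Nat.lt_or_ge P.natDegree (max D D₁) with hdeg | hdeg
  · intro w hw
    rw [hCP, Set.mem_ofPred_eq] at hw
    refine ⟨P, hP, hdeg.le, fun z hz => ?_, hw⟩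
    obtain ⟨v, rfl, hv⟩ := hr z hz
    rw [Complex.norm_real, Real.norm_eq_abs]
    have h3 : |v| ≤ |v - c| + |c| := by
      have := abs_add_le (v - c) c
      rwa [sub_add_cancel] at this
    linarith
  · exfalso
    have hroot : ∀ w ∈ C, aeval (w : ℂ) P = 0 := by
      intro w hw
      rw [hCP, Set.mem_ofPred_eq] at hw
      rw [aeval_ofReal, hw, Complex.ofReal_zero]
    have hi' : IsIntegral ℤ (((x : ℂ) - (y : ℂ)) / m) := by
      have h1 : IsIntegral ℤ (algebraMap ℝ ℂ ((x - y) / m)) := hi.algebraMap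
      have h2 : algebraMap ℝ ℂ ((x - y) / m) = ((x : ℂ) - (y : ℂ)) / m := by
        simp
      rwa [h2] at h1
    have hsym := hD P hP hirr ((le_max_left _ _).trans hdeg) c (1 + ε / 2) (by linarith) hl0' hr
      n hcn m hm x y (by exact_mod_cast hxy) (hroot x hx) (hroot y hy) hi'
    have hcn' : c = n := hD₁ P hP hirr ((le_max_right _ _).trans hdeg) (1 + ε / 2)
      (by linarith) hl1' hr x (hroot x hx) (hsym x (hroot x hx))
    apply hcon
    refine ⟨⟨n - 2, by push_cast; linarith⟩, fun w hw => ?_⟩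
    have h1 := hsym w (hroot w hw)
    have h2 : (2 * (n : ℂ) - (w : ℂ)) = ((2 * c - w : ℝ) : ℂ) := by
      rw [hcn']
      push_cast
      ring
    rw [h2, aeval_ofReal] at h1
    rw [hCP, Set.mem_ofPred_eq]
    exact_mod_cast h1

end Run7.h55
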