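import Mathlib

/-!
# Moments of the arcsine law of `[c - 2, c + 2]`
-/

set_option autoImplicit false

open Finset

namespace Run7.h55

/-- `f` has an integer mean, up to the Chebyshev sums. -/
def MG (ν : ℤ) (f : ℝ → ℝ) : Prop :=
  ∃ n : ℕ, ∃ C : ℝ, 0 ≤ C ∧ ∀ (U : Type) [Fintype U] (θ : U → ℝ),
    |∑ u, f (θ u) - ν * Fintype.card U| ≤
      C * ∑ i ∈ range n, |∑ u, 2 * Real.cos (((i + 1 : ℕ) : ℝ) * θ u)|

lemma MG.add {ν ν' : ℤ} {f g : ℝ → ℝ} (hf : MG ν f) (hg : MG ν' g) :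
    MG (ν + ν') (fun θ => f θ + g θ) := by
  obtain ⟨n, C, hC, h⟩ := hf
  obtain ⟨n', C', hC', h'⟩ := hg
  refine ⟨max n n', C + C', by linarith, fun U _ θ => ?_⟩
  have h1 := h U θ
  have h2 := h' U θ
  have hm1 : ∑ i ∈ range n, |∑ u, 2 * Real.cos (((i + 1 : ℕ) : ℝ) * θ u)| ≤
      ∑ i ∈ range (max n n'), |∑ u, 2 * Real.cos (((i + 1 : ℕ) : ℝ) * θ u)| :=
    sum_le_sum_of_subset_of_nonneg (range_subset_range.mpr (le_max_left _ _))
      fun _ _ _ => abs_nonneg _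
  have hm2 : ∑ i ∈ range n', |∑ u, 2 * Real.cos (((i + 1 : ℕ) : ℝ) * θ u)| ≤
      ∑ i ∈ range (max n n'), |∑ u, 2 * Real.cos (((i + 1 : ℕ) : ℝ) * θ u)| :=
    sum_le_sum_of_subset_of_nonneg (range_subset_range.mpr (le_max_right _ _))
      fun _ _ _ => abs_nonneg _
  have h3 : ∑ u, (f (θ u) + g (θ u)) - ((ν + ν' : ℤ) : ℝ) * Fintype.card U =
      (∑ u, f (θ u) - ν * Fintype.card U) + (∑ u, g (θ u) - ν' * Fintype.card U) := by
    rw [sum_add_distrib]; push_cast; ring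
  rw [h3]
  refine (abs_add_le _ _).trans ?_
  have h4 := mul_le_mul_of_nonneg_left hm1 hC
  have h5 := mul_le_mul_of_nonneg_left hm2 hC'
  linarith

lemma MG.neg {ν : ℤ} {f : ℝ → ℝ} (hf : MG ν f) : MG (-ν) (fun θ => -f θ) := by
  obtain ⟨n, C, hC, h⟩ := hf
  refine ⟨n, C, hC, fun U _ θ => ?_⟩
  have h3 : ∑ u, -f (θ u) - ((-ν : ℤ) : ℝ) * Fintype.card U =
      -(∑ u, f (θ u) - ν * Fintype.card U) := by
    rw [sum_neg_distrib]; push_cast; ring
  rw [h3, abs_neg]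
  exact h U θ

lemma MG.one : MG 1 (fun _ => 1) := by
  refine ⟨0, 0, le_rfl, fun U _ θ => ?_⟩
  simp

lemma MG.zero : MG 0 (fun _ => 0) := by
  refine ⟨0, 0, le_rfl, fun U _ θ => ?_⟩
  simp

lemma MG.cheb (k : ℕ) : MG 0 (fun θ => 2 * Real.cos (((k + 1 : ℕ) : ℝ) * θ)) := by
  refine ⟨k + 1, 1, zero_le_one, fun U _ θ => ?_⟩
  rw [Int.cast_zero, zero_mul, sub_zero, one_mul]
  exact single_le_sum (f := fun i : ℕ => |∑ u, 2 * Real.cos (((i + 1 : ℕ) : ℝ) * θ u)|)
    (fun _ _ => abs_nonneg _) (self_mem_range_succ k)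

/-- The additive group spanned by `1` and the Chebyshev functions. -/
def chebSpan : AddSubgroup (ℝ → ℝ) :=
  AddSubgroup.closure ({fun _ => 1} ∪ Set.range fun k : ℕ => fun θ : ℝ =>
    2 * Real.cos (((k + 1 : ℕ) : ℝ) * θ))

lemma chebSpan_MG {f : ℝ → ℝ} (hf : f ∈ chebSpan) : ∃ ν : ℤ, MG ν f := by
  unfold chebSpan at hf
  induction hf using AddSubgroup.closure_induction with
  | mem x hx =>
    rcases hx with hx | ⟨k, rfl⟩
    · rw [Set.mem_singleton_iff] at hx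
      subst hx
      exact ⟨1, MG.one⟩
    · exact ⟨0, MG.cheb k⟩
  | zero => exact ⟨0, MG.zero⟩
  | add x y _ _ hx hy =>
    obtain ⟨ν, h⟩ := hx
    obtain ⟨ν', h'⟩ := hy
    exact ⟨ν + ν', h.add h'⟩
  | neg x _ hx =>
    obtain ⟨ν, h⟩ := hx
    exact ⟨-ν, h.neg⟩

lemma cheb_mem (k : ℕ) : (fun θ : ℝ => 2 * Real.cos (((k + 1 : ℕ) : ℝ) * θ)) ∈ chebSpan :=
  AddSubgroup.subset_closure (Or.inr ⟨k, rfl⟩)

lemma one_mem : (fun _ : ℝ => (1 : ℝ)) ∈ chebSpan :=
  AddSubgroup.subset_closure (Or.inl rfl)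

lemma chebSpan_mul {f : ℝ → ℝ} (hf : f ∈ chebSpan) :
    (fun θ => (2 * Real.cos θ) * f θ) ∈ chebSpan := by
  unfold chebSpan at hf
  induction hf using AddSubgroup.closure_induction with
  | mem x hx =>
    rcases hx with hx | ⟨k, rfl⟩
    · rw [Set.mem_singleton_iff] at hx
      subst hx
      have := cheb_mem 0
      simpa using this
    · have h1 : (fun θ : ℝ => (2 * Real.cos θ) * (2 * Real.cos (((k + 1 : ℕ) : ℝ) * θ))) =
          (fun θ : ℝ => 2 * Real.cos (((k + 1 + 1 : ℕ) : ℝ) * θ)) +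
          (fun θ : ℝ => 2 * Real.cos ((k : ℝ) * θ)) := by
        funext θ
        rw [Pi.add_apply]
        have h2 : ((k + 1 + 1 : ℕ) : ℝ) * θ = ((k + 1 : ℕ) : ℝ) * θ + θ := by push_cast; ring
        have h3 : (k : ℝ) * θ = ((k + 1 : ℕ) : ℝ) * θ - θ := by push_cast; ring
        rw [h2, h3, Real.cos_add, Real.cos_sub]
        ring
      rw [h1]
      refine add_mem (cheb_mem (k + 1)) ?_
      rcases k with _ | k
      · have h4 : (fun θ : ℝ => 2 * Real.cos (((0 : ℕ) : ℝ) * θ)) = (fun _ => 1) + (fun _ => 1) := by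
          funext θ
          simp
          norm_num
        rw [h4]
        exact add_mem one_mem one_mem
      · exact cheb_mem k
  | zero =>
    have : (fun θ : ℝ => (2 * Real.cos θ) * (0 : ℝ → ℝ) θ) = 0 := by funext θ; simp
    rw [this]
    exact zero_mem _
  | add x y _ _ hx hy =>
    have : (fun θ : ℝ => (2 * Real.cos θ) * (x + y) θ) =
        (fun θ : ℝ => (2 * Real.cos θ) * x θ) + (fun θ : ℝ => (2 * Real.cos θ) * y θ) := by
      funext θ; simp [mul_add]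
    rw [this]
    exact add_mem hx hy
  | neg x _ hx =>
    have : (fun θ : ℝ => (2 * Real.cos θ) * (-x) θ) = -(fun θ : ℝ => (2 * Real.cos θ) * x θ) := by
      funext θ; simp
    rw [this]
    exact neg_mem hx

lemma pow_mem_chebSpan (j : ℕ) : (fun θ : ℝ => (2 * Real.cos θ) ^ j) ∈ chebSpan := by
  induction j with
  | zero => simpa using one_mem
  | succ j ih =>
    have := chebSpan_mul ih
    have h : (fun θ : ℝ => (2 * Real.cos θ) ^ (j + 1)) =
        fun θ => (2 * Real.cos θ) * (2 * Real.cos θ) ^ j := by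
      funext θ; rw [pow_succ']
    rw [h]
    exact this

/-- The `j`-th moment of the arcsine law of `[-2, 2]`. -/
noncomputable def nu (j : ℕ) : ℤ := if j = 0 then 1 else (chebSpan_MG (pow_mem_chebSpan j)).choose

lemma nu_zero : nu 0 = 1 := by simp [nu]

lemma nu_spec (j : ℕ) : MG (nu j) (fun θ => (2 * Real.cos θ) ^ j) := by
  unfold nu
  split_ifs with h
  · subst h
    simpa using MG.one
  · exact (chebSpan_MG (pow_mem_chebSpan j)).choose_spec

/-- The `k`-th moment of the arcsine law of `[c - 2, c + 2]`. -/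
noncomputable def mom (k : ℕ) (c : ℝ) : ℝ :=
  ∑ j ∈ range (k + 1), (nu j : ℝ) * (c ^ (k - j) * (k.choose j : ℝ))

lemma mom_spec (k : ℕ) (A : ℝ) (_hA : 0 ≤ A) : ∃ n : ℕ, ∃ C : ℝ, 0 ≤ C ∧ ∀ c : ℝ, |c| ≤ A →
    ∀ (U : Type) [Fintype U] (θ : U → ℝ),
    |∑ u, (c + 2 * Real.cos (θ u)) ^ k - mom k c * Fintype.card U| ≤
      C * ∑ i ∈ range n, |∑ u, 2 * Real.cos (((i + 1 : ℕ) : ℝ) * θ u)| := by
  choose n C hC h using nu_spec
  refine ⟨(range (k + 1)).sup n, ∑ j ∈ range (k + 1), A ^ (k - j) * (k.choose j : ℝ) * C j,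
    sum_nonneg fun j _ => by have := hC j; positivity, fun c hc U _ θ => ?_⟩
  have h1 : ∑ u, (c + 2 * Real.cos (θ u)) ^ k - mom k c * Fintype.card U =
      ∑ j ∈ range (k + 1), c ^ (k - j) * (k.choose j : ℝ) *
        (∑ u, (2 * Real.cos (θ u)) ^ j - nu j * Fintype.card U) := by
    unfold mom
    have h2 : ∀ u, (c + 2 * Real.cos (θ u)) ^ k =
        ∑ j ∈ range (k + 1), c ^ (k - j) * (k.choose j : ℝ) * (2 * Real.cos (θ u)) ^ j := by
      intro u
      rw [add_comm, add_pow]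
      exact sum_congr rfl fun j _ => by ring
    simp_rw [h2]
    rw [sum_comm, sum_mul, ← sum_sub_distrib]
    refine sum_congr rfl fun j _ => ?_
    rw [← mul_sum]
    ring
  rw [h1]
  refine (abs_sum_le_sum_abs _ _).trans ?_
  rw [sum_mul]
  refine sum_le_sum fun j hj => ?_
  rw [abs_mul, abs_mul, abs_pow, Nat.abs_cast]
  have h3 : |c| ^ (k - j) ≤ A ^ (k - j) := pow_le_pow_left₀ (abs_nonneg _) hc _
  have h4 : ∑ i ∈ range (n j), |∑ u, 2 * Real.cos (((i + 1 : ℕ) : ℝ) * θ u)| ≤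
      ∑ i ∈ range ((range (k + 1)).sup n), |∑ u, 2 * Real.cos (((i + 1 : ℕ) : ℝ) * θ u)| :=
    sum_le_sum_of_subset_of_nonneg (range_subset_range.mpr (le_sup (f := n) hj))
      fun _ _ _ => abs_nonneg _
  have h5 : |∑ u, (2 * Real.cos (θ u)) ^ j - nu j * Fintype.card U| ≤
      C j * ∑ i ∈ range ((range (k + 1)).sup n), |∑ u, 2 * Real.cos (((i + 1 : ℕ) : ℝ) * θ u)| :=
    (h j U θ).trans (mul_le_mul_of_nonneg_left h4 (hC j))
  calc |c| ^ (k - j) * (k.choose j : ℝ) * |∑ u, (2 * Real.cos (θ u)) ^ j - nu j * Fintype.card U|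
      ≤ A ^ (k - j) * (k.choose j : ℝ) * (C j *
        ∑ i ∈ range ((range (k + 1)).sup n), |∑ u, 2 * Real.cos (((i + 1 : ℕ) : ℝ) * θ u)|) := by
        gcongr
    _ = _ := by ring

/-- If a positive integer `B` makes all `B * mom k c` integers then `c` is an integer. -/
lemma int_of_mom {c : ℝ} {B : ℕ} (hB : 0 < B) (h : ∀ k, ∃ n : ℤ, (B : ℝ) * mom k c = n) :
    ∃ n : ℤ, c = n := by
  have h1 : ∀ k, ∃ n : ℤ, (B : ℝ) * c ^ k = n := by
    intro k
    induction k using Nat.strong_induction_on with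
    | _ k ih =>
      obtain ⟨n, hn⟩ := h k
      unfold mom at hn
      rw [sum_range_succ', nu_zero] at hn
      simp only [Nat.choose_zero_right, Nat.sub_zero, Int.cast_one, one_mul, Nat.cast_one,
        mul_one] at hn
      have h2 : ∃ m : ℤ, (B : ℝ) * ∑ j ∈ range k, (nu (j + 1) : ℝ) *
          (c ^ (k - (j + 1)) * (k.choose (j + 1) : ℝ)) = m := by
        rw [mul_sum]
        have h3 : ∀ j ∈ range k, ∃ m : ℤ, (B : ℝ) * ((nu (j + 1) : ℝ) *
            (c ^ (k - (j + 1)) * (k.choose (j + 1) : ℝ))) = m := by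
          intro j hj
          rw [mem_range] at hj
          obtain ⟨m, hm⟩ := ih (k - (j + 1)) (by omega)
          refine ⟨nu (j + 1) * m * (k.choose (j + 1) : ℤ), ?_⟩
          push_cast
          rw [← hm]; ring
        choose! m hm using h3
        refine ⟨∑ j ∈ range k, m j, ?_⟩
        push_cast
        exact sum_congr rfl hm
      obtain ⟨m, hm⟩ := h2
      refine ⟨n - m, ?_⟩
      push_cast
      rw [← hn, ← hm]; ring
  -- `c` is rational
  obtain ⟨u, hu⟩ := h1 1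
  have hB' : (B : ℝ) ≠ 0 := by exact_mod_cast hB.ne'
  set q : ℚ := (u : ℚ) / B with hq
  have hcq : c = (q : ℝ) := by
    rw [hq]
    push_cast
    rw [eq_div_iff hB', ← hu]; ring
  have h2 : ∀ k, (q.den : ℕ) ^ k ∣ B := by
    intro k
    obtain ⟨n, hn⟩ := h1 k
    have h3 : (B : ℚ) * q ^ k = n := by
      have : ((B : ℚ) * q ^ k : ℚ) = ((n : ℚ) : ℚ) := by
        have h4 : (((B : ℚ) * q ^ k : ℚ) : ℝ) = ((n : ℚ) : ℝ) := by
          push_cast
          rw [← hcq, hn]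
        exact_mod_cast h4
      exact this
    have h5 : (B : ℤ) * q.num ^ k = n * (q.den : ℤ) ^ k := by
      have h6 : (q.den : ℚ) ^ k ≠ 0 := pow_ne_zero _ (by exact_mod_cast q.den_nz)
      have h7 : q ^ k = (q.num : ℚ) ^ k / (q.den : ℚ) ^ k := by
        rw [← div_pow, Rat.num_div_den]
      rw [h7, mul_div_assoc', div_eq_iff h6] at h3
      exact_mod_cast h3
    have h8 : ((q.den : ℤ) ^ k) ∣ (B : ℤ) * q.num ^ k := ⟨n, by rw [h5]; ring⟩
    have h9 : IsCoprime ((q.den : ℤ) ^ k) (q.num ^ k) := by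
      apply IsCoprime.pow
      rw [Int.isCoprime_iff_gcd_eq_one, Int.gcd_comm]
      exact q.reduced
    have h10 := h9.dvd_of_dvd_mul_right h8
    exact_mod_cast h10
  have hden : q.den = 1 := by
    by_contra hne
    have h3 : 2 ≤ q.den := by
      have := q.den_pos
      omega
    have h4 := Nat.le_of_dvd hB (h2 B)
    have h5 : B < 2 ^ B := Nat.lt_two_pow_self
    have h6 : 2 ^ B ≤ q.den ^ B := Nat.pow_le_pow_left h3 B
    omega
  refine ⟨q.num, ?_⟩
  rw [hcq]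
  have := Rat.den_eq_one_iff q |>.mp hden
  rw [← this]
  push_cast
  rfl

end Run7.h55
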