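import Pool.Agent.Run7.h55.Energy
import Pool.Agent.Run7.h55.Moments

/-!
# Relative equidistribution

Let a finite group `G` act on the conjugates of a totally real algebraic integer in an interval of
length four. The orbits of a subgroup of bounded index are close to the arcsine law.
-/

set_option autoImplicit false

open Finset

namespace Run7.h55

/-- The angle of a real number of `[-2, 2]`. -/
noncomputable def ang (x : ℝ) : ℝ := Real.arccos (x / 2)

lemma two_cos_ang {x : ℝ} (hx : |x| ≤ 2) : 2 * Real.cos (ang x) = x := by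
  unfold ang
  rw [abs_le] at hx
  rw [Real.cos_arccos (by linarith) (by linarith)]
  ring

open Classical in
lemma energy_avg {G U : Type} [Fintype G] [Fintype U] (x : G → U → ℝ)
    (hx : ∀ g u, |x g u| ≤ 2) (e : U → U → Prop) {η : ℝ} (hη : 0 ≤ η)
    (he : ∀ u u', ¬ e u u' → (∀ g, x g u ≠ x g u') ∧
      -(η * Fintype.card G) ≤ ∑ g, Real.log |x g u - x g u'|)
    {r : ℝ} (hr0 : 0 < r) (hr1 : r < 1) (k : ℕ) :
    ∑ g, r ^ (k + 1) / (2 * ((k + 1 : ℕ) : ℝ)) *
      (∑ u, 2 * Real.cos (((k + 1 : ℕ) : ℝ) * ang (x g u))) ^ 2 ≤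
    Fintype.card G * ((Fintype.card U : ℝ) ^ 2 * (-Real.log r + η) +
      ((univ : Finset (U × U)).filter fun p => e p.1 p.2).card * (-(2 * Real.log (1 - r)))) := by
  have hl1 : 0 ≤ -Real.log r := by
    have := Real.log_nonpos hr0.le hr1.le
    linarith
  have hl2 : 0 ≤ -(2 * Real.log (1 - r)) := by
    have := Real.log_nonpos (by linarith : (0 : ℝ) ≤ 1 - r) (by linarith)
    linarith
  calc ∑ g, r ^ (k + 1) / (2 * ((k + 1 : ℕ) : ℝ)) *
        (∑ u, 2 * Real.cos (((k + 1 : ℕ) : ℝ) * ang (x g u))) ^ 2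
      ≤ ∑ g, ∑ u, ∑ u', ker r (ang (x g u)) (ang (x g u')) :=
        sum_le_sum fun g _ => sum_ker_ge hr0.le hr1 _ k
    _ = ∑ u, ∑ u', ∑ g, ker r (ang (x g u)) (ang (x g u')) := by
        rw [sum_comm]
        refine sum_congr rfl fun u _ => ?_
        rw [sum_comm]
    _ ≤ ∑ u, ∑ u', (Fintype.card G * (-Real.log r + η) +
          (if e u u' then (Fintype.card G : ℝ) * (-(2 * Real.log (1 - r))) else 0)) := by
        refine sum_le_sum fun u _ => sum_le_sum fun u' _ => ?_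
        split_ifs with h
        · have h1 : ∑ g, ker r (ang (x g u)) (ang (x g u')) ≤
              ∑ _g : G, (-(2 * Real.log (1 - r))) := sum_le_sum fun g _ => ker_le hr0 hr1 _ _
          rw [sum_const, nsmul_eq_mul, card_univ] at h1
          have : 0 ≤ (Fintype.card G : ℝ) * (-Real.log r + η) := by positivity
          linarith
        · obtain ⟨h1, h2⟩ := he u u' h
          have h3 : ∑ g, ker r (ang (x g u)) (ang (x g u')) ≤
              ∑ g, (-Real.log r - Real.log |x g u - x g u'|) := by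
            refine sum_le_sum fun g _ => ?_
            have h4 := ker_le_of_ne hr0 hr1 (θ := ang (x g u)) (φ := ang (x g u'))
              (by rw [two_cos_ang (hx g u), two_cos_ang (hx g u')]; exact h1 g)
            rwa [two_cos_ang (hx g u), two_cos_ang (hx g u')] at h4
          rw [sum_sub_distrib, sum_const, nsmul_eq_mul, card_univ] at h3
          linarith
    _ = _ := by
        simp_rw [sum_add_distrib, sum_const]
        have h1 : ∑ u, ∑ u', (if e u u' then (Fintype.card G : ℝ) * (-(2 * Real.log (1 - r)))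
            else 0) = ((univ : Finset (U × U)).filter fun p => e p.1 p.2).card *
              ((Fintype.card G : ℝ) * (-(2 * Real.log (1 - r)))) := by
          rw [← sum_product', univ_product_univ, ← sum_filter, sum_const, nsmul_eq_mul]
        rw [h1, card_univ]
        simp only [nsmul_eq_mul]
        ring

/-- The hypotheses on the real conjugates `ρ g` of an algebraic integer, shifted by the centre. -/
structure Conj (G : Type) [Group G] [Fintype G] (S : Subgroup G) (ρ : G → ℝ) (η : ℝ) :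
    Prop where
  nonneg : 0 ≤ η
  le : ∀ g, |ρ g| ≤ 2
  eq : ∀ g, ∀ h ∈ S, ρ (g * h) = ρ g
  ne : ∀ h ∉ S, (∀ g, ρ g ≠ ρ (g * h)) ∧
    -(η * Fintype.card G) ≤ ∑ g, Real.log |ρ g - ρ (g * h)|

open Classical in
lemma card_pairs {G : Type} [Group G] [Fintype G] (U S : Subgroup G) [Fintype U] :
    ((univ : Finset (U × U)).filter fun p => (p.1 : G)⁻¹ * p.2 ∈ S).card ≤
      Fintype.card U * Fintype.card S := by
  have h1 : ((univ : Finset (U × U)).filter fun p => (p.1 : G)⁻¹ * p.2 ∈ S).card ≤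
      (univ : Finset (U × S)).card := by
    refine card_le_card_of_injOn
      (fun p => (p.1, if h : (p.1 : G)⁻¹ * p.2 ∈ S then ⟨_, h⟩ else 1)) (fun _ _ => by simp) ?_
    rintro ⟨a, b⟩ hab ⟨a', b'⟩ hab' heq
    simp only [coe_filter, Set.mem_ofPred_eq, mem_univ, true_and] at hab hab'
    simp only [Prod.mk.injEq] at heq
    obtain ⟨rfl, h2⟩ := heq
    rw [dif_pos hab, dif_pos hab', Subtype.mk.injEq] at h2
    have h3 := mul_left_cancel h2
    rw [Prod.mk.injEq]
    exact ⟨rfl, Subtype.ext h3⟩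
  refine h1.trans ?_
  rw [card_univ, Fintype.card_prod]

open Classical in
lemma rel_bound {G : Type} [Group G] [Fintype G] {S : Subgroup G} {ρ : G → ℝ} {η : ℝ}
    (h : Conj G S ρ η) (U : Subgroup G) [Fintype U] {r : ℝ} (hr0 : 0 < r) (hr1 : r < 1) (k : ℕ) (g₀ : G) :
    r ^ (k + 1) / (2 * ((k + 1 : ℕ) : ℝ)) *
      (∑ u : U, 2 * Real.cos (((k + 1 : ℕ) : ℝ) * ang (ρ (g₀ * u)))) ^ 2 ≤
    Fintype.card G * ((Fintype.card U : ℝ) * (-Real.log r + η) +
      (Fintype.card S : ℝ) * (-(2 * Real.log (1 - r)))) := by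
  have hl2 : 0 ≤ -(2 * Real.log (1 - r)) := by
    have := Real.log_nonpos (by linarith : (0 : ℝ) ≤ 1 - r) (by linarith)
    linarith
  have h1 := energy_avg (G := G) (U := U) (fun g u => ρ (g * u)) (fun g u => h.le _)
    (fun u u' => (u : G)⁻¹ * u' ∈ S) h.nonneg ?_ hr0 hr1 k
  · set F : G → ℝ := fun g => r ^ (k + 1) / (2 * ((k + 1 : ℕ) : ℝ)) *
      (∑ u : U, 2 * Real.cos (((k + 1 : ℕ) : ℝ) * ang (ρ (g * u)))) ^ 2 with hF
    have hFnn : ∀ g, 0 ≤ F g := fun g => by rw [hF]; positivity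
    have hFc : ∀ v : U, F (g₀ * v) = F g₀ := by
      intro v
      simp only [hF]
      congr 2
      refine Fintype.sum_equiv (Equiv.mulLeft v) _ _ fun u => ?_
      simp [mul_assoc]
    have h2 : (Fintype.card U : ℝ) * F g₀ ≤ ∑ g, F g := by
      calc (Fintype.card U : ℝ) * F g₀ = ∑ v : U, F (g₀ * v) := by
            rw [sum_congr rfl fun v _ => hFc v, sum_const, nsmul_eq_mul, card_univ]
        _ = ∑ g ∈ Finset.map ⟨fun v : U => g₀ * (v : G), fun a b hab =>
              Subtype.ext (mul_left_cancel hab)⟩ univ, F g := by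
            rw [sum_map]
            rfl
        _ ≤ ∑ g, F g := sum_le_univ_sum_of_nonneg hFnn
    have h3 : (((univ : Finset (U × U)).filter fun p => (p.1 : G)⁻¹ * p.2 ∈ S).card : ℝ) ≤
        (Fintype.card U : ℝ) * Fintype.card S := by
      exact_mod_cast card_pairs U S
    have hU : (0 : ℝ) < Fintype.card U := by exact_mod_cast Fintype.card_pos
    have h4 : (Fintype.card U : ℝ) * F g₀ ≤ (Fintype.card U : ℝ) *
        (Fintype.card G * ((Fintype.card U : ℝ) * (-Real.log r + η) +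
          (Fintype.card S : ℝ) * (-(2 * Real.log (1 - r))))) := by
      refine (h2.trans h1).trans ?_
      have h5 := mul_le_mul_of_nonneg_right h3 hl2
      have hG : (0 : ℝ) ≤ Fintype.card G := by positivity
      have h6 := mul_le_mul_of_nonneg_left h5 hG
      nlinarith
    exact le_of_mul_le_mul_left h4 hU
  · intro u u' hne
    obtain ⟨h5, h6⟩ := h.ne _ hne
    constructor
    · intro g
      have := h5 (g * u)
      rwa [mul_assoc, mul_inv_cancel_left] at this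
    · have : ∑ g, Real.log |ρ (g * (u : G)) - ρ (g * (u' : G))| =
          ∑ g, Real.log |ρ g - ρ (g * ((u : G)⁻¹ * u'))| := by
        refine Fintype.sum_equiv (Equiv.mulRight (u : G)) _ _ fun g => ?_
        rw [Equiv.coe_mulRight, mul_assoc g, mul_inv_cancel_left]
      rw [this]
      exact h6

open Classical in
/-- Chebyshev sums over cosets of subgroups of bounded index are small. -/
lemma rel_small (k R : ℕ) {ε : ℝ} (hε : 0 < ε) : ∃ η₀ : ℝ, 0 < η₀ ∧ ∃ D : ℕ,
    ∀ (G : Type) [Group G] [Fintype G]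
    (S U : Subgroup G) [Fintype U] (ρ : G → ℝ) (η : ℝ), η ≤ η₀ → Conj G S ρ η → Nat.card G ≤ R * Nat.card U →
    D * Nat.card S ≤ Nat.card G → ∀ g₀ : G,
    |∑ u : U, 2 * Real.cos (((k + 1 : ℕ) : ℝ) * ang (ρ (g₀ * u)))| ≤ ε * Nat.card U := by
  -- choice of `r`
  obtain ⟨r, hr0, hr1, hr⟩ : ∃ r : ℝ, 0 < r ∧ r < 1 ∧
      (2 * ((k + 1 : ℕ) : ℝ)) * (R * (-Real.log r)) < r ^ (k + 1) * (ε ^ 2 / 2) := by
    have hcont : ContinuousAt (fun r : ℝ => r ^ (k + 1) * (ε ^ 2 / 2) -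
        (2 * ((k + 1 : ℕ) : ℝ)) * (R * (-Real.log r))) 1 := by
      have : ContinuousAt Real.log 1 := Real.continuousAt_log one_ne_zero
      fun_prop
    have hpos : 0 < (1 : ℝ) ^ (k + 1) * (ε ^ 2 / 2) -
        (2 * ((k + 1 : ℕ) : ℝ)) * (R * (-Real.log 1)) := by
      rw [Real.log_one]; simp; positivity
    have hev := hcont.eventually (lt_mem_nhds hpos)
    obtain ⟨δ, hδ, hball⟩ := Metric.eventually_nhds_iff.mp hev
    refine ⟨max (1 / 2) (1 - δ / 2), lt_of_lt_of_le (by norm_num) (le_max_left _ _),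
      max_lt (by norm_num) (by linarith), ?_⟩
    have h1 : dist (max (1 / 2) (1 - δ / 2)) 1 < δ := by
      rw [Real.dist_eq, abs_lt]
      constructor
      · have := le_max_right (1 / 2 : ℝ) (1 - δ / 2)
        linarith
      · have : max (1 / 2 : ℝ) (1 - δ / 2) < 1 := max_lt (by norm_num) (by linarith)
        linarith
    have := hball h1
    linarith
  -- choice of `η₀`
  obtain ⟨η₀, hη₀, hr⟩ : ∃ η₀ : ℝ, 0 < η₀ ∧ (2 * ((k + 1 : ℕ) : ℝ)) *
      (R * (-Real.log r + η₀)) ≤ r ^ (k + 1) * (ε ^ 2 / 2) := by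
    set gap := r ^ (k + 1) * (ε ^ 2 / 2) - (2 * ((k + 1 : ℕ) : ℝ)) * (R * (-Real.log r)) with hgap
    have hgap0 : 0 < gap := by rw [hgap]; linarith
    refine ⟨gap / (2 * ((k + 1 : ℕ) : ℝ) * (R + 1)), by positivity, ?_⟩
    have h1 : (2 * ((k + 1 : ℕ) : ℝ)) * (R * (gap / (2 * ((k + 1 : ℕ) : ℝ) * (R + 1)))) =
        (R / (R + 1)) * gap := by
      field_simp
    have h2 : (R : ℝ) / (R + 1) ≤ 1 := by rw [div_le_one (by positivity)]; linarith
    have h3 : (R : ℝ) / (R + 1) * gap ≤ gap := by nlinarith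
    calc (2 * ((k + 1 : ℕ) : ℝ)) * (R * (-Real.log r + gap / (2 * ((k + 1 : ℕ) : ℝ) * (R + 1))))
        = (2 * ((k + 1 : ℕ) : ℝ)) * (R * (-Real.log r)) +
          (2 * ((k + 1 : ℕ) : ℝ)) * (R * (gap / (2 * ((k + 1 : ℕ) : ℝ) * (R + 1)))) := by ring
      _ ≤ (2 * ((k + 1 : ℕ) : ℝ)) * (R * (-Real.log r)) + gap := by rw [h1]; linarith
      _ = _ := by rw [hgap]; ring
  -- choice of `D`
  obtain ⟨D, hD⟩ := exists_nat_gt ((2 * ((k + 1 : ℕ) : ℝ)) * (R * (R * (-(2 * Real.log (1 - r))))) /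
    (r ^ (k + 1) * (ε ^ 2 / 2)))
  refine ⟨η₀, hη₀, D, fun G _ _ S U _ ρ η hη h hU hS g₀ => ?_⟩
  have hηnn := h.nonneg
  have hl1 : 0 ≤ -Real.log r := by
    have := Real.log_nonpos hr0.le hr1.le
    linarith
  have hl2 : 0 ≤ -(2 * Real.log (1 - r)) := by
    have := Real.log_nonpos (by linarith : (0 : ℝ) ≤ 1 - r) (by linarith)
    linarith
  have hrk : 0 < r ^ (k + 1) := by positivity
  have h1 := rel_bound h U hr0 hr1 k g₀
  rw [← Nat.card_eq_fintype_card, ← Nat.card_eq_fintype_card, ← Nat.card_eq_fintype_card] at h1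
  set X := ∑ u : U, 2 * Real.cos (((k + 1 : ℕ) : ℝ) * ang (ρ (g₀ * u))) with hX
  have hUpos : (0 : ℝ) < Nat.card U := by exact_mod_cast Nat.card_pos
  have hGU : (Nat.card G : ℝ) ≤ R * Nat.card U := by exact_mod_cast hU
  have hSG : (D : ℝ) * Nat.card S ≤ Nat.card G := by exact_mod_cast hS
  have hK : (0 : ℝ) < 2 * ((k + 1 : ℕ) : ℝ) := by positivity
  have h2 : r ^ (k + 1) * X ^ 2 ≤ 2 * ((k + 1 : ℕ) : ℝ) * (Nat.card G *
      ((Nat.card U : ℝ) * (-Real.log r + η) + (Nat.card S : ℝ) * (-(2 * Real.log (1 - r))))) := by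
    have : r ^ (k + 1) / (2 * ((k + 1 : ℕ) : ℝ)) * X ^ 2 = r ^ (k + 1) * X ^ 2 /
        (2 * ((k + 1 : ℕ) : ℝ)) := by ring
    rw [this, div_le_iff₀ hK] at h1
    linarith
  -- first part
  have h3 : 2 * ((k + 1 : ℕ) : ℝ) * (Nat.card G * ((Nat.card U : ℝ) * (-Real.log r + η))) ≤
      r ^ (k + 1) * (ε ^ 2 / 2) * (Nat.card U : ℝ) ^ 2 := by
    calc 2 * ((k + 1 : ℕ) : ℝ) * (Nat.card G * ((Nat.card U : ℝ) * (-Real.log r + η)))
        ≤ 2 * ((k + 1 : ℕ) : ℝ) * ((R * Nat.card U) * ((Nat.card U : ℝ) *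
          (-Real.log r + η₀))) := by
          gcongr
      _ = (2 * ((k + 1 : ℕ) : ℝ)) * (R * (-Real.log r + η₀)) * (Nat.card U : ℝ) ^ 2 := by ring
      _ ≤ _ := by gcongr
  have h4 : 2 * ((k + 1 : ℕ) : ℝ) * (Nat.card G * ((Nat.card S : ℝ) * (-(2 * Real.log (1 - r))))) ≤
      r ^ (k + 1) * (ε ^ 2 / 2) * (Nat.card U : ℝ) ^ 2 := by
    have hDpos : 0 < (D : ℝ) := lt_of_le_of_lt (by positivity) hD
    rw [div_lt_iff₀ (by positivity)] at hD
    have h5 : (Nat.card S : ℝ) ≤ Nat.card G / D := by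
      rw [le_div_iff₀ hDpos]; linarith
    calc 2 * ((k + 1 : ℕ) : ℝ) * (Nat.card G * ((Nat.card S : ℝ) * (-(2 * Real.log (1 - r)))))
        ≤ 2 * ((k + 1 : ℕ) : ℝ) * ((R * Nat.card U) * (((R * Nat.card U) / D) *
          (-(2 * Real.log (1 - r))))) := by
          have : (Nat.card S : ℝ) ≤ (R * Nat.card U) / D :=
            h5.trans (div_le_div_of_nonneg_right hGU hDpos.le)
          gcongr
      _ = ((2 * ((k + 1 : ℕ) : ℝ)) * (R * (R * (-(2 * Real.log (1 - r)))))) / D *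
          (Nat.card U : ℝ) ^ 2 := by ring
      _ ≤ _ := by
          gcongr
          rw [div_le_iff₀ hDpos]
          linarith
  have h5 : r ^ (k + 1) * X ^ 2 ≤ r ^ (k + 1) * (ε * Nat.card U) ^ 2 := by
    nlinarith
  have h6 : X ^ 2 ≤ (ε * Nat.card U) ^ 2 := le_of_mul_le_mul_left h5 hrk
  exact abs_le_of_sq_le_sq h6 (by positivity)

lemma exists_pos_le (e : ℕ → ℝ) (he : ∀ i, 0 < e i) (n : ℕ) :
    ∃ η₀ : ℝ, 0 < η₀ ∧ ∀ i ∈ range n, η₀ ≤ e i := by
  induction n with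
  | zero => exact ⟨1, one_pos, by simp⟩
  | succ n ih =>
    obtain ⟨x, hx, h⟩ := ih
    refine ⟨min x (e n), lt_min hx (he n), fun i hi => ?_⟩
    rcases (Nat.lt_succ_iff_lt_or_eq.mp (mem_range.mp hi)) with h1 | rfl
    · exact (min_le_left _ _).trans (h i (mem_range.mpr h1))
    · exact min_le_right _ _

open Classical in
/-- Moments over cosets of subgroups of bounded index. -/
lemma rel_mom (k R : ℕ) (A : ℝ) (hA : 0 ≤ A) {ε : ℝ} (hε : 0 < ε) : ∃ η₀ : ℝ, 0 < η₀ ∧
    ∃ D : ℕ, ∀ (G : Type) [Group G] [Fintype G]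
    (S U : Subgroup G) [Fintype U] (ρ : G → ℝ) (η : ℝ), η ≤ η₀ → Conj G S ρ η → Nat.card G ≤ R * Nat.card U →
    D * Nat.card S ≤ Nat.card G → ∀ c : ℝ, |c| ≤ A → ∀ g₀ : G,
    |∑ u : U, (c + ρ (g₀ * u)) ^ k - mom k c * Nat.card U| ≤ ε * Nat.card U := by
  obtain ⟨n, C, hC, h⟩ := mom_spec k A hA
  have hη : 0 < ε / ((C + 1) * (n + 1)) := by positivity
  choose e he D hD using fun i : ℕ => rel_small i R hη
  obtain ⟨η₀, hη₀, hη₀'⟩ := exists_pos_le e he n
  refine ⟨η₀, hη₀, ∑ i ∈ range n, D i, fun G _ _ S U _ ρ η hηη hc hU hS c hcA g₀ => ?_⟩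
  have h1 := h c hcA U (fun u => ang (ρ (g₀ * u)))
  have h2 : ∀ u : U, 2 * Real.cos (ang (ρ (g₀ * u))) = ρ (g₀ * u) := fun u =>
    two_cos_ang (hc.le _)
  simp only [h2] at h1
  rw [← Nat.card_eq_fintype_card] at h1
  refine h1.trans ?_
  have h3 : ∀ i ∈ range n, |∑ u : U, 2 * Real.cos (((i + 1 : ℕ) : ℝ) * ang (ρ (g₀ * u)))| ≤
      ε / ((C + 1) * (n + 1)) * Nat.card U := by
    intro i hi
    refine hD i G S U ρ η (hηη.trans (hη₀' i hi)) hc hU ?_ g₀
    refine (Nat.mul_le_mul_right _ ?_).trans hS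
    exact single_le_sum (f := D) (fun _ _ => Nat.zero_le _) hi
  have h4 := sum_le_sum h3
  rw [sum_const, card_range, nsmul_eq_mul] at h4
  refine (mul_le_mul_of_nonneg_left h4 hC).trans ?_
  have h5 : C * (n * (ε / ((C + 1) * (n + 1)) * Nat.card U)) =
      (C / (C + 1)) * ((n : ℝ) / (n + 1)) * (ε * Nat.card U) := by
    field_simp
  rw [h5]
  have h6 : C / (C + 1) ≤ 1 := by rw [div_le_one (by positivity)]; linarith
  have h7 : (n : ℝ) / (n + 1) ≤ 1 := by rw [div_le_one (by positivity)]; linarith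
  have h8 : C / (C + 1) * ((n : ℝ) / (n + 1)) ≤ 1 := by
    calc C / (C + 1) * ((n : ℝ) / (n + 1)) ≤ 1 * 1 := by gcongr
      _ = 1 := one_mul 1
  calc C / (C + 1) * ((n : ℝ) / (n + 1)) * (ε * Nat.card U) ≤ 1 * (ε * Nat.card U) := by gcongr
    _ = _ := one_mul _

end Run7.h55
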