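import Pool.Agent.Helper781.CycHouse.House

/-!
# Conjugate orbits of tuples of roots of unity along a sequence
-/

set_option autoImplicit false

open Finset Filter
open Pool.Agent.Helper781.CycHouse

namespace Run7.h55

lemma unitsOver_nonempty {N Q : ℕ} [NeZero N] (hQN : Q ∣ N) (c : (ZMod Q)ˣ) :
    (unitsOver hQN c).Nonempty := by
  obtain ⟨u, hu⟩ := ZMod.unitsMap_surjective hQN c
  exact ⟨u, mem_unitsOver.mpr hu⟩

lemma pow_over {N Q : ℕ} [NeZero N] {hQN : Q ∣ N} {a : ℕ} (ha : a.Coprime Q) {u : (ZMod N)ˣ}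
    (hu : u ∈ unitsOver hQN (ZMod.unitOfCoprime a ha)) {τ : ℂ} (hτ : τ ^ Q = 1) :
    τ ^ (u : ZMod N).val = τ ^ a := by
  rw [mem_unitsOver] at hu
  have h1 := congrArg (fun x : (ZMod Q)ˣ => (x : ZMod Q)) hu
  simp only [ZMod.unitsMap_def, Units.coe_map, ZMod.coe_unitOfCoprime] at h1
  have h2 : (((u : ZMod N).val : ℕ) : ZMod Q) = (a : ZMod Q) := by
    rw [← h1]
    conv_rhs => rw [← ZMod.natCast_zmod_val (u : ZMod N)]
    exact (map_natCast (ZMod.castHom hQN (ZMod Q)) _).symm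
  rw [ZMod.natCast_eq_natCast_iff] at h2
  rw [pow_eq_pow_mod _ hτ, h2, ← pow_eq_pow_mod _ hτ]

lemma mono_pow' {k : ℕ} (z : Fin k → ℂ) (m : Fin k → ℤ) (u : ℕ) :
    mono (fun j => z j ^ u) m = mono z m ^ u := by
  unfold mono
  rw [← prod_pow]
  refine prod_congr rfl fun j _ => ?_
  show (z j ^ u) ^ m j = (z j ^ m j) ^ u
  rw [← zpow_natCast, ← zpow_natCast, ← zpow_mul, ← zpow_mul, mul_comm]

lemma mono_mul' {k : ℕ} (z w : Fin k → ℂ) (m : Fin k → ℤ) :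
    mono (fun j => z j * w j) m = mono z m * mono w m := by
  unfold mono
  rw [← prod_mul_distrib]
  exact prod_congr rfl fun j _ => mul_zpow _ _ _

lemma mono_inv' {k : ℕ} (z : Fin k → ℂ) (m : Fin k → ℤ) :
    mono (fun j => (z j)⁻¹) m = (mono z m)⁻¹ := by
  unfold mono
  rw [← prod_inv_distrib]
  exact prod_congr rfl fun j _ => inv_zpow _ _

lemma fejer (m : ℕ) {w : ℂ} (hw : w ≠ 0) : ((1 + w) ^ 2 * w⁻¹ / 4) ^ m =
    ∑ i ∈ range (2 * m + 1), (((2 * m).choose i : ℝ) / 4 ^ m : ℝ) * w ^ ((i : ℤ) - m) := by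
  have h1 : ((1 + w) ^ 2 * w⁻¹ / 4) ^ m = (w + 1) ^ (2 * m) * (w ^ m)⁻¹ / 4 ^ m := by
    rw [div_pow, mul_pow, inv_pow, ← pow_mul, add_comm]
  rw [h1, add_pow, sum_mul, sum_div]
  refine sum_congr rfl fun i _ => ?_
  rw [zpow_sub₀ hw, zpow_natCast, zpow_natCast]
  push_cast
  rw [one_pow]
  field_simp

lemma fejer_val {w : ℂ} (hw : ‖w‖ = 1) :
    (1 + w) ^ 2 * w⁻¹ / 4 = ((1 - ‖w - 1‖ ^ 2 / 4 : ℝ) : ℂ) := by
  have h1 : w⁻¹ = starRingEnd ℂ w := by
    rw [Complex.inv_def, Complex.normSq_eq_norm_sq, hw]; simp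
  have h2 : ((‖w - 1‖ ^ 2 : ℝ) : ℂ) = (w - 1) * starRingEnd ℂ (w - 1) := by
    rw [Complex.mul_conj, Complex.normSq_eq_norm_sq]
  have h3 : w * starRingEnd ℂ w = 1 := by
    rw [Complex.mul_conj, Complex.normSq_eq_norm_sq, hw]; simp
  have h4 : ((1 - ‖w - 1‖ ^ 2 / 4 : ℝ) : ℂ) = 1 - ((‖w - 1‖ ^ 2 : ℝ) : ℂ) / 4 := by push_cast; ring
  rw [h4, h2, h1, map_sub, map_one]
  linear_combination ((2 + w) / 4 + 1 / 4) * h3

lemma norm_of_pow {N : ℕ} (hN : 0 < N) {x : ℂ} (h : x ^ N = 1) : ‖x‖ = 1 :=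
  Complex.norm_eq_one_of_pow_eq_one h hN.ne'

/-- The conjugates of a tuple of roots of unity come close to the conjugates of the first one. -/
lemma dense_orbit {R : ℕ} (t : ℕ → Fin R → ℂ) (M : ℕ → ℕ) (hM : ∀ n, 0 < M n)
    (ht : ∀ n j, t n j ^ M n = 1) {Q : ℕ} (hQ : 0 < Q) (hQM : ∀ n, Q ∣ M n)
    (L : Submodule ℤ (Fin R → ℤ)) (s : Fin R → ℂ) (hs : ∀ j, s j ^ Q = 1)
    (h1 : ∀ m ∈ L, ∀ n, mono (t n) m = mono s m)
    (h2 : ∀ m ∉ L, ∀ C, ∀ᶠ n in atTop, C < orderOf (mono (t n) m))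
    {a : ℕ} (ha : a.Coprime Q) {δ : ℝ} (hδ : 0 < δ) :
    ∀ᶠ n in atTop, ∃ u : ℕ, u.Coprime (M n) ∧ ∀ j, ‖t n j ^ u - s j ^ a‖ < δ := by
  wlog hδ1 : δ ≤ 1 generalizing δ
  · have h3 := this one_pos le_rfl
    filter_upwards [h3] with n hn
    obtain ⟨u, hu, h4⟩ := hn
    exact ⟨u, hu, fun j => (h4 j).trans (not_le.mp hδ1)⟩
  set q : ℝ := 1 - δ ^ 2 / 4 with hq
  have hq0 : 0 < q := by rw [hq]; nlinarith
  have hq1 : q < 1 := by rw [hq]; nlinarith [sq_nonneg δ, pow_pos hδ 2]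
  -- choice of `m`
  obtain ⟨m, hm⟩ : ∃ m : ℕ, q ^ m < (1 / (2 * m + 1 : ℝ)) ^ R / 2 := by
    have h3 := tendsto_pow_const_mul_const_pow_of_abs_lt_one R
      (show |q| < 1 by rw [abs_of_pos hq0]; exact hq1)
    have h4 := (h3.eventually (gt_mem_nhds (show (0 : ℝ) < 1 / (2 * 3 ^ R) by positivity))).and
      (eventually_ge_atTop 1)
    obtain ⟨m, hm, hm1⟩ := h4.exists
    refine ⟨m, ?_⟩
    have hm1' : (1 : ℝ) ≤ m := by exact_mod_cast hm1
    have h5 : (2 * m + 1 : ℝ) ^ R ≤ (3 * m) ^ R := pow_le_pow_left₀ (by positivity) (by linarith) R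
    rw [div_pow, one_pow, div_div, lt_div_iff₀ (by positivity)]
    rw [lt_div_iff₀ (by positivity)] at hm
    rw [mul_pow] at h5
    calc q ^ m * ((2 * m + 1) ^ R * 2) ≤ q ^ m * ((3 ^ R * m ^ R) * 2) := by gcongr
      _ = (m : ℝ) ^ R * q ^ m * (2 * 3 ^ R) := by ring
      _ < 1 := hm
  set c : ℕ → ℝ := fun i => ((2 * m).choose i : ℝ) / 4 ^ m with hc
  have hc0 : ∀ i, 0 ≤ c i := fun i => by rw [hc]; positivity
  have hcsum : ∑ i ∈ range (2 * m + 1), c i = 1 := by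
    rw [hc, ← sum_div, div_eq_one_iff_eq (by positivity)]
    have := Nat.sum_range_choose (2 * m)
    rw [pow_mul] at this
    exact_mod_cast this
  have hcm : 1 / (2 * m + 1 : ℝ) ≤ c m := by
    rw [hc, div_le_div_iff₀ (by positivity) (by positivity)]
    have := Nat.four_pow_le_two_mul_add_one_mul_central_binom m
    have h3 : ((4 ^ m : ℕ) : ℝ) ≤ (((2 * m + 1) * (2 * m).choose m : ℕ) : ℝ) := by
      exact_mod_cast this
    push_cast at h3
    linarith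
  set ε : ℝ := (1 / (2 * m + 1 : ℝ)) ^ R / 2 with hε
  have hε0 : 0 < ε := by positivity
  -- the indices
  set I := Fintype.piFinset fun _ : Fin R => range (2 * m + 1) with hI
  set μ : (Fin R → ℕ) → Fin R → ℤ := fun i j => (i j : ℤ) - m with hμ
  obtain ⟨C, hC⟩ := avg_small ε hε0 Q hQ
  have h3 : ∀ᶠ n in atTop, ∀ i ∈ I, μ i ∉ L → C < orderOf (mono (t n) (μ i)) := by
    rw [Finset.eventually_all]
    intro i _
    by_cases h : μ i ∈ L
    · exact Eventually.of_forall fun n hn => absurd h hn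
    · filter_upwards [h2 _ h C] with n hn _ using hn
  filter_upwards [h3] with n hn
  by_contra hcon
  push Not at hcon
  have : NeZero (M n) := ⟨(hM n).ne'⟩
  set A := unitsOver (hQM n) (ZMod.unitOfCoprime a ha) with hA
  have hAne : (0 : ℝ) < A.card := by
    exact_mod_cast (unitsOver_nonempty (hQM n) (ZMod.unitOfCoprime a ha)).card_pos
  have ht0 : ∀ j, t n j ≠ 0 := fun j => ne_zero_of_pow (hM n) (ht n j)
  have hs0 : ∀ j, s j ≠ 0 := fun j => ne_zero_of_pow hQ (hs j)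
  set w : (ZMod (M n))ˣ → Fin R → ℂ := fun u j =>
    t n j ^ (u : ZMod (M n)).val * (s j ^ a)⁻¹ with hw
  have hwn : ∀ u j, ‖w u j‖ = 1 := by
    intro u j
    rw [hw]
    simp only [norm_mul, norm_inv, norm_pow]
    rw [norm_of_pow (hM n) (ht n j), norm_of_pow hQ (hs j)]
    simp
  have hw0 : ∀ u j, w u j ≠ 0 := fun u j h => by
    have := hwn u j
    rw [h, norm_zero] at this
    exact zero_ne_one this
  have hmono : ∀ u m', mono (w u) m' = mono (t n) m' ^ (u : ZMod (M n)).val *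
      (mono s m' ^ a)⁻¹ := by
    intro u m'
    rw [hw]
    simp only
    rw [mono_mul' (fun j => t n j ^ (u : ZMod (M n)).val) (fun j => (s j ^ a)⁻¹), mono_pow',
      mono_inv' (fun j => s j ^ a), mono_pow']
  -- expansion
  have hexp : ∀ u, ((∏ j, (1 - ‖w u j - 1‖ ^ 2 / 4) ^ m : ℝ) : ℂ) =
      ∑ i ∈ I, ((∏ j, c (i j) : ℝ) : ℂ) * mono (w u) (μ i) := by
    intro u
    have h4 : ((∏ j, (1 - ‖w u j - 1‖ ^ 2 / 4) ^ m : ℝ) : ℂ) =
        ∏ j, ∑ i ∈ range (2 * m + 1), ((c i : ℝ) : ℂ) * w u j ^ ((i : ℤ) - m) := by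
      rw [Complex.ofReal_prod]
      refine prod_congr rfl fun j _ => ?_
      rw [Complex.ofReal_pow, ← fejer_val (hwn u j), fejer m (hw0 u j)]
    rw [h4, prod_univ_sum]
    refine sum_congr rfl fun i _ => ?_
    rw [prod_mul_distrib, Complex.ofReal_prod]
    rfl
  -- upper bound
  have hup : ∀ u ∈ A, (∏ j, (1 - ‖w u j - 1‖ ^ 2 / 4) ^ m : ℝ) ≤ q ^ m := by
    intro u _
    obtain ⟨j, hj⟩ := hcon (u : ZMod (M n)).val (ZMod.val_coe_unit_coprime u)
    have h5 : ∀ i, 0 ≤ (1 - ‖w u i - 1‖ ^ 2 / 4) ∧ (1 - ‖w u i - 1‖ ^ 2 / 4) ≤ 1 := by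
      intro i
      have h6 : ‖w u i - 1‖ ≤ 2 := by
        calc ‖w u i - 1‖ ≤ ‖w u i‖ + ‖(1 : ℂ)‖ := norm_sub_le _ _
          _ = 2 := by rw [hwn, norm_one]; norm_num
      have h7 := norm_nonneg (w u i - 1)
      constructor
      · nlinarith
      · nlinarith [sq_nonneg ‖w u i - 1‖]
    rw [← mul_prod_erase univ _ (mem_univ j)]
    have h6 : ∏ i ∈ univ.erase j, (1 - ‖w u i - 1‖ ^ 2 / 4) ^ m ≤ 1 :=
      prod_le_one (fun i _ => pow_nonneg (h5 i).1 m) (fun i _ => pow_le_one₀ (h5 i).1 (h5 i).2)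
    have h7 : 1 - ‖w u j - 1‖ ^ 2 / 4 ≤ q := by
      have h8 : δ ≤ ‖w u j - 1‖ := by
        have h9 : w u j - 1 = (t n j ^ (u : ZMod (M n)).val - s j ^ a) * (s j ^ a)⁻¹ := by
          rw [sub_mul, mul_inv_cancel₀ (pow_ne_zero _ (hs0 j))]
        rw [h9, norm_mul, norm_inv, norm_pow, norm_of_pow hQ (hs j)]
        simpa using hj
      rw [hq]
      nlinarith [pow_le_pow_left₀ hδ.le h8 2]
    calc (1 - ‖w u j - 1‖ ^ 2 / 4) ^ m * ∏ i ∈ univ.erase j, (1 - ‖w u i - 1‖ ^ 2 / 4) ^ m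
        ≤ (1 - ‖w u j - 1‖ ^ 2 / 4) ^ m * 1 :=
          mul_le_mul_of_nonneg_left h6 (pow_nonneg (h5 j).1 m)
      _ = (1 - ‖w u j - 1‖ ^ 2 / 4) ^ m := mul_one _
      _ ≤ q ^ m := pow_le_pow_left₀ (h5 j).1 h7 m
  have hup' : ∑ u ∈ A, (∏ j, (1 - ‖w u j - 1‖ ^ 2 / 4) ^ m : ℝ) ≤ A.card * q ^ m := by
    calc _ ≤ ∑ _u ∈ A, q ^ m := sum_le_sum hup
      _ = _ := by rw [sum_const, nsmul_eq_mul]
  -- lower bound
  have hlow : ∀ i ∈ I, -(ε * A.card) ≤ (∑ u ∈ A, mono (w u) (μ i)).re := by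
    intro i hi
    by_cases h : μ i ∈ L
    · have h5 : ∑ u ∈ A, mono (w u) (μ i) = A.card := by
        rw [← nsmul_one, ← sum_const]
        refine sum_congr rfl fun u hu => ?_
        rw [hmono, h1 _ h n, pow_over ha hu (mono_pow hs _), mul_inv_cancel₀]
        exact pow_ne_zero _ (ne_zero_of_pow hQ (mono_pow hs _))
      rw [h5, Complex.natCast_re]
      have : 0 ≤ ε * A.card := by positivity
      linarith
    · have h5 : ∑ u ∈ A, mono (w u) (μ i) =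
          (∑ u ∈ A, mono (t n) (μ i) ^ (u : ZMod (M n)).val) * (mono s (μ i) ^ a)⁻¹ := by
        rw [sum_mul]
        exact sum_congr rfl fun u _ => hmono u _
      have h6 := hC (M n) (hQM n) (ZMod.unitOfCoprime a ha) (mono (t n) (μ i))
        (mono_pow (ht n) _) (hn i hi h)
      have h7 : ‖∑ u ∈ A, mono (w u) (μ i)‖ ≤ ε * A.card := by
        rw [h5, norm_mul, norm_inv, norm_pow, norm_of_pow hQ (mono_pow hs _)]
        simpa using h6
      have h8 := Complex.abs_re_le_norm (∑ u ∈ A, mono (w u) (μ i))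
      have h9 := neg_abs_le (∑ u ∈ A, mono (w u) (μ i)).re
      linarith
  -- the central index
  set i₀ : Fin R → ℕ := fun _ => m with hi₀
  have hi₀I : i₀ ∈ I := by
    rw [hI, Fintype.mem_piFinset]
    intro j
    rw [mem_range]
    simp only [hi₀]
    omega
  have hcent : (∑ u ∈ A, mono (w u) (μ i₀)).re = A.card := by
    have : μ i₀ = 0 := by ext j; simp [hμ, hi₀]
    simp [this, mono_zero]
  have hprod0 : ∀ i : Fin R → ℕ, 0 ≤ ∏ j, c (i j) := fun i => prod_nonneg fun j _ => hc0 _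
  have hsum1 : ∑ i ∈ I, ∏ j, c (i j) = 1 := by
    rw [hI, ← prod_univ_sum (fun _ : Fin R => range (2 * m + 1)) (fun _ i => c i)]
    exact prod_eq_one fun _ _ => hcsum
  have htot : ∑ u ∈ A, (∏ j, (1 - ‖w u j - 1‖ ^ 2 / 4) ^ m : ℝ) =
      ∑ i ∈ I, (∏ j, c (i j)) * (∑ u ∈ A, mono (w u) (μ i)).re := by
    have h5 : ((∑ u ∈ A, (∏ j, (1 - ‖w u j - 1‖ ^ 2 / 4) ^ m : ℝ) : ℝ) : ℂ) =
        ∑ i ∈ I, ((∏ j, c (i j) : ℝ) : ℂ) * ∑ u ∈ A, mono (w u) (μ i) := by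
      rw [Complex.ofReal_sum, sum_congr rfl fun u _ => hexp u, sum_comm]
      exact sum_congr rfl fun i _ => (mul_sum _ _ _).symm
    have h6 := congrArg Complex.re h5
    rw [Complex.ofReal_re, Complex.re_sum] at h6
    rw [h6]
    exact sum_congr rfl fun i _ => Complex.re_ofReal_mul _ _
  have hlow' : (∏ j, c (i₀ j)) * A.card - ε * A.card ≤
      ∑ i ∈ I, (∏ j, c (i j)) * (∑ u ∈ A, mono (w u) (μ i)).re := by
    rw [← add_sum_erase I _ hi₀I, hcent]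
    have h5 : ∑ i ∈ I.erase i₀, (∏ j, c (i j)) * (-(ε * A.card)) ≤
        ∑ i ∈ I.erase i₀, (∏ j, c (i j)) * (∑ u ∈ A, mono (w u) (μ i)).re :=
      sum_le_sum fun i hi => mul_le_mul_of_nonneg_left (hlow i (mem_of_mem_erase hi)) (hprod0 i)
    rw [← sum_mul] at h5
    have h6 : ∑ i ∈ I.erase i₀, ∏ j, c (i j) ≤ 1 := by
      rw [← hsum1]
      exact sum_le_sum_of_subset_of_nonneg (erase_subset _ _) fun i _ _ => hprod0 i
    have h7 : 0 ≤ ε * A.card := by positivity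
    nlinarith
  have hcprod : (1 / (2 * m + 1 : ℝ)) ^ R ≤ ∏ j, c (i₀ j) := by
    rw [hi₀, prod_const, card_univ, Fintype.card_fin]
    exact pow_le_pow_left₀ (by positivity) hcm R
  rw [← htot] at hlow'
  have h9 : (∏ j, c (i₀ j)) * A.card - ε * A.card ≤ A.card * q ^ m := hlow'.trans hup'
  have h10 : (∏ j, c (i₀ j)) - ε ≤ q ^ m := by
    have : ((∏ j, c (i₀ j)) - ε) * A.card ≤ q ^ m * A.card := by linarith
    exact le_of_mul_le_mul_right this hAne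
  have h11 : (1 / (2 * m + 1 : ℝ)) ^ R = 2 * ε := by rw [hε]; ring
  linarith

/-- The part of the average of a polynomial that comes from the constant monomials. -/
noncomputable def etaC {R : ℕ} (Q : MvPolynomial (Fin R) ℤ) (L : Submodule ℤ (Fin R → ℤ))
    (s : Fin R → ℂ) (a : ℕ) : ℂ := by
  classical
  exact ∑ μ ∈ Q.support.filter (fun μ => (fun j => (μ j : ℤ)) ∈ L),
    ((Q.coeff μ : ℤ) : ℂ) * mono s (fun j => (μ j : ℤ)) ^ a

lemma aeval_mono {R : ℕ} (Q : MvPolynomial (Fin R) ℤ) (t : Fin R → ℂ) (u : ℕ) :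
    MvPolynomial.aeval (fun j => t j ^ u) Q =
      ∑ μ ∈ Q.support, ((Q.coeff μ : ℤ) : ℂ) * mono t (fun j => (μ j : ℤ)) ^ u := by
  rw [MvPolynomial.aeval_def, MvPolynomial.eval₂_eq']
  refine sum_congr rfl fun μ _ => ?_
  rw [← mono_pow']
  congr 1

/-- Averages of a polynomial over the conjugates in a residue class. -/
lemma mean_limit {R : ℕ} (P : MvPolynomial (Fin R) ℤ) (t : ℕ → Fin R → ℂ) (M : ℕ → ℕ)
    (ht : ∀ n j, t n j ^ M n = 1) {Q : ℕ} (hQ : 0 < Q) (hQM : ∀ n, Q ∣ M n)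
    (L : Submodule ℤ (Fin R → ℤ)) (s : Fin R → ℂ) (hs : ∀ j, s j ^ Q = 1)
    (h1 : ∀ m ∈ L, ∀ n, mono (t n) m = mono s m)
    (h2 : ∀ m ∉ L, ∀ C, ∀ᶠ n in atTop, C < orderOf (mono (t n) m))
    {a : ℕ} (ha : a.Coprime Q) {ε : ℝ} (hε : 0 < ε) :
    ∀ᶠ n in atTop, ∀ [NeZero (M n)],
      ‖∑ u ∈ unitsOver (hQM n) (ZMod.unitOfCoprime a ha),
        MvPolynomial.aeval (fun j => t n j ^ (u : ZMod (M n)).val) P -
        (unitsOver (hQM n) (ZMod.unitOfCoprime a ha)).card * etaC P L s a‖ ≤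
      ε * (unitsOver (hQM n) (ZMod.unitOfCoprime a ha)).card := by
  classical
  set K : ℝ := ∑ μ ∈ P.support, |((P.coeff μ : ℤ) : ℝ)| + 1 with hK
  have hKs : 0 ≤ ∑ μ ∈ P.support, |((P.coeff μ : ℤ) : ℝ)| := sum_nonneg fun _ _ => abs_nonneg _
  have hK0 : 0 < K := by rw [hK]; linarith
  obtain ⟨C, hC⟩ := avg_small (ε / K) (by positivity) Q hQ
  have h3 : ∀ᶠ n in atTop, ∀ μ ∈ P.support, (fun j => (μ j : ℤ)) ∉ L →
      C < orderOf (mono (t n) (fun j => (μ j : ℤ))) := by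
    rw [Finset.eventually_all]
    intro μ _
    by_cases h : (fun j => (μ j : ℤ)) ∈ L
    · exact Eventually.of_forall fun n hn => absurd h hn
    · filter_upwards [h2 _ h C] with n hn _ using hn
  filter_upwards [h3] with n hn _
  set A := unitsOver (hQM n) (ZMod.unitOfCoprime a ha) with hA
  have h4 : ∑ u ∈ A, MvPolynomial.aeval (fun j => t n j ^ (u : ZMod (M n)).val) P =
      ∑ μ ∈ P.support, ((P.coeff μ : ℤ) : ℂ) *
        ∑ u ∈ A, mono (t n) (fun j => (μ j : ℤ)) ^ (u : ZMod (M n)).val := by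
    rw [sum_congr rfl fun u _ => aeval_mono P (t n) _, sum_comm]
    exact sum_congr rfl fun μ _ => (mul_sum _ _ _).symm
  have h5 : (A.card : ℂ) * etaC P L s a = ∑ μ ∈ P.support, ((P.coeff μ : ℤ) : ℂ) *
      (if (fun j => (μ j : ℤ)) ∈ L then (A.card : ℂ) * mono s (fun j => (μ j : ℤ)) ^ a else 0) := by
    unfold etaC
    rw [sum_filter, mul_sum]
    refine sum_congr rfl fun μ _ => ?_
    split_ifs
    · ring
    · ring
  rw [h4, h5, ← sum_sub_distrib]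
  have h6 : ∀ μ ∈ P.support, ‖((P.coeff μ : ℤ) : ℂ) *
        ∑ u ∈ A, mono (t n) (fun j => (μ j : ℤ)) ^ (u : ZMod (M n)).val - ((P.coeff μ : ℤ) : ℂ) *
      (if (fun j => (μ j : ℤ)) ∈ L then (A.card : ℂ) * mono s (fun j => (μ j : ℤ)) ^ a else 0)‖ ≤
      |((P.coeff μ : ℤ) : ℝ)| * (ε / K * A.card) := by
    intro μ hμ
    rw [← mul_sub, norm_mul, Complex.norm_intCast]
    refine mul_le_mul_of_nonneg_left ?_ (abs_nonneg _)
    split_ifs with h
    · have h7 : ∑ u ∈ A, mono (t n) (fun j => (μ j : ℤ)) ^ (u : ZMod (M n)).val =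
          (A.card : ℂ) * mono s (fun j => (μ j : ℤ)) ^ a := by
        rw [← nsmul_eq_mul, ← sum_const]
        refine sum_congr rfl fun u hu => ?_
        rw [h1 _ h n, pow_over ha hu (mono_pow hs _)]
      rw [h7, sub_self, norm_zero]
      positivity
    · rw [sub_zero]
      exact hC (M n) (hQM n) (ZMod.unitOfCoprime a ha) (mono (t n) (fun j => (μ j : ℤ)))
        (mono_pow (ht n) _) (hn μ hμ h)
  refine (norm_sum_le _ _).trans ((sum_le_sum h6).trans ?_)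
  rw [← sum_mul]
  have h7 : (∑ μ ∈ P.support, |((P.coeff μ : ℤ) : ℝ)|) ≤ K := by rw [hK]; linarith
  calc (∑ μ ∈ P.support, |((P.coeff μ : ℤ) : ℝ)|) * (ε / K * A.card) ≤ K * (ε / K * A.card) := by
        gcongr
    _ = ε * A.card := by field_simp

open Polynomial in
/-- A cyclotomic integer all of whose conjugates are equal is a rational integer. -/
lemma int_of_conj {Q : ℕ} (hQ : 0 < Q) (g : ℤ[X]) (x : ℂ)
    (h : ∀ z, IsPrimitiveRoot z Q → aeval z g = x) : ∃ n : ℤ, x = n := by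
  set p := g %ₘ cyclotomic Q ℤ with hp
  have hmon := cyclotomic.monic Q ℤ
  have hdeg : (p.map (Int.castRingHom ℂ)).degree < Q.totient := by
    refine (degree_map_le).trans_lt ?_
    have := degree_modByMonic_lt g hmon
    rwa [degree_cyclotomic] at this
  have hev : ∀ z ∈ primitiveRoots Q ℂ, (p.map (Int.castRingHom ℂ)).eval z = (C x).eval z := by
    intro z hz
    rw [mem_prim hQ] at hz
    have h1 : aeval z (cyclotomic Q ℤ) = 0 := by
      rw [aeval_def, eval₂_eq_eval_map, algebraMap_int_eq, map_cyclotomic]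
      exact hz.isRoot_cyclotomic hQ
    have h2 : aeval z p = x := by
      rw [← h z hz]
      conv_rhs => rw [← modByMonic_add_div g (cyclotomic Q ℤ)]
      rw [map_add, map_mul, h1, zero_mul, add_zero]
    rw [eval_C, ← h2, aeval_def, eval₂_eq_eval_map]
    rfl
  have hQ' : 0 < Q.totient := Nat.totient_pos.mpr hQ
  have heq : p.map (Int.castRingHom ℂ) = C x := by
    refine eq_of_degree_sub_lt_of_eval_finset_eq (primitiveRoots Q ℂ) ?_ hev
    rw [prim_card]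
    refine (degree_sub_le _ _).trans_lt (max_lt hdeg ?_)
    exact degree_C_le.trans_lt (by exact_mod_cast hQ')
  refine ⟨p.coeff 0, ?_⟩
  have := congrArg (fun q => q.coeff 0) heq
  simp only [coeff_map, coeff_C_zero] at this
  rw [← this]
  rfl

open Polynomial in
lemma etaC_eq {R : ℕ} (P : MvPolynomial (Fin R) ℤ) (L : Submodule ℤ (Fin R → ℤ))
    (s : Fin R → ℂ) {Q : ℕ} (hQ : 0 < Q) (hs : ∀ j, s j ^ Q = 1) :
    ∃ (θ : ℂ) (g : ℤ[X]), IsPrimitiveRoot θ Q ∧ ∀ a, etaC P L s a = aeval (θ ^ a) g := by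
  classical
  have hθ := Complex.isPrimitiveRoot_exp Q hQ.ne'
  set θ := Complex.exp (2 * Real.pi * Complex.I / Q)
  have : NeZero Q := ⟨hQ.ne'⟩
  have h1 : ∀ m : Fin R → ℤ, ∃ k : ℕ, θ ^ k = mono s m := fun m => by
    obtain ⟨k, _, hk⟩ := hθ.eq_pow_of_pow_eq_one (mono_pow hs m)
    exact ⟨k, hk⟩
  choose k hk using h1
  refine ⟨θ, ∑ μ ∈ P.support.filter (fun μ => (fun j => (μ j : ℤ)) ∈ L),
    C (P.coeff μ) * X ^ k (fun j => (μ j : ℤ)), hθ, fun a => ?_⟩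
  unfold etaC
  rw [map_sum]
  refine sum_congr (by congr) fun μ _ => ?_
  rw [map_mul, map_pow, aeval_X, aeval_C, ← hk, pow_right_comm]
  rfl

end Run7.h55
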