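import Mathlib

/-!
# Elementary symmetric functions of a vector
-/

set_option autoImplicit false

open Finset

namespace Run7.h55

/-- Elementary symmetric functions of a vector, indexed from one. -/
def es {A : Type*} [CommRing A] {r : ℕ} (x : Fin r → A) (j : Fin r) : A :=
  ∑ t ∈ powersetCard ((j : ℕ) + 1) (univ : Finset (Fin r)), ∏ i ∈ t, x i

lemma map_es {A B : Type*} [CommRing A] [CommRing B] (f : A →+* B) {r : ℕ} (x : Fin r → A)
    (j : Fin r) : f (es x j) = es (fun i => f (x i)) j := by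
  unfold es
  rw [map_sum]
  exact sum_congr rfl fun t _ => map_prod f _ _

lemma exists_esymm {R : Type*} [CommRing R] {r : ℕ} (Φ : MvPolynomial (Fin r) R)
    (h : Φ.IsSymmetric) : ∃ Q : MvPolynomial (Fin r) R, ∀ (A : Type) [CommRing A] [Algebra R A]
      (x : Fin r → A), MvPolynomial.aeval x Φ = MvPolynomial.aeval (es x) Q := by
  obtain ⟨Q, hQ⟩ := MvPolynomial.esymmAlgHom_fin_surjective R le_rfl
    (⟨Φ, h⟩ : MvPolynomial.symmetricSubalgebra (Fin r) R)
  refine ⟨Q, fun A _ _ x => ?_⟩
  have h1 : Φ = MvPolynomial.aeval (fun i : Fin r => MvPolynomial.esymm (Fin r) R ((i : ℕ) + 1)) Q := by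
    rw [← MvPolynomial.esymmAlgHom_apply, hQ]
  conv_lhs => rw [h1]
  have h2 : (MvPolynomial.aeval x).comp (MvPolynomial.aeval
      (fun i : Fin r => MvPolynomial.esymm (Fin r) R ((i : ℕ) + 1))) =
      (MvPolynomial.aeval (es x) : MvPolynomial (Fin r) R →ₐ[R] A) := by
    apply MvPolynomial.algHom_ext
    intro i
    simp only [AlgHom.comp_apply, MvPolynomial.aeval_X]
    rw [MvPolynomial.aeval_esymm_eq_multiset_esymm, Finset.esymm_map_val]
    rfl
  exact DFunLike.congr_fun h2 Q

/-- Power sums are polynomials in the elementary symmetric functions. -/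
lemma exists_psum (r k : ℕ) : ∃ Q : MvPolynomial (Fin r) ℤ, ∀ (A : Type) [CommRing A]
    (x : Fin r → A), ∑ i, x i ^ k = MvPolynomial.aeval (es x) Q := by
  obtain ⟨Q, hQ⟩ := exists_esymm (MvPolynomial.psum (Fin r) ℤ k)
    (MvPolynomial.psum_isSymmetric (Fin r) ℤ k)
  refine ⟨Q, fun A _ x => ?_⟩
  rw [← hQ A x, MvPolynomial.psum, map_sum]
  exact sum_congr rfl fun i _ => by rw [map_pow, MvPolynomial.aeval_X]

/-- The product of the distances is a polynomial in the elementary symmetric functions. -/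
lemma exists_pprod (r : ℕ) (y : ℂ) : ∃ Q : MvPolynomial (Fin r) ℂ, ∀ x : Fin r → ℂ,
    ∏ i, (y - x i) = MvPolynomial.aeval (es x) Q := by
  obtain ⟨Q, hQ⟩ := exists_esymm (∏ i : Fin r, (MvPolynomial.C y - MvPolynomial.X i)) (by
    intro e
    rw [map_prod]
    simp only [map_sub, MvPolynomial.rename_C, MvPolynomial.rename_X]
    exact Fintype.prod_equiv e _ _ fun i => rfl)
  refine ⟨Q, fun x => ?_⟩
  rw [← hQ ℂ x, map_prod]
  exact prod_congr rfl fun i _ => by
    rw [map_sub, MvPolynomial.aeval_X, MvPolynomial.aeval_C]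
    rfl

/-- Coefficients of a product of linear factors. -/
lemma es_of_prod {r : ℕ} (x : Fin r → ℂ) (j : Fin r) :
    es x j = (-1) ^ ((j : ℕ) + 1) *
      (∏ i, (Polynomial.X - Polynomial.C (x i))).coeff (r - ((j : ℕ) + 1)) := by
  have h1 := Multiset.prod_X_sub_C_coeff ((univ : Finset (Fin r)).val.map x)
    (k := r - ((j : ℕ) + 1)) (by simp)
  have h2 : (∏ i, (Polynomial.X - Polynomial.C (x i))) =
      (((univ : Finset (Fin r)).val.map x).map fun t => Polynomial.X - Polynomial.C t).prod := by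
    rw [Multiset.map_map]
    rfl
  rw [h2, h1, Finset.esymm_map_val]
  have h3 : Multiset.card (Multiset.map x (univ : Finset (Fin r)).val) - (r - ((j : ℕ) + 1)) =
      (j : ℕ) + 1 := by
    simp only [Multiset.card_map, card_val, card_univ, Fintype.card_fin]
    have := j.2
    omega
  rw [h3, ← mul_assoc, ← pow_add, ← two_mul, pow_mul, neg_one_sq, one_pow, one_mul]
  rfl

end Run7.h55
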