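import Pool.Agent.Run7.h55.Seq
import Pool.Agent.Run7.h55.Sym
import Pool.Agent.Run7.h55.Moments

/-!
# Sequences of conjugate sets of bounded degree over cyclotomic fields
-/

set_option autoImplicit false

open Finset Filter Topology Polynomial
open Pool.Agent.Helper781.CycHouse

namespace Run7.h55

/-- The polynomial giving the power sum in terms of the elementary symmetric functions. -/
noncomputable def psumQ (r k : ℕ) : MvPolynomial (Fin r) ℤ := (exists_psum r k).choose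

lemma psumQ_spec (r k : ℕ) {A : Type} [CommRing A] (x : Fin r → A) :
    ∑ i, x i ^ k = MvPolynomial.aeval (es x) (psumQ r k) := (exists_psum r k).choose_spec A x

lemma es_bound {r : ℕ} {W : ℝ} (hW : 1 ≤ W) (x : Fin r → ℝ) (hx : ∀ i, |x i| ≤ W) (j : Fin r) :
    ‖es (fun i => (x i : ℂ)) j‖ ≤ 2 ^ r * W ^ r := by
  unfold es
  refine (norm_sum_le _ _).trans ?_
  have h1 : ∀ t ∈ powersetCard ((j : ℕ) + 1) (univ : Finset (Fin r)),
      ‖∏ i ∈ t, (x i : ℂ)‖ ≤ W ^ r := by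
    intro t _
    rw [norm_prod]
    have h2 : ∏ i ∈ t, ‖(x i : ℂ)‖ ≤ ∏ _i ∈ t, W := by
      refine prod_le_prod (fun i _ => norm_nonneg _) fun i _ => ?_
      rw [Complex.norm_real]
      exact hx i
    refine h2.trans ?_
    rw [prod_const]
    refine pow_le_pow_right₀ hW ?_
    calc t.card ≤ (univ : Finset (Fin r)).card := card_le_univ t
      _ = r := by simp
  refine (sum_le_sum h1).trans ?_
  rw [sum_const, nsmul_eq_mul]
  refine mul_le_mul_of_nonneg_right ?_ (by positivity)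
  rw [card_powersetCard, card_univ, Fintype.card_fin]
  have : r.choose ((j : ℕ) + 1) ≤ 2 ^ r := by
    rw [← Nat.sum_range_choose]
    exact single_le_sum (f := fun i => r.choose i) (fun _ _ => Nat.zero_le _)
      (mem_range.mpr (by have := j.2; omega))
  exact_mod_cast this

lemma mom_continuous (k : ℕ) : Continuous (mom k) := by
  unfold mom
  fun_prop

/-- A primitive root is a power with exponent coprime to any multiple of the order. -/
lemma exists_coprime_exp {N M : ℕ} (hN : 0 < N) (hM : 0 < M) (hNM : N ∣ M) {ζ z : ℂ}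
    (hζ : IsPrimitiveRoot ζ N) (hz : IsPrimitiveRoot z N) : ∃ a : ℕ, a.Coprime M ∧ ζ ^ a = z := by
  have : NeZero M := ⟨hM.ne'⟩
  have : NeZero N := ⟨hN.ne'⟩
  obtain ⟨i, _, hi, rfl⟩ := hζ.isPrimitiveRoot_iff.mp hz
  obtain ⟨u, hu⟩ := unitsOver_nonempty hNM (ZMod.unitOfCoprime i hi)
  exact ⟨(u : ZMod M).val, ZMod.val_coe_unit_coprime u, pow_over hi hu hζ.pow_eq_one⟩

theorem seq_core {r : ℕ} (hr : 0 < r) (c : ℕ → ℝ) (c₀ : ℝ) (hc : Tendsto c atTop (𝓝 c₀))
    (l : ℕ → ℝ) (hl : Tendsto l atTop (𝓝 1))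
    (N : ℕ → ℕ) (hN : ∀ n, 0 < N n) (ζ : ℕ → ℂ) (hζ : ∀ n, IsPrimitiveRoot (ζ n) (N n))
    (f : ℕ → Fin r → ℤ[X])
    (h1 : ∀ n z, IsPrimitiveRoot z (N n) → ∃ x : Fin r → ℝ, (∀ i, |x i - c n| ≤ 2 * l n) ∧
      ∀ j, aeval z (f n j) = es (fun i => (x i : ℂ)) j)
    (h2 : ∀ k Q, 0 < Q → ∀ ε : ℝ, 0 < ε → ∀ᶠ n in atTop, ∀ (M : ℕ) [NeZero M],
      N n ∣ M → ∀ (hQM : Q ∣ M) (a : (ZMod Q)ˣ),
      ‖∑ u ∈ unitsOver hQM a, MvPolynomial.aeval
          (fun j => aeval (ζ n ^ (u : ZMod M).val) (f n j)) (psumQ r k) -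
        (unitsOver hQM a).card * ((r * mom k (c n) : ℝ) : ℂ)‖ ≤ ε * (unitsOver hQM a).card)
    (K : Fin r → ℕ) (M : ℕ → ℕ) (hM : ∀ n, 0 < M n) (hNM : ∀ n, N n ∣ M n)
    (y : ∀ (_ : ℕ) (j : Fin r), Fin (K j) → ℂ) (hy : ∀ n j l, y n j l ^ M n = 1)
    (hsum : ∀ n j, ∑ l, y n j l = aeval (ζ n) (f n j)) :
    (∃ m : ℤ, c₀ = m) ∧ ∃ n, ∀ z, IsPrimitiveRoot z (N n) → ∀ x : Fin r → ℝ,
      (∀ j, aeval z (f n j) = es (fun i => (x i : ℂ)) j) → ∀ i, |x i - c₀| ≤ 2 := by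
  -- the tuples
  set e := finSigmaFinEquiv (m := r) (n := K) with he
  set t : ℕ → Fin (∑ j, K j) → ℂ := fun n i => y n (e.symm i).1 (e.symm i).2 with ht
  have htM : ∀ n i, t n i ^ M n = 1 := fun n i => hy n _ _
  obtain ⟨ψ, hψ, L, hL1, hL2⟩ := exists_subseq t M hM htM
  set Q := M (ψ 0) with hQ
  have hQ0 : 0 < Q := hM _
  set s := t (ψ 0) with hs
  have hsQ : ∀ j, s j ^ Q = 1 := fun j => htM _ j
  -- common moduli
  set M' : ℕ → ℕ := fun n => M (ψ n) * Q with hM'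
  have hM'0 : ∀ n, 0 < M' n := fun n => Nat.mul_pos (hM _) hQ0
  have htM' : ∀ n j, t (ψ n) j ^ M' n = 1 := fun n j => by
    rw [hM', pow_mul, htM, one_pow]
  have hQM' : ∀ n, Q ∣ M' n := fun n => dvd_mul_left _ _
  have hMM' : ∀ n, M (ψ n) ∣ M' n := fun n => dvd_mul_right _ _
  -- the linear forms
  set E : Fin r → MvPolynomial (Fin (∑ j, K j)) ℤ := fun j =>
    ∑ l : Fin (K j), MvPolynomial.X (e ⟨j, l⟩) with hE
  have hEval : ∀ n (u : ℕ), u.Coprime (M n) → ∀ j,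
      MvPolynomial.aeval (fun i => t n i ^ u) (E j) = aeval (ζ n ^ u) (f n j) := by
    intro n u hu j
    rw [hE, map_sum]
    simp only [MvPolynomial.aeval_X]
    rw [← conj_sum (hN n) (hM n) (hNM n) (hζ n) (f n j) (y n j) (hy n j) (hsum n j) hu]
    refine sum_congr rfl fun l _ => ?_
    simp only [ht]
    rw [Equiv.symm_apply_apply]
  constructor
  · -- the limit is an integer
    refine int_of_mom hr fun k => ?_
    set P := MvPolynomial.bind₁ E (psumQ r k) with hP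
    have hη : ∀ a : ℕ, a.Coprime Q → etaC P L s a = ((r * mom k c₀ : ℝ) : ℂ) := by
      intro a ha
      refine eq_of_forall_dist_le fun ε hε => ?_
      have h3 := mean_limit P (fun n => t (ψ n)) M' htM' hQ0 hQM' L s hsQ hL1 hL2 ha
        (show 0 < ε / 3 by positivity)
      have h4 := hψ.tendsto_atTop.eventually (h2 k Q hQ0 (ε / 3) (by positivity))
      have h5 : Tendsto (fun n => (r * mom k (c (ψ n)) : ℝ)) atTop (𝓝 (r * mom k c₀)) :=
        (((mom_continuous k).tendsto c₀).comp (hc.comp hψ.tendsto_atTop)).const_mul _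
      have h6 := h5.eventually (Metric.ball_mem_nhds _ (show 0 < ε / 3 by positivity))
      obtain ⟨n, hn3', hn4, hn6⟩ := (h3.and (h4.and h6)).exists
      have : NeZero (M' n) := ⟨(hM'0 n).ne'⟩
      have hn3 := @hn3' ⟨(hM'0 n).ne'⟩
      have hn4' := hn4 (M' n) ((hNM _).trans (hMM' n)) (hQM' n) (ZMod.unitOfCoprime a ha)
      set A := unitsOver (hQM' n) (ZMod.unitOfCoprime a ha) with hA
      have hA0 : (0 : ℝ) < A.card := by
        exact_mod_cast (unitsOver_nonempty (hQM' n) (ZMod.unitOfCoprime a ha)).card_pos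
      have h7 : ∀ u ∈ A, MvPolynomial.aeval (fun j => t (ψ n) j ^ (u : ZMod (M' n)).val) P =
          MvPolynomial.aeval (fun j => aeval (ζ (ψ n) ^ (u : ZMod (M' n)).val) (f (ψ n) j))
            (psumQ r k) := by
        intro u _
        rw [hP, MvPolynomial.aeval_bind₁]
        congr 2
        funext j
        exact hEval _ _ (Nat.Coprime.coprime_dvd_right (hMM' n) (ZMod.val_coe_unit_coprime u)) j
      rw [sum_congr rfl h7] at hn3
      have h8 : ‖(A.card : ℂ) * (etaC P L s a - ((r * mom k (c (ψ n)) : ℝ) : ℂ))‖ ≤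
          2 * (ε / 3) * A.card := by
        have h9 := norm_sub_le_norm_sub_add_norm_sub ((A.card : ℂ) * etaC P L s a)
          (∑ u ∈ A, MvPolynomial.aeval (fun j => aeval (ζ (ψ n) ^ (u : ZMod (M' n)).val)
            (f (ψ n) j)) (psumQ r k)) ((A.card : ℂ) * ((r * mom k (c (ψ n)) : ℝ) : ℂ))
        rw [norm_sub_rev] at hn3
        rw [mul_sub]
        linarith
      rw [norm_mul, Complex.norm_natCast, mul_comm] at h8
      have h9 := le_of_mul_le_mul_right h8 hA0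
      rw [dist_eq_norm]
      have h10 : ‖((r * mom k (c (ψ n)) : ℝ) : ℂ) - ((r * mom k c₀ : ℝ) : ℂ)‖ ≤ ε / 3 := by
        rw [← Complex.ofReal_sub, Complex.norm_real]
        exact (le_of_lt (by simpa [Real.dist_eq] using hn6))
      have h11 := norm_sub_le_norm_sub_add_norm_sub (etaC P L s a)
        ((r * mom k (c (ψ n)) : ℝ) : ℂ) ((r * mom k c₀ : ℝ) : ℂ)
      linarith
    obtain ⟨θ, g, hθ, hg⟩ := etaC_eq P L s hQ0 hsQ
    obtain ⟨n, hn⟩ := int_of_conj hQ0 g ((r * mom k c₀ : ℝ) : ℂ) (by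
      intro z hz
      have : NeZero Q := ⟨hQ0.ne'⟩
      obtain ⟨i, _, hi, rfl⟩ := hθ.isPrimitiveRoot_iff.mp hz
      rw [← hg i, hη i hi])
    exact ⟨n, by exact_mod_cast hn⟩
  · refine ⟨ψ 0, fun z hz x hx i => ?_⟩
    by_contra hcon
    push Not at hcon
    obtain ⟨a, ha, rfl⟩ := exists_coprime_exp (hN (ψ 0)) hQ0 (hNM (ψ 0)) (hζ (ψ 0)) hz
    obtain ⟨G, hG⟩ := exists_pprod r (x i : ℂ)
    set d := (|x i - c₀| - 2) / 2 with hd
    have hd0 : 0 < d := by rw [hd]; linarith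
    -- the test function
    set F : (Fin (∑ j, K j) → ℂ) → ℂ := fun v =>
      MvPolynomial.aeval (fun j => MvPolynomial.aeval v (E j)) G with hF
    have hFc : Continuous F := by
      rw [hF]
      have h3 : Continuous fun v : Fin (∑ j, K j) → ℂ => fun j : Fin r =>
          MvPolynomial.aeval v (E j) := by
        refine continuous_pi fun j => ?_
        rw [hE]
        simp only [map_sum, MvPolynomial.aeval_X]
        fun_prop
      have h4 : Continuous fun w : Fin r → ℂ => MvPolynomial.aeval w G := by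
        exact MvPolynomial.continuous_eval G
      exact h4.comp h3
    have hF0 : F (fun j => s j ^ a) = 0 := by
      rw [hF]
      simp only
      have h3 : (fun j => MvPolynomial.aeval (fun i => s i ^ a) (E j)) =
          es (fun i => (x i : ℂ)) := by
        funext j
        rw [← hx j]
        exact hEval _ _ ha j
      rw [h3, ← hG]
      exact prod_eq_zero (mem_univ i) (sub_self _)
    obtain ⟨δ, hδ, hball⟩ := Metric.continuous_iff.mp hFc (fun j => s j ^ a) (d ^ r)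
      (by positivity)
    have h5 := dense_orbit (fun n => t (ψ n)) M' hM'0 htM' hQ0 hQM' L s hsQ hL1 hL2 ha hδ
    have hd2 : 0 < d / 4 := by linarith
    have h6 := (hc.comp hψ.tendsto_atTop).eventually (Metric.ball_mem_nhds c₀ hd2)
    have h6' := (hl.comp hψ.tendsto_atTop).eventually (Metric.ball_mem_nhds 1 hd2)
    obtain ⟨n, ⟨u, hu, hu2⟩, hn6, hn6'⟩ := (h5.and (h6.and h6')).exists
    have h7 := hball (fun j => t (ψ n) j ^ u) (by
      rw [dist_pi_lt_iff hδ]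
      intro j
      rw [dist_eq_norm]
      exact hu2 j)
    rw [hF0, dist_zero_right] at h7
    have hu' : u.Coprime (M (ψ n)) := Nat.Coprime.coprime_dvd_right (hMM' n) hu
    obtain ⟨x', hx', hx'2⟩ := h1 (ψ n) (ζ (ψ n) ^ u)
      ((hζ (ψ n)).pow_of_coprime u (Nat.Coprime.coprime_dvd_right (hNM _) hu'))
    have h8 : F (fun j => t (ψ n) j ^ u) = ∏ l, ((x i : ℂ) - (x' l : ℂ)) := by
      rw [hG, hF]
      simp only
      congr 2
      funext j
      rw [hEval _ _ hu' j, hx'2 j]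
    rw [h8, norm_prod] at h7
    have h9 : ∏ _l : Fin r, d ≤ ∏ l, ‖(x i : ℂ) - (x' l : ℂ)‖ := by
      refine prod_le_prod (fun _ _ => hd0.le) fun v _ => ?_
      rw [← Complex.ofReal_sub, Complex.norm_real, Real.norm_eq_abs]
      have h10 := hx' v
      have h11 : |c (ψ n) - c₀| < d / 4 := by simpa [Real.dist_eq] using hn6
      have h11' : |l (ψ n) - 1| < d / 4 := by simpa [Real.dist_eq] using hn6'
      have h11'' := (le_abs_self (l (ψ n) - 1)).trans_lt h11'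
      have h12 : |x i - c₀| ≤ |x i - x' v| + |x' v - c (ψ n)| + |c (ψ n) - c₀| := by
        have h13 := abs_sub_le (x i) (x' v) c₀
        have h14 := abs_sub_le (x' v) (c (ψ n)) c₀
        linarith
      have h15 : |x i - c₀| = 2 * d + 2 := by rw [hd]; ring
      linarith
    rw [prod_const, card_univ, Fintype.card_fin] at h9
    linarith

theorem seq_main {r : ℕ} (hr : 0 < r) (c : ℕ → ℝ) (c₀ : ℝ) (hc : Tendsto c atTop (𝓝 c₀))
    (l : ℕ → ℝ) (hl : Tendsto l atTop (𝓝 1))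
    (N : ℕ → ℕ) (hN : ∀ n, 0 < N n) (ζ : ℕ → ℂ) (hζ : ∀ n, IsPrimitiveRoot (ζ n) (N n))
    (f : ℕ → Fin r → ℤ[X])
    (h1 : ∀ n z, IsPrimitiveRoot z (N n) → ∃ x : Fin r → ℝ, (∀ i, |x i - c n| ≤ 2 * l n) ∧
      ∀ j, aeval z (f n j) = es (fun i => (x i : ℂ)) j)
    (h2 : ∀ k Q, 0 < Q → ∀ ε : ℝ, 0 < ε → ∀ᶠ n in atTop, ∀ (M : ℕ) [NeZero M],
      N n ∣ M → ∀ (hQM : Q ∣ M) (a : (ZMod Q)ˣ),
      ‖∑ u ∈ unitsOver hQM a, MvPolynomial.aeval
          (fun j => aeval (ζ n ^ (u : ZMod M).val) (f n j)) (psumQ r k) -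
        (unitsOver hQM a).card * ((r * mom k (c n) : ℝ) : ℂ)‖ ≤ ε * (unitsOver hQM a).card) :
    (∃ m : ℤ, c₀ = m) ∧ ∃ n, ∀ z, IsPrimitiveRoot z (N n) → ∀ x : Fin r → ℝ,
      (∀ j, aeval z (f n j) = es (fun i => (x i : ℂ)) j) → ∀ i, |x i - c₀| ≤ 2 := by
  obtain ⟨A, hA⟩ : ∃ A : ℝ, ∀ n, |c n| ≤ A := by
    obtain ⟨A, hA⟩ := (Metric.isBounded_range_of_tendsto c hc).exists_norm_le
    exact ⟨A, fun n => hA _ ⟨n, rfl⟩⟩
  have hA0 : 0 ≤ A := (abs_nonneg _).trans (hA 0)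
  obtain ⟨B, hlB⟩ : ∃ B : ℝ, ∀ n, |l n| ≤ B := by
    obtain ⟨B, hlB⟩ := (Metric.isBounded_range_of_tendsto l hl).exists_norm_le
    exact ⟨B, fun n => hlB _ ⟨n, rfl⟩⟩
  have hB0 : 0 ≤ B := (abs_nonneg _).trans (hlB 0)
  have hB : ∀ n j (z : ℂ), IsPrimitiveRoot z (N n) →
      ‖aeval z (f n j)‖ ≤ 2 ^ r * (A + 2 * B + 1) ^ r := by
    intro n j z hz
    obtain ⟨x, hx, hx2⟩ := h1 n z hz
    rw [hx2 j]
    refine es_bound (by linarith) x (fun i => ?_) j
    have h3 := hx i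
    have h4 := hA n
    have h4' := (le_abs_self (l n)).trans (hlB n)
    have h5 : |x i| ≤ |x i - c n| + |c n| := by
      have := abs_add_le (x i - c n) (c n)
      rwa [sub_add_cancel] at this
    linarith
  obtain ⟨k, hk⟩ := exists_nat_ge (2 * (2 ^ r * (A + 2 * B + 1) ^ r) ^ 2)
  obtain ⟨ℓ, hℓ⟩ := loxton k
  have h3 : ∀ n j, Len ℓ (aeval (ζ n) (f n j)) := by
    intro n j
    refine hℓ (N n) (hN n) (f n j) ?_ (ζ n) (hζ n)
    have := mean_le_sq (hN n) (f n j) (hB n j)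
    linarith
  choose s hs1 hs2 hs3 using h3
  obtain ⟨φ, hφ, hcard⟩ := pigeon (fun n => fun j => (s n j).card) (by
    refine (Set.Finite.pi' fun _ : Fin r => Set.finite_Icc 0 ℓ).subset ?_
    rintro _ ⟨n, rfl⟩ j
    exact ⟨Nat.zero_le _, hs1 n j⟩)
  set K : Fin r → ℕ := fun j => (s (φ 0) j).card with hK
  have h4 : ∀ n, ∃ (M : ℕ) (y : ∀ j, Fin (K j) → ℂ), 0 < M ∧ N (φ n) ∣ M ∧
      (∀ j l, y j l ^ M = 1) ∧ ∀ j, ∑ l, y j l = aeval (ζ (φ n)) (f (φ n) j) := by
    intro n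
    obtain ⟨M, hM, hNM, hper⟩ := exists_period (∑ j, s (φ n) j) (by
      intro z hz
      rw [Multiset.mem_sum] at hz
      obtain ⟨j, _, hj⟩ := hz
      exact hs2 _ _ z hj) (N (φ n)) (hN _)
    have hper' : ∀ j, ∀ z ∈ s (φ n) j, z ^ M = 1 := fun j z hz =>
      hper z (Multiset.mem_sum.mpr ⟨j, mem_univ j, hz⟩)
    have h5 : ∀ j, ∃ y : Fin (K j) → ℂ, (∀ l, y l ^ M = 1) ∧
        ∑ l, y l = aeval (ζ (φ n)) (f (φ n) j) := by
      intro j
      obtain ⟨l, hl⟩ : ∃ l : List ℂ, (l : Multiset ℂ) = s (φ n) j := ⟨_, (s (φ n) j).coe_toList⟩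
      have hlen : l.length = K j := by
        rw [← Multiset.coe_card, hl]
        exact congrFun (hcard n) j
      refine ⟨fun i => l.get (i.cast hlen.symm), ?_, ?_⟩
      · intro i
        apply hper' j
        rw [← hl]
        exact List.get_mem _ _
      · rw [← hs3, ← hl, Multiset.sum_coe]
        conv_rhs => rw [← List.ofFn_get l]
        rw [List.sum_ofFn]
        exact Fintype.sum_equiv (finCongr hlen.symm) _ _ (fun j => rfl)
    choose y hy hy2 using h5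
    exact ⟨M, y, hM, hNM, hy, hy2⟩
  choose M y hM hNM hy hsum using h4
  obtain ⟨h5, n, hn⟩ := seq_core hr (fun n => c (φ n)) c₀ (hc.comp hφ.tendsto_atTop)
    (fun n => l (φ n)) (hl.comp hφ.tendsto_atTop) (fun n => N (φ n)) (fun n => hN _) (fun n => ζ (φ n)) (fun n => hζ _) (fun n => f (φ n))
    (fun n => h1 _) (fun k Q hQ ε hε => hφ.tendsto_atTop.eventually (h2 k Q hQ ε hε))
    K M hM hNM y hy hsum
  exact ⟨h5, φ n, hn⟩

end Run7.h55
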