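import Pool.Agent.Run7.h55.ModM

/-!
# A lower bound for the mean square of a totally real algebraic integer
-/

set_option autoImplicit false

open Finset Polynomial Filter Topology

namespace Run7.h55

lemma log_tangent {y y₀ r : ℝ} (h : 0 < (y - r) / (y₀ - r)) :
    Real.log |y - r| ≤ Real.log |y₀ - r| + (y - y₀) / (y₀ - r) := by
  have h0 : y₀ - r ≠ 0 := fun h0 => by rw [h0, div_zero] at h; exact lt_irrefl _ h
  have h1 : y - r ≠ 0 := fun h1 => by rw [h1, zero_div] at h; exact lt_irrefl _ h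
  have h2 := Real.log_le_sub_one_of_pos h
  rw [Real.log_div h1 h0] at h2
  rw [Real.log_abs, Real.log_abs]
  have h3 : (y - r) / (y₀ - r) - 1 = (y - y₀) / (y₀ - r) := by
    field_simp
    ring
  linarith

lemma num_neg {t₁ t₂ t₃ : ℝ} (h₁ : 0 < t₁) (h₂ : 0 < t₂) (h₃ : 0 < t₃) {a b c m : ℕ}
    (h : t₁ ^ a * t₂ ^ b * t₃ ^ c * (2.7182818286 : ℝ) ^ m ≤ 1) :
    a * Real.log t₁ + b * Real.log t₂ + c * Real.log t₃ ≤ -m := by
  have h4 : Real.exp 1 ^ m ≤ (2.7182818286 : ℝ) ^ m :=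
    pow_le_pow_left₀ (Real.exp_pos 1).le Real.exp_one_lt_d9.le m
  have h5 : t₁ ^ a * t₂ ^ b * t₃ ^ c * Real.exp 1 ^ m ≤ 1 :=
    (mul_le_mul_of_nonneg_left h4 (by positivity)).trans h
  have h6 := Real.log_le_log (by positivity) h5
  rw [Real.log_one, Real.log_mul (by positivity) (by positivity),
    Real.log_mul (by positivity) (by positivity), Real.log_mul (by positivity) (by positivity),
    Real.log_pow, Real.log_pow, Real.log_pow, Real.log_pow, Real.log_exp] at h6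
  linarith

lemma num_pos {t₁ t₂ t₃ : ℝ} (h₁ : 0 < t₁) (h₂ : 0 < t₂) (h₃ : 0 < t₃) {a b c m : ℕ}
    (h : t₁ ^ a * t₂ ^ b * t₃ ^ c ≤ (2.7182818283 : ℝ) ^ m) :
    a * Real.log t₁ + b * Real.log t₂ + c * Real.log t₃ ≤ m := by
  have h4 : (2.7182818283 : ℝ) ^ m ≤ Real.exp 1 ^ m :=
    pow_le_pow_left₀ (by norm_num) Real.exp_one_gt_d9.le m
  have h6 := Real.log_le_log (by positivity) (h.trans h4)
  rw [Real.log_mul (by positivity) (by positivity), Real.log_mul (by positivity) (by positivity),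
    Real.log_pow, Real.log_pow, Real.log_pow, Real.log_pow, Real.log_exp] at h6
  linarith

/-- The tangent bound. -/
lemma tangent_bound {y y₀ r₁ r₂ : ℝ} (hs : r₁ + r₂ = 3) (hp : r₁ * r₂ = 1) (hy : 0 < y)
    (hy₀ : 0 < y₀) (h1 : 0 < (y - 1) / (y₀ - 1)) (h2 : 0 < (y - r₁) / (y₀ - r₁))
    (h3 : 0 < (y - r₂) / (y₀ - r₂)) :
    7 / 12 * Real.log y + 11 / 12 * Real.log |y - 1| + 1 / 3 * Real.log |y ^ 2 - 3 * y + 1| ≤
      7 / 12 * Real.log y₀ + 11 / 12 * Real.log |y₀ - 1| +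
        1 / 3 * Real.log |y₀ ^ 2 - 3 * y₀ + 1| +
        (7 / 12 / y₀ + 11 / 12 / (y₀ - 1) + 1 / 3 * ((2 * y₀ - 3) / (y₀ ^ 2 - 3 * y₀ + 1))) *
          (y - y₀) := by
  have hne : ∀ r, 0 < (y - r) / (y₀ - r) → y₀ - r ≠ 0 ∧ y - r ≠ 0 := by
    intro r h
    constructor
    · intro h0; rw [h0, div_zero] at h; exact lt_irrefl _ h
    · intro h0; rw [h0, zero_div] at h; exact lt_irrefl _ h
  obtain ⟨a1, b1⟩ := hne r₁ h2
  obtain ⟨a2, b2⟩ := hne r₂ h3
  obtain ⟨a3, b3⟩ := hne 1 h1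
  have e0 : Real.log y ≤ Real.log y₀ + (y - y₀) / y₀ := by
    have := log_tangent (y := y) (y₀ := y₀) (r := 0) (by rw [sub_zero, sub_zero]; positivity)
    rwa [sub_zero, sub_zero, abs_of_pos hy, abs_of_pos hy₀] at this
  have e1 := log_tangent h1
  have e2 := log_tangent h2
  have e3 := log_tangent h3
  have f1 : y ^ 2 - 3 * y + 1 = (y - r₁) * (y - r₂) := by
    linear_combination y * hs - hp
  have f2 : y₀ ^ 2 - 3 * y₀ + 1 = (y₀ - r₁) * (y₀ - r₂) := by
    linear_combination y₀ * hs - hp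
  have g1 : Real.log |y ^ 2 - 3 * y + 1| = Real.log |y - r₁| + Real.log |y - r₂| := by
    rw [f1, abs_mul, Real.log_mul (abs_ne_zero.mpr b1) (abs_ne_zero.mpr b2)]
  have g2 : Real.log |y₀ ^ 2 - 3 * y₀ + 1| = Real.log |y₀ - r₁| + Real.log |y₀ - r₂| := by
    rw [f2, abs_mul, Real.log_mul (abs_ne_zero.mpr a1) (abs_ne_zero.mpr a2)]
  have g3 : (2 * y₀ - 3) / (y₀ ^ 2 - 3 * y₀ + 1) = 1 / (y₀ - r₁) + 1 / (y₀ - r₂) := by
    rw [f2, div_add_div _ _ a1 a2]
    congr 1
    linear_combination hs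
  rw [g1, g2, g3]
  have g4 : (7 / 12 / y₀ + 11 / 12 / (y₀ - 1) + 1 / 3 * (1 / (y₀ - r₁) + 1 / (y₀ - r₂))) *
      (y - y₀) = 7 / 12 * ((y - y₀) / y₀) + 11 / 12 * ((y - y₀) / (y₀ - 1)) +
        1 / 3 * ((y - y₀) / (y₀ - r₁)) + 1 / 3 * ((y - y₀) / (y₀ - r₂)) := by
    ring
  rw [g4]
  linarith

/-- The auxiliary function bound. -/
lemma aux_bound {y : ℝ} (hy : 0 < y) (hy1 : y ≠ 1) (hy2 : y ^ 2 - 3 * y + 1 ≠ 0) :
    1.585 ≤ y - (7 / 12 * Real.log y + 11 / 12 * Real.log |y - 1| +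
      1 / 3 * Real.log |y ^ 2 - 3 * y + 1|) := by
  set s := Real.sqrt 5 with hs
  have hs2 : s ^ 2 = 5 := Real.sq_sqrt (by norm_num)
  have hs0 : 0 ≤ s := Real.sqrt_nonneg 5
  have hs1 : 2.236 < s := by nlinarith
  have hs3 : s < 2.237 := by nlinarith
  set r₁ := (3 - s) / 2 with hr1
  set r₂ := (3 + s) / 2 with hr2
  have hsum : r₁ + r₂ = 3 := by rw [hr1, hr2]; ring
  have hprod : r₁ * r₂ = 1 := by rw [hr1, hr2]; nlinarith
  have b1 : 0.3815 < r₁ := by rw [hr1]; linarith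
  have b2 : r₁ < 0.382 := by rw [hr1]; linarith
  have b3 : 2.618 < r₂ := by rw [hr2]; linarith
  have b4 : r₂ < 2.6185 := by rw [hr2]; linarith
  have hfac : y ^ 2 - 3 * y + 1 = (y - r₁) * (y - r₂) := by
    linear_combination y * hsum - hprod
  have hne1 : y ≠ r₁ := fun h => hy2 (by rw [hfac, h]; ring)
  have hne2 : y ≠ r₂ := fun h => hy2 (by rw [hfac, h]; ring)
  rcases lt_or_gt_of_ne hne1 with h1 | h1
  · -- first interval
    have ht := tangent_bound (y₀ := 0.157) hsum hprod hy (by norm_num)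
      (div_pos_of_neg_of_neg (by linarith) (by norm_num))
      (div_pos_of_neg_of_neg (by linarith) (by linarith))
      (div_pos_of_neg_of_neg (by linarith) (by linarith))
    have hn := num_neg (t₁ := 0.157) (t₂ := 0.843) (t₃ := 0.553649) (a := 35) (b := 55)
      (c := 20) (m := 86) (by norm_num) (by norm_num) (by norm_num) (by norm_num)
    have e1 : |(0.157 : ℝ) - 1| = 0.843 := by norm_num [abs_of_neg]
    have e2 : |(0.157 : ℝ) ^ 2 - 3 * 0.157 + 1| = 0.553649 := by norm_num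
    rw [e1, e2] at ht
    norm_num at ht hn ⊢
    nlinarith
  rcases lt_or_gt_of_ne hy1 with h2 | h2
  · have ht := tangent_bound (y₀ := 0.55) hsum hprod hy (by norm_num)
      (div_pos_of_neg_of_neg (by linarith) (by norm_num))
      (div_pos (by linarith) (by linarith))
      (div_pos_of_neg_of_neg (by linarith) (by linarith))
    have hn := num_neg (t₁ := 0.55) (t₂ := 0.45) (t₃ := 0.3475) (a := 35) (b := 55)
      (c := 20) (m := 84) (by norm_num) (by norm_num) (by norm_num) (by norm_num)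
    have e1 : |(0.55 : ℝ) - 1| = 0.45 := by norm_num [abs_of_neg]
    have e2 : |(0.55 : ℝ) ^ 2 - 3 * 0.55 + 1| = 0.3475 := by norm_num [abs_of_neg]
    rw [e1, e2] at ht
    norm_num at ht hn ⊢
    nlinarith
  rcases lt_or_gt_of_ne hne2 with h3 | h3
  · have ht := tangent_bound (y₀ := 1.94) hsum hprod hy (by norm_num)
      (div_pos (by linarith) (by norm_num))
      (div_pos (by linarith) (by linarith))
      (div_pos_of_neg_of_neg (by linarith) (by linarith))
    have hn := num_pos (t₁ := 1.94) (t₂ := 0.94) (t₃ := 1.0564) (a := 35) (b := 55)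
      (c := 20) (m := 21) (by norm_num) (by norm_num) (by norm_num) (by norm_num)
    have e1 : |(1.94 : ℝ) - 1| = 0.94 := by norm_num
    have e2 : |(1.94 : ℝ) ^ 2 - 3 * 1.94 + 1| = 1.0564 := by norm_num [abs_of_neg]
    rw [e1, e2] at ht
    norm_num at ht hn ⊢
    nlinarith
  · have ht := tangent_bound (y₀ := 3.53) hsum hprod hy (by norm_num)
      (div_pos (by linarith) (by norm_num))
      (div_pos (by linarith) (by linarith))
      (div_pos (by linarith) (by linarith))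
    have hn := num_pos (t₁ := 3.53) (t₂ := 2.53) (t₃ := 2.8709) (a := 70) (b := 110)
      (c := 40) (m := 233) (by norm_num) (by norm_num) (by norm_num) (by norm_num)
    have e1 : |(3.53 : ℝ) - 1| = 2.53 := by norm_num
    have e2 : |(3.53 : ℝ) ^ 2 - 3 * 3.53 + 1| = 2.8709 := by norm_num
    rw [e1, e2] at ht
    norm_num at ht hn ⊢
    nlinarith

end Run7.h55
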